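import Pool.Agent.FLG.CommA

/-!
# FLG-GAr: right divided differences and the generation of the classical cohomology by divisors

PLAN. `cover_right`: apply the corresponding left statement (inside the proof of `E0_A` in CommA.lean) to `v⁻¹`, or directly: lifting property. `Ar_E0`: compare coefficients at `e_w`.
Case `rt w (al i) ∈ Pos`: only `a = al i` contributes on the left (by `cover_right`), and `Ar i e_w = 0`. Case `w = v * s i`, `rt v (al i) ∈ Pos`: the bijection `b = rt (s i) a` of
`Pos \ {al i}` (`s_perm`), `w * refl a * s i = v * refl b`; for `b ≠ al i`: `len (v refl b) = len v + 1` iff `len (w refl a) = len w + 1` and `len (w refl a s_i) < len (w refl a)` (`cover_right`);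
the term `b = al i` of `E0 (ch (s_i h)) e_v` is `-ch h (al i) e_w`.
`single_mem_VV`: (1) `Ar i` maps `VV (k+1)` to `VV k` and kills `VV 0` (induction on `k` with `Ar_E0`). (2) `E0 (ch ctr)` has nonnegative coefficients, and the coefficient of `e_{w s_i}` in
`E0 (ch ctr) e_w` is `2` if `len (w s_i) = len w + 1`, so `E0 (ch ctr) ^ dm e_1` is a positive multiple of `e_{w0}` (`len w = dm` only for `w0`): so `e_{w0} ∈ VV dm`. (3) Downward induction on `len w`:
if `len w < dm`, there is `i` with `len (w s_i) = len w + 1`, and `e_w = Ar i e_{w s_i}`.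
-/

set_option autoImplicit false

open scoped BigOperators
open Pool.Agent.DST.TE

namespace Pool.Agent.FLG.RS

variable {r : ℕ}

/-- the right divided difference operators -/
noncomputable def Ar (D : RS r) (i : Fin r) : Matrix D.W D.W ℂ := Matrix.of fun u w =>
  if u = w * D.s i ∧ D.len u < D.len w then 1 else 0

/-- spans of the products of `k` divisor classes in the classical cohomology -/
noncomputable def VV (D : RS r) : ℕ → Submodule ℂ (D.W → ℂ)
  | 0 => Submodule.span ℂ {Pi.single 1 1}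
  | k + 1 => ⨆ h : Fin r → ℂ, (VV D k).map (Matrix.mulVecLin (D.E0 (D.ch h)))

variable {D : RS r}

theorem cover_right {v : D.W} {i : Fin r} {a : Fin r → ℤ} (ha : a ∈ D.Pos) (hai : a ≠ al i)
    (hv : D.rt v (al i) ∈ D.Pos) (h : D.len (v * D.refl a) = D.len v + 1) :
    D.rt (v * D.refl a) (al i) ∈ D.Pos := by
  by_contra hc
  have h1 := len_mul_s_of_neg i (v * D.refl a) hc
  have h2 := len_mul_s_of_pos i v hv
  have h3 := (s_perm i ha hai).1
  have h4 : D.rt v a ∈ D.Pos := by
    by_contra h5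
    have h6 := len_lt_of_neg v ha h5
    omega
  have h5 : D.rt (v * D.s i) (D.rt (D.s i) a) = D.rt v a := by
    rw [← D.rt_mul, mul_assoc, s_mul_self, mul_one]
  have h6 := len_lt_of_pos (v * D.s i) h3 (by rw [h5]; exact h4)
  have h7 : v * D.s i * D.refl (D.rt (D.s i) a) = v * D.refl a * D.s i := by
    rw [refl_rt _ (mem_of_pos ha), s_inv]
    calc v * D.s i * (D.s i * D.refl a * D.s i) = v * (D.s i * D.s i) * D.refl a * D.s i := by
          group
      _ = _ := by rw [s_mul_self, mul_one]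
  rw [h7] at h6
  omega

private theorem ar_Amul (M : Matrix D.W D.W ℂ) (i : Fin r) (u w : D.W) :
    (D.Ar i * M) u w = if D.len u < D.len (u * D.s i) then M (u * D.s i) w else 0 := by
  rw [Matrix.mul_apply, Finset.sum_eq_single (u * D.s i)]
  · unfold Ar
    rw [Matrix.of_apply]
    by_cases h : D.len u < D.len (u * D.s i)
    · rw [if_pos ⟨by rw [mul_assoc, s_mul_self, mul_one], h⟩, if_pos h, one_mul]
    · rw [if_neg (fun h' => h h'.2), if_neg h, zero_mul]
  · intro v _ hv
    unfold Ar
    rw [Matrix.of_apply, if_neg, zero_mul]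
    rintro ⟨h', -⟩
    apply hv
    rw [h', mul_assoc, s_mul_self, mul_one]
  · intro h
    exact absurd (Finset.mem_univ _) h

private theorem ar_mulA (M : Matrix D.W D.W ℂ) (i : Fin r) (u w : D.W) :
    (M * D.Ar i) u w = if D.len (w * D.s i) < D.len w then M u (w * D.s i) else 0 := by
  rw [Matrix.mul_apply, Finset.sum_eq_single (w * D.s i)]
  · unfold Ar
    rw [Matrix.of_apply]
    by_cases h : D.len (w * D.s i) < D.len w
    · rw [if_pos ⟨rfl, h⟩, if_pos h, mul_one]
    · rw [if_neg (fun h' => h h'.2), if_neg h, mul_zero]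
  · intro v _ hv
    unfold Ar
    rw [Matrix.of_apply, if_neg (fun h' => hv h'.1), mul_zero]
  · intro h
    exact absurd (Finset.mem_univ _) h

/-- the reflected divisor class -/
private noncomputable def sh (D : RS r) (h : Fin r → ℂ) (i : Fin r) : Fin r → ℂ :=
  fun j => h j - if j = i then D.ch h (al i) else 0

private theorem ch_sh (h : Fin r → ℂ) (i : Fin r) (b : Fin r → ℤ) :
    D.ch (D.sh h i) b = D.ch h b - D.ch h (al i) * (D.co b i : ℂ) := by
  show ∑ j, (h j - if j = i then D.ch h (al i) else 0) * (D.co b j : ℂ) =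
    (∑ j, h j * (D.co b j : ℂ)) - D.ch h (al i) * (D.co b i : ℂ)
  simp only [sub_mul, ite_mul, zero_mul, Finset.sum_sub_distrib, Finset.sum_ite_eq',
    Finset.mem_univ, if_true]

private theorem co_s (i : Fin r) {a : Fin r → ℤ} (ha : a ∈ D.Φ) (j : Fin r) :
    D.co (D.rt (D.s i) a) j = D.co a j - D.co (al i) j * D.co a i := by
  rw [← dot_al (D.co (D.rt (D.s i) a)) j, co_rt _ ha, s_inv]
  have h1 : D.rt (D.s i) (al j) = al j - dotProduct (D.co (al i)) (al j) • al i :=
    rt_refl (D.al_mem i) _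
  rw [h1, dotProduct_sub, dotProduct_smul, dot_al, dot_al, dot_al, smul_eq_mul]

private theorem co_al (D : RS r) (i : Fin r) : D.co (al i) i = 2 := by
  rw [← dot_al (D.co (al i)) i, D.co_self _ (D.al_mem i)]

private theorem ch_s (h : Fin r → ℂ) (i : Fin r) {a : Fin r → ℤ} (ha : a ∈ D.Φ) :
    D.ch (D.sh h i) (D.rt (D.s i) a) = D.ch h a := by
  rw [ch_sh]
  have h1 : D.ch h (D.rt (D.s i) a) = D.ch h a - D.ch h (al i) * (D.co a i : ℂ) := by
    unfold ch
    rw [Finset.sum_mul, ← Finset.sum_sub_distrib]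
    refine Finset.sum_congr rfl fun j _ => ?_
    rw [co_s i ha]
    push_cast
    ring
  rw [h1, co_s i ha, co_al]
  push_cast
  ring

private theorem ch_s_al (h : Fin r → ℂ) (i : Fin r) :
    D.ch (D.sh h i) (al i) = -D.ch h (al i) := by
  rw [ch_sh, co_al]
  push_cast
  ring

/-- the part of `E0` without the simple root -/
private theorem E0_split (c : (Fin r → ℤ) → ℂ) (i : Fin r) (u w : D.W) :
    D.E0 c u w = (if u = w * D.s i ∧ D.len u = D.len w + 1 then c (al i) else 0) +
      ∑ a ∈ D.Pos.erase (al i), if u = w * D.refl a ∧ D.len u = D.len w + 1 then c a else 0 := by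
  unfold E0
  rw [Matrix.of_apply]
  exact (Finset.add_sum_erase D.Pos
    (fun a => if u = w * D.refl a ∧ D.len u = D.len w + 1 then c a else 0) (D.al_pos i)).symm

private theorem ar_cancel (i : Fin r) (u w : D.W) : u * D.s i = w * D.s i ↔ u = w :=
  ⟨fun h => mul_right_cancel h, fun h => by rw [h]⟩

private theorem ar_flip (i : Fin r) (u w : D.W) : u * D.s i = w ↔ u = w * D.s i := by
  constructor
  · intro h
    rw [← h, mul_assoc, s_mul_self, mul_one]
  · intro h
    rw [h, mul_assoc, s_mul_self, mul_one]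

private theorem rt_mul_s_al (u : D.W) (i : Fin r) :
    D.rt (u * D.s i) (al i) = -D.rt u (al i) := by
  rw [D.rt_mul, rt_s_al, D.rt_neg]

private theorem Ar_E0' (h : Fin r → ℂ) (i : Fin r) :
    D.Ar i * D.E0 (D.ch h) = D.E0 (D.ch (D.sh h i)) * D.Ar i +
        D.ch h (al i) • (1 : Matrix D.W D.W ℂ) := by
  ext u w
  rw [Matrix.add_apply, Matrix.smul_apply, smul_eq_mul, ar_Amul, ar_mulA]
  have hwΦ : D.rt w (al i) ∈ D.Φ := D.rt_mem.2 (D.al_mem i)
  have huΦ : D.rt u (al i) ∈ D.Φ := D.rt_mem.2 (D.al_mem i)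
  by_cases h1 : D.rt w (al i) ∈ D.Pos
  · have hw := len_mul_s_of_pos i w h1
    rw [if_neg (show ¬ D.len (w * D.s i) < D.len w by omega), zero_add]
    by_cases h2 : D.rt u (al i) ∈ D.Pos
    · have hu := len_mul_s_of_pos i u h2
      rw [if_pos (show D.len u < D.len (u * D.s i) by omega), E0_split _ i]
      have h3 : ∑ a ∈ D.Pos.erase (al i), (if u * D.s i = w * D.refl a ∧
          D.len (u * D.s i) = D.len w + 1 then D.ch h a else 0) = 0 := by
        refine Finset.sum_eq_zero fun a ha => if_neg ?_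
        rintro ⟨e1, e2⟩
        obtain ⟨e3, e4⟩ := Finset.mem_erase.1 ha
        have e5 := cover_right e4 e3 h1 (by rw [← e1]; exact e2)
        rw [← e1, rt_mul_s_al] at e5
        exact neg_not_pos h2 e5
      rw [h3, add_zero]
      by_cases h4 : u = w
      · rw [h4, if_pos ⟨rfl, hw⟩, Matrix.one_apply_eq, mul_one]
      · rw [if_neg (fun h5 => h4 ((ar_cancel i u w).1 h5.1)), Matrix.one_apply_ne h4, mul_zero]
    · have hu := len_mul_s_of_neg i u h2
      have h4 : u ≠ w := by
        rintro rfl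
        exact h2 h1
      rw [if_neg (show ¬ D.len u < D.len (u * D.s i) by omega), Matrix.one_apply_ne h4, mul_zero]
  · have hw := len_mul_s_of_neg i w h1
    rw [if_pos (show D.len (w * D.s i) < D.len w by omega), E0_split (D.ch (D.sh h i)) i u]
    have h3 : (if u = w * D.s i * D.s i ∧ D.len u = D.len (w * D.s i) + 1 then
        D.ch (D.sh h i) (al i) else 0) = -(D.ch h (al i) * (1 : Matrix D.W D.W ℂ) u w) := by
      rw [mul_assoc, s_mul_self, mul_one]
      by_cases h4 : u = w
      · rw [h4, if_pos ⟨rfl, hw.symm⟩, Matrix.one_apply_eq, mul_one, ch_s_al]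
      · rw [if_neg (fun h5 => h4 h5.1), Matrix.one_apply_ne h4, mul_zero, neg_zero]
    rw [h3, add_assoc, add_comm (∑ a ∈ D.Pos.erase (al i), _), ← add_assoc, neg_add_cancel,
      zero_add]
    by_cases h2 : D.rt u (al i) ∈ D.Pos
    · have hu := len_mul_s_of_pos i u h2
      rw [if_pos (show D.len u < D.len (u * D.s i) by omega), E0_split _ i]
      have h5 : (if u * D.s i = w * D.s i ∧ D.len (u * D.s i) = D.len w + 1 then
          D.ch h (al i) else 0) = 0 := by
        rw [if_neg]
        rintro ⟨e1, e2⟩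
        rw [e1] at e2
        omega
      rw [h5, zero_add]
      refine Finset.sum_nbij' (fun a => D.rt (D.s i) a) (fun b => D.rt (D.s i) b) ?_ ?_ ?_ ?_ ?_
      · intro a ha
        obtain ⟨e3, e4⟩ := Finset.mem_erase.1 ha
        exact Finset.mem_erase.2 ⟨(s_perm i e4 e3).2, (s_perm i e4 e3).1⟩
      · intro a ha
        obtain ⟨e3, e4⟩ := Finset.mem_erase.1 ha
        exact Finset.mem_erase.2 ⟨(s_perm i e4 e3).2, (s_perm i e4 e3).1⟩
      · intro a _
        rw [← D.rt_mul, s_mul_self, D.rt_one]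
      · intro a _
        rw [← D.rt_mul, s_mul_self, D.rt_one]
      · intro a ha
        obtain ⟨e3, e4⟩ := Finset.mem_erase.1 ha
        refine if_congr ?_ (ch_s h i (mem_of_pos e4)).symm rfl
        have e5 : w * D.s i * D.refl (D.rt (D.s i) a) = w * D.refl a * D.s i := by
          rw [refl_rt _ (mem_of_pos e4), s_inv]
          calc w * D.s i * (D.s i * D.refl a * D.s i) =
              w * (D.s i * D.s i) * D.refl a * D.s i := by group
            _ = _ := by rw [s_mul_self, mul_one]
        rw [e5, ar_flip]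
        constructor
        · rintro ⟨e6, e7⟩
          exact ⟨e6, by omega⟩
        · rintro ⟨e6, e7⟩
          exact ⟨e6, by omega⟩
    · have hu := len_mul_s_of_neg i u h2
      rw [if_neg (show ¬ D.len u < D.len (u * D.s i) by omega)]
      symm
      refine Finset.sum_eq_zero fun b hb => if_neg ?_
      rintro ⟨e1, e2⟩
      obtain ⟨e3, e4⟩ := Finset.mem_erase.1 hb
      have e5 : D.rt (w * D.s i) (al i) ∈ D.Pos := by
        rw [rt_mul_s_al]
        exact (not_pos_iff hwΦ).1 h1
      have e6 := cover_right e4 e3 e5 (by rw [← e1]; exact e2)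
      rw [← e1] at e6
      exact h2 e6

theorem Ar_E0 (h : Fin r → ℂ) (i : Fin r) :
    D.Ar i * D.E0 (D.ch h) =
      D.E0 (D.ch fun j => h j - if j = i then D.ch h (al i) else 0) * D.Ar i +
        D.ch h (al i) • (1 : Matrix D.W D.W ℂ) := Ar_E0' h i

theorem exists_up {w : D.W} (h : D.len w < D.dm) : ∃ i, D.len (w * D.s i) = D.len w + 1 := by
  by_contra hc
  push Not at hc
  have h1 : ∀ i j, D.rt w (al i) j ≤ 0 := by
    intro i j
    have h2 : D.rt w (al i) ∉ D.Pos := fun h3 => hc i (len_mul_s_of_pos i w h3)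
    have h6 := (not_pos_iff (D.rt_mem.2 (D.al_mem i))).1 h2
    have h7 := (mem_Pos.1 h6).2 j
    rw [Pi.neg_apply] at h7
    omega
  have h2 : ∀ a ∈ D.Pos, D.rt w a ∉ D.Pos := by
    intro a ha h
    apply ne_zero (D.rt_mem.2 (mem_of_pos ha) : D.rt w a ∈ D.Φ)
    funext j
    refine le_antisymm ?_ ((mem_Pos.1 h).2 j)
    have h8 : D.rt w a = ∑ i, a i • D.rt w (al i) := by
      conv_lhs => rw [eq_sum_al a]
      rw [D.rt_sum]
      exact Finset.sum_congr rfl fun i _ => D.rt_smul w (a i) (al i)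
    rw [h8, Finset.sum_apply, Pi.zero_apply]
    refine Finset.sum_nonpos fun i _ => ?_
    rw [Pi.smul_apply, smul_eq_mul]
    exact mul_nonpos_of_nonneg_of_nonpos ((mem_Pos.1 ha).2 i) (h1 i j)
  have h3 : D.len w = D.dm := by
    unfold len dm
    congr 1
    exact Finset.filter_eq_self.2 h2
  omega

private theorem Ar_single_of_lt (i : Fin r) {w : D.W} (h : D.len w < D.len (w * D.s i)) :
    (D.Ar i).mulVec (Pi.single (w * D.s i) 1) = (Pi.single w 1 : D.W → ℂ) := by
  rw [Matrix.mulVec_single_one]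
  funext u
  unfold Ar
  rw [Matrix.col_apply, Matrix.of_apply, mul_assoc, s_mul_self, mul_one, Pi.single_apply]
  by_cases h1 : u = w
  · rw [if_pos ⟨h1, by rw [h1]; exact h⟩, if_pos h1]
  · rw [if_neg (fun h2 => h1 h2.1), if_neg h1]

private theorem Ar_single_one (i : Fin r) :
    (D.Ar i).mulVec (Pi.single 1 1) = (0 : D.W → ℂ) := by
  rw [Matrix.mulVec_single_one]
  funext u
  unfold Ar
  rw [Matrix.col_apply, Matrix.of_apply, if_neg, Pi.zero_apply]
  rintro ⟨-, h1⟩
  rw [len_one] at h1
  omega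

private theorem Ar_VV0 (i : Fin r) {x : D.W → ℂ} (hx : x ∈ D.VV 0) : (D.Ar i).mulVec x = 0 := by
  obtain ⟨c, rfl⟩ := Submodule.mem_span_singleton.1 hx
  rw [Matrix.mulVec_smul, Ar_single_one, smul_zero]

private theorem E0_VV (h : Fin r → ℂ) {k : ℕ} {x : D.W → ℂ} (hx : x ∈ D.VV k) :
    (D.E0 (D.ch h)).mulVec x ∈ D.VV (k + 1) := by
  have h1 : (D.VV k).map (Matrix.mulVecLin (D.E0 (D.ch h))) ≤ D.VV (k + 1) :=
    le_iSup (fun h : Fin r → ℂ => (D.VV k).map (Matrix.mulVecLin (D.E0 (D.ch h)))) h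
  exact h1 ⟨x, hx, rfl⟩

private theorem Ar_step (h : Fin r → ℂ) (i : Fin r) (x : D.W → ℂ) :
    (D.Ar i).mulVec ((D.E0 (D.ch h)).mulVec x) =
      (D.E0 (D.ch (D.sh h i))).mulVec ((D.Ar i).mulVec x) + D.ch h (al i) • x := by
  rw [Matrix.mulVec_mulVec, Ar_E0' h i, Matrix.add_mulVec, Matrix.smul_mulVec, Matrix.one_mulVec,
    Matrix.mulVec_mulVec]

private theorem Ar_VV (i : Fin r) (k : ℕ) :
    (D.VV (k + 1)).map (Matrix.mulVecLin (D.Ar i)) ≤ D.VV k := by
  induction k with
  | zero =>
    show (⨆ h : Fin r → ℂ, (D.VV 0).map (Matrix.mulVecLin (D.E0 (D.ch h)))).map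
      (Matrix.mulVecLin (D.Ar i)) ≤ D.VV 0
    rw [Submodule.map_iSup]
    refine iSup_le fun h => ?_
    rintro _ ⟨_, ⟨x, hx, rfl⟩, rfl⟩
    rw [Matrix.mulVecLin_apply, Matrix.mulVecLin_apply, Ar_step, Ar_VV0 i hx, Matrix.mulVec_zero,
      zero_add]
    exact Submodule.smul_mem _ _ hx
  | succ k ih =>
    show (⨆ h : Fin r → ℂ, (D.VV (k + 1)).map (Matrix.mulVecLin (D.E0 (D.ch h)))).map
      (Matrix.mulVecLin (D.Ar i)) ≤ D.VV (k + 1)
    rw [Submodule.map_iSup]
    refine iSup_le fun h => ?_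
    rintro _ ⟨_, ⟨x, hx, rfl⟩, rfl⟩
    rw [Matrix.mulVecLin_apply, Matrix.mulVecLin_apply, Ar_step]
    exact Submodule.add_mem _ (E0_VV _ (ih ⟨x, hx, rfl⟩)) (Submodule.smul_mem _ _ hx)

/-- the coefficients of `E0 (2ρ) ^ k e_1` -/
private def fk (D : RS r) : ℕ → D.W → ℤ
  | 0, w => if w = 1 then 1 else 0
  | k + 1, w => ∑ u : D.W, (∑ a ∈ D.Pos, if w = u * D.refl a ∧ D.len w = D.len u + 1 then
      D.L a else 0) * fk D k u

private theorem fk_nonneg (k : ℕ) : ∀ w : D.W, 0 ≤ D.fk k w := by
  induction k with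
  | zero =>
    intro w
    unfold fk
    split_ifs <;> norm_num
  | succ k ih =>
    intro w
    unfold fk
    refine Finset.sum_nonneg fun u _ => mul_nonneg (Finset.sum_nonneg fun a ha => ?_) (ih u)
    split_ifs
    · have := two_le_L ha
      omega
    · exact le_rfl

private theorem fk_len (k : ℕ) : ∀ w : D.W, D.len w ≠ k → D.fk k w = 0 := by
  induction k with
  | zero =>
    intro w hw
    unfold fk
    rw [if_neg]
    rintro rfl
    exact hw len_one
  | succ k ih =>
    intro w hw
    unfold fk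
    refine Finset.sum_eq_zero fun u _ => ?_
    by_cases h1 : D.len u = k
    · rw [Finset.sum_eq_zero, zero_mul]
      intro a _
      rw [if_neg]
      rintro ⟨-, h2⟩
      exact hw (by omega)
    · rw [ih u h1, mul_zero]

private theorem exists_down {w : D.W} (h : D.len w ≠ 0) : ∃ i, D.len (w * D.s i) + 1 = D.len w := by
  have h1 : w⁻¹ ≠ 1 := by
    intro h2
    apply h
    rw [inv_eq_one.1 h2, len_one]
  obtain ⟨i, hi⟩ := exists_descent h1
  refine ⟨i, ?_⟩
  rw [len_inv w] at hi
  rw [← hi, ← len_inv (w * D.s i), mul_inv_rev, s_inv]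

private theorem fk_pos (k : ℕ) : ∀ w : D.W, D.len w = k → 0 < D.fk k w := by
  induction k with
  | zero =>
    intro w hw
    unfold fk
    rw [if_pos (eq_one_of_len hw)]
    exact one_pos
  | succ k ih =>
    intro w hw
    obtain ⟨i, hi⟩ := exists_down (w := w) (by omega)
    have h1 : D.len (w * D.s i) = k := by omega
    have h2 : 0 < (∑ a ∈ D.Pos, if w = w * D.s i * D.refl a ∧ D.len w = D.len (w * D.s i) + 1 then
      D.L a else 0) := by
      refine Finset.sum_pos' (fun a ha => ?_) ⟨al i, D.al_pos i, ?_⟩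
      · split_ifs
        · have := two_le_L ha
          omega
        · exact le_rfl
      · have h3 : w = w * D.s i * D.refl (al i) := by
          have h4 : D.refl (al i) = D.s i := rfl
          rw [h4, mul_assoc, s_mul_self, mul_one]
        rw [if_pos ⟨h3, by omega⟩]
        have := two_le_L (D.al_pos i)
        omega
    unfold fk
    refine Finset.sum_pos' (fun u _ => mul_nonneg (Finset.sum_nonneg fun a ha => ?_)
      (fk_nonneg k u)) ⟨w * D.s i, Finset.mem_univ _, mul_pos h2 (ih _ h1)⟩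
    split_ifs
    · have := two_le_L ha
      omega
    · exact le_rfl

private theorem ch_tr (a : Fin r → ℤ) : D.ch (fun j => (D.tr j : ℂ)) a = (D.L a : ℂ) := by
  unfold ch L dotProduct
  push_cast
  exact Finset.sum_congr rfl fun j _ => mul_comm _ _

private theorem fk_mem (k : ℕ) : (fun w => (D.fk k w : ℂ)) ∈ D.VV k := by
  induction k with
  | zero =>
    have h1 : (fun w => (D.fk 0 w : ℂ)) = Pi.single 1 1 := by
      funext w
      unfold fk
      rw [Pi.single_apply]
      split_ifs <;> simp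
    rw [h1]
    exact Submodule.mem_span_singleton_self _
  | succ k ih =>
    have h1 : (fun w => (D.fk (k + 1) w : ℂ)) =
        (D.E0 (D.ch (fun j => (D.tr j : ℂ)))).mulVec (fun w => (D.fk k w : ℂ)) := by
      funext w
      conv_lhs => unfold fk
      unfold Matrix.mulVec dotProduct E0
      push_cast
      refine Finset.sum_congr rfl fun u _ => ?_
      rw [Matrix.of_apply]
      congr 1
      refine Finset.sum_congr rfl fun a _ => ?_
      rw [ch_tr]
    rw [h1]
    exact E0_VV _ ih

private theorem eq_w0_of_len {w : D.W} (h : D.len w = D.dm) : w = D.w0 := by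
  have h1 := len_w0_mul w
  have h2 : D.len (D.w0 * w) = 0 := by omega
  have h3 := eq_one_of_len h2
  have h4 : D.w0 * w = D.w0 * D.w0 := by rw [h3, w0_mul_self]
  exact mul_left_cancel h4

private theorem single_top {w : D.W} (h : D.len w = D.dm) :
    (Pi.single w 1 : D.W → ℂ) ∈ D.VV D.dm := by
  have h1 : (fun u => (D.fk D.dm u : ℂ)) = (D.fk D.dm w : ℂ) • (Pi.single w 1 : D.W → ℂ) := by
    funext u
    rw [Pi.smul_apply, Pi.single_apply, smul_eq_mul]
    by_cases h2 : u = w
    · rw [if_pos h2, h2, mul_one]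
    · have h3 : D.len u ≠ D.dm := fun h4 => h2 ((eq_w0_of_len h4).trans (eq_w0_of_len h).symm)
      rw [if_neg h2, fk_len _ _ h3, mul_zero, Int.cast_zero]
  have h2 := fk_mem (D := D) D.dm
  rw [h1] at h2
  have h3 : (D.fk D.dm w : ℂ) ≠ 0 := by
    have h4 := fk_pos D.dm w h
    exact_mod_cast h4.ne'
  exact (Submodule.smul_mem_iff _ h3).1 h2

theorem single_mem_VV (w : D.W) : (Pi.single w 1 : D.W → ℂ) ∈ D.VV (D.len w) := by
  obtain ⟨m, hm⟩ : ∃ m, m + D.len w = D.dm := ⟨D.dm - D.len w, Nat.sub_add_cancel (len_le_dm w)⟩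
  induction m generalizing w with
  | zero =>
    have h1 : D.len w = D.dm := by omega
    rw [h1]
    exact single_top h1
  | succ m ih =>
    obtain ⟨i, hi⟩ := exists_up (w := w) (by omega)
    have h1 := ih (w * D.s i) (by omega)
    rw [hi] at h1
    have h2 := Ar_VV i (D.len w) ⟨_, h1, rfl⟩
    rw [Matrix.mulVecLin_apply, Ar_single_of_lt i (by omega)] at h2
    exact h2

end Pool.Agent.FLG.RS
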