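import Pool.Agent.FLG.G.Schur
import Pool.Agent.FLG.Scale

/-!
# FLG-GCommE: the quantum products with divisors commute

The commutator commutes with all `A i`, `Aθ b t` (Jacobi), so it is a scalar of trace zero (`schur`).
-/

set_option autoImplicit false

open scoped BigOperators
open Pool.Agent.DST.TE

namespace Pool.Agent.FLG.RS

variable {r : ℕ} {D : RS r}

theorem hv_mul_refl (h y : Fin r → ℂ) (w : D.W) {a : Fin r → ℤ} (ha : a ∈ D.Φ) :
    D.hv h (w * D.refl a) y = D.hv h w y - D.ch h a * pr (D.rt w a) y := by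
  unfold hv ch
  rw [mul_inv_rev, refl_inv ha, Finset.sum_mul, ← Finset.sum_sub_distrib]
  refine Finset.sum_congr rfl fun j _ => ?_
  rw [D.yt_mul, yt_refl ha, D.pr_rt, Pi.sub_apply, Pi.smul_apply, smul_eq_mul]
  simp only [cc]
  ring

private theorem ch_neg' (h : Fin r → ℂ) {a : Fin r → ℤ} (ha : a ∈ D.Φ) : D.ch h (-a) = -D.ch h a := by
  unfold ch
  rw [co_neg ha, ← Finset.sum_neg_distrib]
  refine Finset.sum_congr rfl fun j _ => ?_
  rw [Pi.neg_apply, Int.cast_neg, mul_neg]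

private theorem ch_refl (h : Fin r → ℂ) {a γ : Fin r → ℤ} (ha : a ∈ D.Φ) (hγ : γ ∈ D.Φ) :
    D.ch h (D.rt (D.refl a) γ) = D.ch h γ - (dotProduct (D.co γ) a : ℤ) * D.ch h a := by
  unfold ch
  rw [Finset.mul_sum, ← Finset.sum_sub_distrib]
  refine Finset.sum_congr rfl fun j _ => ?_
  have h1 : D.co (D.rt (D.refl a) γ) j = D.co γ j - D.co a j * dotProduct (D.co γ) a := by
    rw [← dot_al (D.co (D.rt (D.refl a) γ)) j, co_rt (D.refl a) hγ, refl_inv ha, rt_refl ha, dotProduct_sub,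
      dotProduct_smul, dot_al, dot_al, smul_eq_mul]
  rw [h1]
  push_cast
  ring

private theorem key {h h' : Fin r → ℂ} {F F' : D.W → ℂ} {κ : D.W → (Fin r → ℤ) → ℂ} (t : Fin r → ℂ)
    (hF : ∀ w, ∀ a ∈ D.Pos, F (w * D.refl a) - F w = κ w a * D.ch h a)
    (hF' : ∀ w, ∀ a ∈ D.Pos, F' (w * D.refl a) - F' w = κ w a * D.ch h' a) :
    Matrix.diagonal F * D.E (D.ch h') t - D.E (D.ch h') t * Matrix.diagonal F =
      Matrix.diagonal F' * D.E (D.ch h) t - D.E (D.ch h) t * Matrix.diagonal F' := by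
  refine Matrix.ext fun u w => ?_
  rw [Matrix.sub_apply, Matrix.sub_apply, Matrix.diagonal_mul, Matrix.mul_diagonal, Matrix.diagonal_mul,
    Matrix.mul_diagonal]
  have e1 : F u * D.E (D.ch h') t u w - D.E (D.ch h') t u w * F w = (F u - F w) * D.E (D.ch h') t u w := by ring
  have e2 : F' u * D.E (D.ch h) t u w - D.E (D.ch h) t u w * F' w = (F' u - F' w) * D.E (D.ch h) t u w := by ring
  rw [e1, e2]
  unfold E
  rw [Matrix.of_apply, Matrix.of_apply, Finset.mul_sum, Finset.mul_sum]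
  refine Finset.sum_congr rfl fun a ha => ?_
  by_cases hu : u = w * D.refl a
  · rw [if_pos hu, if_pos hu]
    have h1 := hF w a ha
    have h2 := hF' w a ha
    rw [← hu] at h1 h2
    rw [h1, h2]
    ring
  · rw [if_neg hu, if_neg hu, mul_zero, mul_zero]

private theorem jac {R : Type*} [Ring R] {E E' M X X' : R} (h1 : E * M - M * E = X) (h2 : E' * M - M * E' = X')
    (h3 : X * E' - E' * X = X' * E - E * X') : (E * E' - E' * E) * M = M * (E * E' - E' * E) := by
  have e1 : (E * E' - E' * E) * M - M * (E * E' - E' * E) =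
      E * (E' * M - M * E') + (E * M - M * E) * E' - E' * (E * M - M * E) - (E' * M - M * E') * E := by
    noncomm_ring
  rw [h1, h2] at e1
  have e2 : E * X' + X * E' - E' * X - X' * E = (X * E' - E' * X) - (X' * E - E * X') := by
    noncomm_ring
  rw [e2, h3, sub_self] at e1
  exact sub_eq_zero.1 e1

private theorem E_A' (h t : Fin r → ℂ) (i : Fin r) :
    D.E (D.ch h) t * D.A i - D.A i * D.E (D.ch h) t = -Matrix.diagonal fun w => D.ch h (D.rt w⁻¹ (al i)) := by
  have h1 : ∀ k ∈ Finset.Icc 1 D.KK, D.Eq (D.ch h) t (k : ℤ) * D.A i = D.A i * D.Eq (D.ch h) t (k : ℤ) :=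
    fun k _ => Eq_A (D.ch h) t k i
  rw [E_eq, add_mul, mul_add, Finset.sum_mul, Finset.mul_sum, Finset.sum_congr rfl h1, add_sub_add_right_eq_sub,
    E0_A (fun a ha => ch_neg' h ha) i]

private theorem key_rt (h h' t : Fin r → ℂ) {b : Fin r → ℤ} (hb : b ∈ D.Φ) :
    (Matrix.diagonal fun w => D.ch h (D.rt w⁻¹ b)) * D.E (D.ch h') t -
        D.E (D.ch h') t * (Matrix.diagonal fun w => D.ch h (D.rt w⁻¹ b)) =
      (Matrix.diagonal fun w => D.ch h' (D.rt w⁻¹ b)) * D.E (D.ch h) t -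
        D.E (D.ch h) t * (Matrix.diagonal fun w => D.ch h' (D.rt w⁻¹ b)) := by
  have h1 : ∀ (g : Fin r → ℂ) (w : D.W), ∀ a ∈ D.Pos, D.ch g (D.rt (w * D.refl a)⁻¹ b) - D.ch g (D.rt w⁻¹ b) =
      -((dotProduct (D.co (D.rt w⁻¹ b)) a : ℤ) : ℂ) * D.ch g a := by
    intro g w a ha
    have ha' := mem_of_pos ha
    rw [mul_inv_rev, refl_inv ha', D.rt_mul, ch_refl g ha' (D.rt_mem.2 hb)]
    ring
  exact key t (fun w a ha => h1 h w a ha) (fun w a ha => h1 h' w a ha)

theorem E_comm (h h' t : Fin r → ℂ) :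
    D.E (D.ch h) t * D.E (D.ch h') t = D.E (D.ch h') t * D.E (D.ch h) t := by
  obtain ⟨k, hk⟩ := schur (D := D) t (K := D.E (D.ch h) t * D.E (D.ch h') t - D.E (D.ch h') t * D.E (D.ch h) t)
    (fun i => jac (E_A' h t i) (E_A' h' t i) (by
      have h1 := key_rt (D := D) h h' t (D.al_mem i)
      rw [neg_mul, mul_neg, neg_mul, mul_neg, ← neg_sub', ← neg_sub', h1]))
    (fun b hb => jac (E_Aθ (fun a ha => ch_neg' h ha) hb t) (E_Aθ (fun a ha => ch_neg' h' ha) hb t)
      (key_rt h h' t hb.mem))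
  have h1 := congrArg Matrix.trace hk
  rw [Matrix.trace_sub, Matrix.trace_mul_comm, sub_self, Matrix.trace_smul, Matrix.trace_one, smul_eq_mul] at h1
  have h2 : ((Fintype.card D.W : ℕ) : ℂ) ≠ 0 := by
    rw [Nat.cast_ne_zero]
    exact Fintype.card_ne_zero
  have h3 : k = 0 := by
    rcases mul_eq_zero.1 h1.symm with h4 | h4
    · exact h4
    · exact absurd h4 h2
  rw [h3, zero_smul] at hk
  exact sub_eq_zero.1 hk

theorem Cq_comm (h h' t y : Fin r → ℂ) :
    D.Cq h t y * D.Cq h' t y = D.Cq h' t y * D.Cq h t y := by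
  have h1 := key (D := D) (h := h) (h' := h') (F := fun u => D.hv h u y) (F' := fun u => D.hv h' u y)
    (κ := fun w a => -pr (D.rt w a) y) t (fun w a ha => by
      rw [hv_mul_refl h y w (mem_of_pos ha)]
      ring) (fun w a ha => by
      rw [hv_mul_refl h' y w (mem_of_pos ha)]
      ring)
  have h2 := E_comm (D := D) h h' t
  have h3 : Matrix.diagonal (fun u => D.hv h u y) * Matrix.diagonal (fun u => D.hv h' u y) =
      Matrix.diagonal (fun u => D.hv h' u y) * Matrix.diagonal (fun u => D.hv h u y) := by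
    rw [Matrix.diagonal_mul_diagonal, Matrix.diagonal_mul_diagonal]
    congr 1
    funext u
    rw [mul_comm]
  unfold Cq
  generalize Matrix.diagonal (fun u => D.hv h u y) = H at h1 h3 ⊢
  generalize Matrix.diagonal (fun u => D.hv h' u y) = H' at h1 h3 ⊢
  generalize D.E (D.ch h) t = E at h1 h2 ⊢
  generalize D.E (D.ch h') t = E' at h1 h2 ⊢
  rw [← sub_eq_zero] at h1 h2 h3 ⊢
  calc (E - H) * (E' - H') - (E' - H') * (E - H) =
      (E * E' - E' * E) + (H * H' - H' * H) - ((H * E' - E' * H) - (H' * E - E * H')) := by noncomm_ring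
    _ = 0 := by rw [h1, h2, h3]; simp

end Pool.Agent.FLG.RS
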