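import Pool.Agent.FLG.G.OO

/-!
# FLG-GCore: the commutative algebra generated by the divisors and its derivation

PLAN. All four statements by `Algebra.adjoin_induction` / `Subalgebra` closure properties.
`AA_comm`: `Algebra.adjoin` of pairwise commuting elements is commutative (`Algebra.adjoinCommRingOfComm` or induction twice).
`exists_gamma` by induction on `P`: scalars `c`: `γ = 0`, `c_h = (D h c) • 1`; generators `E k`: `γ = Pi.single k 1`, `c = 0`; sums add; products `P P'`:
`(P P').map D = P.map D * P' + P * P'.map D`, `tr(Q P.map(D) P') = tr((P' Q) P.map(D))`, so `γ'' = P' γ + P γ'`, `c'' = P' c + P c'`.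
`exists_der`: choose `γ, c` for `S`. For `x ∈ AA E` there is a unique `y ∈ AA E` with `tr(Q y) = tr(Q S x.map(L)) + ∑ k, tr(Q γ_k x.map(D k))` for all `Q ∈ AA E`:
existence by induction on `x`: scalar `a`: `y = (L a) • S + ∑ (D k a) • γ_k`; `x = E h`: `y = -c_h` by `rel`, the equation for `c_h` and `sym`; sums; products `x x'`: `y = x y' + x' y`
(everything in `AA E` commutes and `tr` is cyclic); uniqueness by `nd`. Then `Ξ x = S' y`; `S' ∈ AA E` commutes with everything.
-/

set_option autoImplicit false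

open scoped BigOperators

namespace Pool.Agent.FLG.G

variable {R : Type*} [CommRing R] [Algebra ℂ R] {ι κ : Type*} [Fintype ι] [DecidableEq ι]
  [Fintype κ] [DecidableEq κ]

/-- the algebra generated by the matrices `E k` -/
def AA (E : κ → Matrix ι ι R) : Subalgebra R (Matrix ι ι R) := Algebra.adjoin R (Set.range E)

variable {E : κ → Matrix ι ι R}

private theorem comm_adj {M : Matrix ι ι R} (h : ∀ k, E k * M = M * E k) {P : Matrix ι ι R}
    (hP : P ∈ AA E) : P * M = M * P := by
  refine Algebra.adjoin_induction (p := fun P _ => P * M = M * P) ?_ ?_ ?_ ?_ hP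
  · rintro _ ⟨k, rfl⟩
    exact h k
  · intro r
    exact Algebra.commutes r M
  · intro x y _ _ hx hy
    rw [add_mul, mul_add, hx, hy]
  · intro x y _ _ hx hy
    rw [mul_assoc, hy, ← mul_assoc, hx, mul_assoc]

theorem AA_comm (hE : ∀ h k, E h * E k = E k * E h) {P Q : Matrix ι ι R} (hP : P ∈ AA E)
    (hQ : Q ∈ AA E) : P * Q = Q * P :=
  comm_adj (fun k => (comm_adj (fun h => hE h k) hQ).symm) hP

private theorem gen_mem (k : κ) : E k ∈ AA E := Algebra.subset_adjoin ⟨k, rfl⟩

private theorem map_der_mul (D : Derivation ℂ R R) (P P' : Matrix ι ι R) :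
    (P * P').map D = P.map D * P' + P * P'.map D := by
  ext i j
  simp only [Matrix.map_apply, Matrix.mul_apply, Matrix.add_apply, map_sum, Derivation.leibniz,
    smul_eq_mul, ← Finset.sum_add_distrib]
  refine Finset.sum_congr rfl fun k _ => ?_
  ring

private theorem map_der_alg (D : Derivation ℂ R R) (a : R) :
    (algebraMap R (Matrix ι ι R) a).map D = algebraMap R (Matrix ι ι R) (D a) := by
  ext i j
  simp only [Matrix.map_apply, Matrix.algebraMap_matrix_apply, Algebra.algebraMap_self,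
    RingHom.id_apply]
  split_ifs
  · rfl
  · exact map_zero _

private theorem map_der_add (D : Derivation ℂ R R) (P P' : Matrix ι ι R) :
    (P + P').map D = P.map D + P'.map D := by
  ext i j
  simp only [Matrix.map_apply, Matrix.add_apply, map_add]

theorem exists_gamma (hE : ∀ h k, E h * E k = E k * E h) (D : κ → Derivation ℂ R R)
    {P : Matrix ι ι R} (hP : P ∈ AA E) :
    ∃ γ c : κ → Matrix ι ι R, (∀ k, γ k ∈ AA E) ∧ (∀ k, c k ∈ AA E) ∧
      ∀ h, ∀ Q ∈ AA E, (Q * P.map (D h)).trace =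
        (Q * c h).trace + ∑ k, (Q * γ k * (E k).map (D h)).trace := by
  refine Algebra.adjoin_induction (p := fun P _ => ∃ γ c : κ → Matrix ι ι R,
    (∀ k, γ k ∈ AA E) ∧ (∀ k, c k ∈ AA E) ∧
      ∀ h, ∀ Q ∈ AA E, (Q * P.map (D h)).trace =
        (Q * c h).trace + ∑ k, (Q * γ k * (E k).map (D h)).trace) ?_ ?_ ?_ ?_ hP
  · rintro _ ⟨k, rfl⟩
    refine ⟨Pi.single k 1, 0, ?_, fun _ => (AA E).zero_mem, ?_⟩
    · intro j
      by_cases hj : j = k
      · subst hj
        rw [Pi.single_eq_same]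
        exact (AA E).one_mem
      · rw [Pi.single_eq_of_ne hj]
        exact (AA E).zero_mem
    · intro h Q _
      rw [Finset.sum_eq_single k]
      · rw [Pi.single_eq_same, mul_one, Pi.zero_apply, mul_zero, Matrix.trace_zero, zero_add]
      · intro j _ hj
        rw [Pi.single_eq_of_ne hj, mul_zero, zero_mul, Matrix.trace_zero]
      · intro hk
        exact absurd (Finset.mem_univ k) hk
  · intro a
    refine ⟨0, fun h => algebraMap R _ (D h a), fun _ => (AA E).zero_mem,
      fun h => (AA E).algebraMap_mem _, ?_⟩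
    intro h Q _
    rw [map_der_alg]
    simp
  · rintro x y _ _ ⟨γ, c, h1, h2, h3⟩ ⟨γ', c', h1', h2', h3'⟩
    refine ⟨fun k => γ k + γ' k, fun k => c k + c' k, fun k => (AA E).add_mem (h1 k) (h1' k),
      fun k => (AA E).add_mem (h2 k) (h2' k), ?_⟩
    intro h Q hQ
    rw [map_der_add, mul_add, Matrix.trace_add, h3 h Q hQ, h3' h Q hQ, mul_add, Matrix.trace_add]
    simp only [mul_add, add_mul, Matrix.trace_add, Finset.sum_add_distrib]
    ring
  · rintro x y hx hy ⟨γ, c, h1, h2, h3⟩ ⟨γ', c', h1', h2', h3'⟩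
    refine ⟨fun k => y * γ k + x * γ' k, fun k => y * c k + x * c' k,
      fun k => (AA E).add_mem ((AA E).mul_mem hy (h1 k)) ((AA E).mul_mem hx (h1' k)),
      fun k => (AA E).add_mem ((AA E).mul_mem hy (h2 k)) ((AA E).mul_mem hx (h2' k)), ?_⟩
    intro h Q hQ
    have hyQ : y * Q = Q * y := AA_comm hE hy hQ
    have e1 : (Q * (x.map (D h) * y)).trace = (Q * y * x.map (D h)).trace := by
      rw [← mul_assoc, Matrix.trace_mul_comm, ← mul_assoc, hyQ]
    have e2 : (Q * (x * y.map (D h))).trace = (Q * x * y.map (D h)).trace := by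
      rw [← mul_assoc]
    rw [map_der_mul, mul_add, Matrix.trace_add, e1, e2, h3 h (Q * y) ((AA E).mul_mem hQ hy),
      h3' h (Q * x) ((AA E).mul_mem hQ hx)]
    simp only [mul_add, add_mul, Matrix.trace_add, Finset.sum_add_distrib, mul_assoc]
    ring

private theorem ex_y (hE : ∀ h k, E h * E k = E k * E h) (D : κ → Derivation ℂ R R)
    (L : Derivation ℂ R R) (sym : ∀ h k, (E k).map (D h) = (E h).map (D k))
    {S : Matrix ι ι R} (hS : S ∈ AA E)
    (rel : ∀ h, ∀ Q ∈ AA E, (Q * S.map (D h)).trace = -(Q * S * (E h).map L).trace)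
    {γ c : κ → Matrix ι ι R} (hγ : ∀ k, γ k ∈ AA E) (hc : ∀ k, c k ∈ AA E)
    (hgc : ∀ h, ∀ Q ∈ AA E, (Q * S.map (D h)).trace =
        (Q * c h).trace + ∑ k, (Q * γ k * (E k).map (D h)).trace)
    {x : Matrix ι ι R} (hx : x ∈ AA E) :
    ∃ y ∈ AA E, ∀ Q ∈ AA E, (Q * y).trace =
      (Q * S * x.map L).trace + ∑ k, (Q * γ k * x.map (D k)).trace := by
  refine Algebra.adjoin_induction (p := fun x _ => ∃ y ∈ AA E, ∀ Q ∈ AA E, (Q * y).trace =
      (Q * S * x.map L).trace + ∑ k, (Q * γ k * x.map (D k)).trace) ?_ ?_ ?_ ?_ hx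
  · rintro _ ⟨h, rfl⟩
    refine ⟨-c h, (AA E).neg_mem (hc h), ?_⟩
    intro Q hQ
    have e1 : ∑ k, (Q * γ k * (E h).map (D k)).trace = ∑ k, (Q * γ k * (E k).map (D h)).trace :=
      Finset.sum_congr rfl fun k _ => by rw [← sym h k]
    have e2 := hgc h Q hQ
    rw [rel h Q hQ] at e2
    rw [e1, mul_neg, Matrix.trace_neg]
    linear_combination e2
  · intro a
    refine ⟨L a • S + ∑ k, D k a • γ k, ?_, ?_⟩
    · exact (AA E).add_mem ((AA E).smul_mem hS _)
        ((AA E).sum_mem fun k _ => (AA E).smul_mem (hγ k) _)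
    · intro Q _
      have e1 : ∀ (A : Matrix ι ι R) (b : R),
          (A * algebraMap R (Matrix ι ι R) b).trace = b * A.trace := by
        intro A b
        rw [Algebra.algebraMap_eq_smul_one, mul_smul_comm, mul_one, Matrix.trace_smul, smul_eq_mul]
      rw [map_der_alg, e1, mul_add, Matrix.trace_add, mul_smul_comm, Matrix.trace_smul,
        smul_eq_mul, Finset.mul_sum, Matrix.trace_sum]
      congr 1
      refine Finset.sum_congr rfl fun k _ => ?_
      rw [map_der_alg, e1, mul_smul_comm, Matrix.trace_smul, smul_eq_mul]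
  · rintro x x' _ _ ⟨y, hy, h1⟩ ⟨y', hy', h1'⟩
    refine ⟨y + y', (AA E).add_mem hy hy', ?_⟩
    intro Q hQ
    rw [mul_add, Matrix.trace_add, h1 Q hQ, h1' Q hQ]
    simp only [map_der_add, mul_add, Matrix.trace_add, Finset.sum_add_distrib]
    ring
  · rintro x x' hx hx' ⟨y, hy, h1⟩ ⟨y', hy', h1'⟩
    refine ⟨x' * y + x * y', (AA E).add_mem ((AA E).mul_mem hx' hy) ((AA E).mul_mem hx hy'), ?_⟩
    intro Q hQ
    have key : ∀ (A : Matrix ι ι R), A ∈ AA E → ∀ d : Derivation ℂ R R,
        (Q * A * (x * x').map d).trace =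
          (Q * x' * A * x.map d).trace + (Q * x * A * x'.map d).trace := by
      intro A hA d
      rw [map_der_mul, mul_add, Matrix.trace_add]
      congr 1
      · have e1 : Q * A * (x.map d * x') = (Q * A * x.map d) * x' := by rw [mul_assoc (Q * A)]
        rw [e1, Matrix.trace_mul_comm]
        have e2 : x' * (Q * A * x.map d) = Q * x' * A * x.map d := by
          rw [← mul_assoc, ← mul_assoc, AA_comm hE hx' hQ]
        rw [e2]
      · have e2 : Q * A * (x * x'.map d) = Q * x * A * x'.map d := by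
          rw [← mul_assoc, mul_assoc Q A x, AA_comm hE hA hx, ← mul_assoc Q x A]
        rw [e2]
    rw [key S hS L, mul_add, Matrix.trace_add]
    have e3 : ∑ k, (Q * γ k * (x * x').map (D k)).trace =
        ∑ k, (Q * x' * γ k * x.map (D k)).trace + ∑ k, (Q * x * γ k * x'.map (D k)).trace := by
      rw [← Finset.sum_add_distrib]
      exact Finset.sum_congr rfl fun k _ => key (γ k) (hγ k) (D k)
    rw [e3, ← mul_assoc, ← mul_assoc, h1 (Q * x') ((AA E).mul_mem hQ hx'),
      h1' (Q * x) ((AA E).mul_mem hQ hx)]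
    ring

theorem exists_der (hE : ∀ h k, E h * E k = E k * E h) (D : κ → Derivation ℂ R R)
    (L : Derivation ℂ R R) (sym : ∀ h k, (E k).map (D h) = (E h).map (D k))
    (nd : ∀ P ∈ AA E, (∀ Q ∈ AA E, (P * Q).trace = 0) → P = 0)
    {S S' : Matrix ι ι R} (hS : S ∈ AA E) (hS' : S' ∈ AA E) (h1 : S' * S = 1)
    (rel : ∀ h, ∀ Q ∈ AA E, (Q * S.map (D h)).trace = -(Q * S * (E h).map L).trace) :
    ∃ Ξ : AA E → AA E, (∀ x y, Ξ (x + y) = Ξ x + Ξ y) ∧
      (∀ x y, Ξ (x * y) = Ξ x * y + x * Ξ y) ∧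
      ∀ a : R, (∀ h, D h a = 0) → Ξ (algebraMap R (AA E) a) = algebraMap R (AA E) (L a) := by
  obtain ⟨γ, c, hγ, hc, hgc⟩ := exists_gamma hE D hS
  have hex := fun x : AA E => ex_y hE D L sym hS rel hγ hc hgc x.2
  choose y hy1 hy2 using hex
  have huniq : ∀ x : AA E, ∀ z ∈ AA E, (∀ Q ∈ AA E, (Q * z).trace =
      (Q * S * x.1.map L).trace + ∑ k, (Q * γ k * x.1.map (D k)).trace) → y x = z := by
    intro x z hz h
    have h0 := nd (y x - z) ((AA E).sub_mem (hy1 x) hz) (by
      intro Q hQ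
      rw [Matrix.trace_mul_comm, mul_sub, Matrix.trace_sub, hy2 x Q hQ, h Q hQ, sub_self])
    exact sub_eq_zero.1 h0
  have hadd : ∀ x x' : AA E, y (x + x') = y x + y x' := by
    intro x x'
    refine huniq _ _ ((AA E).add_mem (hy1 x) (hy1 x')) ?_
    intro Q hQ
    rw [mul_add, Matrix.trace_add, hy2 x Q hQ, hy2 x' Q hQ]
    show _ = (Q * S * (x.1 + x'.1).map L).trace + ∑ k, (Q * γ k * (x.1 + x'.1).map (D k)).trace
    simp only [map_der_add, mul_add, Matrix.trace_add, Finset.sum_add_distrib]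
    ring
  have hmul : ∀ x x' : AA E, y (x * x') = x'.1 * y x + x.1 * y x' := by
    intro x x'
    refine huniq _ _ ((AA E).add_mem ((AA E).mul_mem x'.2 (hy1 x))
      ((AA E).mul_mem x.2 (hy1 x'))) ?_
    intro Q hQ
    have hx := x.2
    have hx' := x'.2
    have key : ∀ (A : Matrix ι ι R), A ∈ AA E → ∀ d : Derivation ℂ R R,
        (Q * A * (x.1 * x'.1).map d).trace =
          (Q * x'.1 * A * x.1.map d).trace + (Q * x.1 * A * x'.1.map d).trace := by
      intro A hA d
      rw [map_der_mul, mul_add, Matrix.trace_add]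
      congr 1
      · have e1 : Q * A * (x.1.map d * x'.1) = (Q * A * x.1.map d) * x'.1 := by
          rw [mul_assoc (Q * A)]
        rw [e1, Matrix.trace_mul_comm]
        have e2 : x'.1 * (Q * A * x.1.map d) = Q * x'.1 * A * x.1.map d := by
          rw [← mul_assoc, ← mul_assoc, AA_comm hE hx' hQ]
        rw [e2]
      · have e2 : Q * A * (x.1 * x'.1.map d) = Q * x.1 * A * x'.1.map d := by
          rw [← mul_assoc, mul_assoc Q A x.1, AA_comm hE hA hx, ← mul_assoc Q x.1 A]
        rw [e2]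
    show _ = (Q * S * (x.1 * x'.1).map L).trace + ∑ k, (Q * γ k * (x.1 * x'.1).map (D k)).trace
    have e3 : ∑ k, (Q * γ k * (x.1 * x'.1).map (D k)).trace =
        ∑ k, (Q * x'.1 * γ k * x.1.map (D k)).trace +
          ∑ k, (Q * x.1 * γ k * x'.1.map (D k)).trace := by
      rw [← Finset.sum_add_distrib]
      exact Finset.sum_congr rfl fun k _ => key (γ k) (hγ k) (D k)
    rw [key S hS L, mul_add, Matrix.trace_add, e3, ← mul_assoc, ← mul_assoc,
      hy2 x (Q * x'.1) ((AA E).mul_mem hQ hx'), hy2 x' (Q * x.1) ((AA E).mul_mem hQ hx)]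
    ring
  refine ⟨fun x => ⟨S' * y x, (AA E).mul_mem hS' (hy1 x)⟩, ?_, ?_, ?_⟩
  · intro x x'
    refine Subtype.ext ?_
    show S' * y (x + x') = S' * y x + S' * y x'
    rw [hadd, mul_add]
  · intro x x'
    refine Subtype.ext ?_
    show S' * y (x * x') = S' * y x * x'.1 + x.1 * (S' * y x')
    rw [hmul, mul_add]
    congr 1
    · rw [AA_comm hE x'.2 (hy1 x), mul_assoc]
    · rw [← mul_assoc, ← mul_assoc, AA_comm hE hS' x.2]
  · intro a ha
    refine Subtype.ext ?_
    show S' * y (algebraMap R (AA E) a) = algebraMap R (Matrix ι ι R) (L a)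
    have h2 : y (algebraMap R (AA E) a) = L a • S := by
      refine huniq _ _ ((AA E).smul_mem hS _) ?_
      intro Q _
      show _ = (Q * S * (algebraMap R (Matrix ι ι R) a).map L).trace +
        ∑ k, (Q * γ k * (algebraMap R (Matrix ι ι R) a).map (D k)).trace
      rw [map_der_alg, Algebra.algebraMap_eq_smul_one, mul_smul_comm, mul_smul_comm, mul_one,
        Matrix.trace_smul]
      have : ∑ k, (Q * γ k * (algebraMap R (Matrix ι ι R) a).map (D k)).trace = 0 := by
        refine Finset.sum_eq_zero fun k _ => ?_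
        rw [map_der_alg, ha k, map_zero, mul_zero, Matrix.trace_zero]
      rw [this, add_zero]
    rw [h2, mul_smul_comm, h1, Algebra.algebraMap_eq_smul_one]

/-- `e` is a cyclic vector -/
def IsCyc (E : κ → Matrix ι ι R) (e : ι) : Prop :=
  ∀ x : ι → R, ∃ P ∈ AA E, ∀ w, P w e = x w

theorem IsCyc.ext (hE : ∀ h k, E h * E k = E k * E h) {e : ι} (cyc : IsCyc E e)
    {P Q : Matrix ι ι R} (hP : ∀ h, E h * P = P * E h) (hQ : ∀ h, E h * Q = Q * E h)
    (h : ∀ w, P w e = Q w e) : P = Q := by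
  ext w j
  obtain ⟨A, hA, hAj⟩ := cyc (Pi.single j 1)
  have key : ∀ M : Matrix ι ι R, (M * A) w e = M w j := by
    intro M
    rw [Matrix.mul_apply, Finset.sum_eq_single j]
    · rw [hAj, Pi.single_eq_same, mul_one]
    · intro v _ hv
      rw [hAj, Pi.single_eq_of_ne hv, mul_zero]
    · intro hj
      exact absurd (Finset.mem_univ j) hj
  rw [← key P, ← key Q, ← comm_adj hP hA, ← comm_adj hQ hA, Matrix.mul_apply, Matrix.mul_apply]
  exact Finset.sum_congr rfl fun v _ => by rw [h v]

theorem IsCyc.mem (hE : ∀ h k, E h * E k = E k * E h) {e : ι} (cyc : IsCyc E e)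
    {P : Matrix ι ι R} (hP : ∀ h, E h * P = P * E h) : P ∈ AA E := by
  obtain ⟨A, hA, hAP⟩ := cyc fun w => P w e
  have : P = A := IsCyc.ext hE cyc hP (fun h => AA_comm hE (gen_mem h) hA) fun w => (hAP w).symm
  rw [this]
  exact hA

theorem IsCyc.exists_basis (hE : ∀ h k, E h * E k = E k * E h) {e : ι} (cyc : IsCyc E e) :
    ∃ b : Module.Basis ι R (AA E), ∀ (P : AA E) (w : ι), b.repr P w = P.1 w e := by
  let f : AA E →ₗ[R] (ι → R) :=
    { toFun := fun P w => P.1 w e
      map_add' := fun P Q => rfl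
      map_smul' := fun a P => rfl }
  have hf : Function.Bijective f := by
    constructor
    · intro P Q h
      refine Subtype.ext ?_
      exact IsCyc.ext hE cyc (fun h => AA_comm hE (gen_mem h) P.2)
        (fun h => AA_comm hE (gen_mem h) Q.2) fun w => congrFun h w
    · intro x
      obtain ⟨A, hA, hAx⟩ := cyc x
      exact ⟨⟨A, hA⟩, funext hAx⟩
  refine ⟨Module.Basis.ofEquivFun (LinearEquiv.ofBijective f hf), ?_⟩
  intro P w
  rw [Module.Basis.ofEquivFun_repr_apply]
  rfl

end Pool.Agent.FLG.G
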