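import Pool.Agent.FLG.G.Ar
import Pool.Agent.FLG.G.Core

/-!
# FLG-GCycR: `e_1` is a cyclic vector over every ring
-/

set_option autoImplicit false

open scoped BigOperators
open Pool.Agent.DST.TE

namespace Pool.Agent.FLG.RS

open Pool.Agent.FLG.G

variable {r : ℕ} {D : RS r}

theorem ch_smul_add (h : Fin r → ℂ) (a : Fin r → ℤ) :
    D.ch h a = ∑ j, h j * D.ch (Pi.single j 1) a := by
  unfold ch
  refine Finset.sum_congr rfl fun j _ => ?_
  rw [Finset.sum_eq_single j]
  · rw [Pi.single_eq_same, one_mul]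
  · intro i _ hij
    rw [Pi.single_eq_of_ne hij, zero_mul]
  · intro h
    exact absurd (Finset.mem_univ j) h

private theorem E0_zero (c : (Fin r → ℤ) → ℂ) {u w : D.W} (h : D.len u ≠ D.len w + 1) :
    D.E0 c u w = 0 := by
  unfold E0
  rw [Matrix.of_apply]
  exact Finset.sum_eq_zero fun a _ => if_neg fun h' => h h'.2

private theorem E0_lin (h : Fin r → ℂ) (u w : D.W) :
    D.E0 (D.ch h) u w = ∑ j, h j * D.E0 (D.ch (Pi.single j 1)) u w := by
  unfold E0
  simp only [Matrix.of_apply, Finset.mul_sum]
  rw [Finset.sum_comm]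
  refine Finset.sum_congr rfl fun a _ => ?_
  by_cases hc : u = w * D.refl a ∧ D.len u = D.len w + 1
  · simp only [if_pos hc]
    exact ch_smul_add h a
  · simp only [if_neg hc, mul_zero, Finset.sum_const_zero]

private theorem VV_supp (k : ℕ) : ∀ x ∈ D.VV k, ∀ w, D.len w ≠ k → x w = 0 := by
  induction k with
  | zero =>
    intro x hx w hw
    obtain ⟨a, rfl⟩ := Submodule.mem_span_singleton.1 (show x ∈ Submodule.span ℂ {Pi.single 1 1} from hx)
    have hw1 : w ≠ 1 := by
      rintro rfl
      exact hw len_one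
    rw [Pi.smul_apply, Pi.single_eq_of_ne hw1, smul_zero]
  | succ k ih =>
    intro x hx w hw
    have hx' : x ∈ ⨆ h : Fin r → ℂ, (VV D k).map (Matrix.mulVecLin (D.E0 (D.ch h))) := hx
    refine Submodule.iSup_induction _ (motive := fun x => x w = 0) hx' ?_ rfl ?_
    · rintro h _ ⟨y, hy, rfl⟩
      rw [Matrix.mulVecLin_apply]
      refine Finset.sum_eq_zero fun v _ => ?_
      change D.E0 (D.ch h) w v * y v = 0
      by_cases hv : D.len v = k
      · rw [E0_zero _ (by rw [hv]; exact hw), zero_mul]
      · rw [ih y hy v hv, mul_zero]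
    · intro y z hy hz
      rw [Pi.add_apply, hy, hz, add_zero]

theorem cyc_of_tri {R : Type*} [CommRing R] [Algebra ℂ R] {E : Fin r → Matrix D.W D.W R}
    (h : ∀ j u w, D.len w < D.len u →
      E j u w = algebraMap ℂ R (D.E0 (D.ch (Pi.single j 1)) u w)) : IsCyc E (1 : D.W) := by
  classical
  obtain ⟨A, hA⟩ : ∃ A : Submodule R (D.W → R), ∀ x, x ∈ A ↔ ∃ P ∈ AA E, ∀ w, P w 1 = x w := by
    refine ⟨{ carrier := {x | ∃ P ∈ AA E, ∀ w, P w 1 = x w}
              add_mem' := ?_
              zero_mem' := ?_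
              smul_mem' := ?_ }, fun x => Iff.rfl⟩
    · rintro x y ⟨P, hP, hPx⟩ ⟨Q, hQ, hQy⟩
      exact ⟨P + Q, add_mem hP hQ, fun w => by rw [Matrix.add_apply, hPx, hQy, Pi.add_apply]⟩
    · exact ⟨0, zero_mem _, fun w => rfl⟩
    · rintro c x ⟨P, hP, hPx⟩
      exact ⟨c • P, Subalgebra.smul_mem _ hP c, fun w => by
        rw [Matrix.smul_apply, hPx, Pi.smul_apply]⟩
  have hE : ∀ j, E j ∈ AA E := fun j => Algebra.subset_adjoin ⟨j, rfl⟩
  have key : ∀ k, ∀ x ∈ D.VV k, ∃ P ∈ AA E, ∀ w, k ≤ D.len w →
      P w 1 = algebraMap ℂ R (x w) := by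
    intro k
    induction k with
    | zero =>
      intro x hx
      obtain ⟨a, rfl⟩ := Submodule.mem_span_singleton.1
        (show x ∈ Submodule.span ℂ {Pi.single 1 1} from hx)
      refine ⟨algebraMap ℂ R a • 1, Subalgebra.smul_mem _ (one_mem _) _, fun w _ => ?_⟩
      rw [Matrix.smul_apply, Matrix.one_apply, Pi.smul_apply, Pi.single_apply]
      by_cases hw : w = 1
      · rw [if_pos hw, if_pos hw, smul_eq_mul, smul_eq_mul, mul_one, mul_one]
      · rw [if_neg hw, if_neg hw, smul_zero, smul_zero, map_zero]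
    | succ k ih =>
      intro x hx
      have hx' : x ∈ ⨆ h : Fin r → ℂ, (VV D k).map (Matrix.mulVecLin (D.E0 (D.ch h))) := hx
      refine Submodule.iSup_induction _ (motive := fun x => ∃ P ∈ AA E, ∀ w, k + 1 ≤ D.len w →
        P w 1 = algebraMap ℂ R (x w)) hx' ?_ ⟨0, zero_mem _, fun w _ => ?_⟩ ?_
      · rintro c _ ⟨y, hy, rfl⟩
        obtain ⟨P, hP, hPy⟩ := ih y hy
        refine ⟨(∑ j, algebraMap ℂ R (c j) • E j) * P,
          mul_mem (sum_mem fun j _ => Subalgebra.smul_mem _ (hE j) _) hP, fun w hw => ?_⟩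
        have h1 : ∀ v, (∑ j, algebraMap ℂ R (c j) • E j) w v * P v 1 =
            algebraMap ℂ R (D.E0 (D.ch c) w v * y v) := by
          intro v
          rw [Matrix.sum_apply]
          rcases lt_trichotomy (D.len v) k with hv | hv | hv
          · have h2 : ∀ j, (algebraMap ℂ R (c j) • E j) w v = 0 := by
              intro j
              rw [Matrix.smul_apply, h j w v (by omega), E0_zero _ (by omega), map_zero, smul_zero]
            rw [Finset.sum_eq_zero fun j _ => h2 j, zero_mul, VV_supp k y hy v hv.ne, mul_zero,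
              map_zero]
          · rw [hPy v hv.ge, E0_lin, map_mul, map_sum]
            congr 1
            refine Finset.sum_congr rfl fun j _ => ?_
            rw [Matrix.smul_apply, h j w v (by omega), smul_eq_mul, map_mul]
          · rw [hPy v hv.le, VV_supp k y hy v hv.ne', map_zero, mul_zero, mul_zero, map_zero]
        rw [Matrix.mul_apply, Finset.sum_congr rfl fun v _ => h1 v, ← map_sum]
        rfl
      · rw [Matrix.zero_apply, Pi.zero_apply, map_zero]
      · rintro y z ⟨P, hP, hPy⟩ ⟨Q, hQ, hQz⟩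
        exact ⟨P + Q, add_mem hP hQ, fun w hw => by
          rw [Matrix.add_apply, hPy w hw, hQz w hw, Pi.add_apply, map_add]⟩
  have hsingle : ∀ n, ∀ w, D.len w = n → (Pi.single w 1 : D.W → R) ∈ A := by
    intro n
    induction n using Nat.strong_induction_on with
    | _ n ih =>
      intro w hw
      obtain ⟨P, hP, hPw⟩ := key _ _ (single_mem_VV w)
      have h1 : (fun u => P u 1) ∈ A := (hA _).2 ⟨P, hP, fun _ => rfl⟩
      have h2 : (Pi.single w 1 : D.W → R) = (fun u => P u 1) -
          ∑ u ∈ Finset.univ.filter (fun u => D.len u < D.len w), P u 1 • Pi.single u 1 := by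
        funext v
        rw [Pi.sub_apply, Finset.sum_apply]
        by_cases hv : D.len v < D.len w
        · rw [Finset.sum_eq_single v]
          · rw [Pi.smul_apply, Pi.single_eq_same, smul_eq_mul, mul_one, sub_self,
              Pi.single_eq_of_ne]
            rintro rfl
            exact lt_irrefl _ hv
          · intro u _ huv
            rw [Pi.smul_apply, Pi.single_eq_of_ne huv.symm, smul_zero]
          · intro h3
            exact absurd (Finset.mem_filter.2 ⟨Finset.mem_univ v, hv⟩) h3
        · rw [Finset.sum_eq_zero, sub_zero, hPw v (not_lt.1 hv)]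
          · by_cases hvw : v = w
            · rw [hvw, Pi.single_eq_same, Pi.single_eq_same, map_one]
            · rw [Pi.single_eq_of_ne hvw, Pi.single_eq_of_ne hvw, map_zero]
          · intro u hu
            rw [Pi.smul_apply, Pi.single_eq_of_ne, smul_zero]
            rintro rfl
            exact hv (Finset.mem_filter.1 hu).2
      rw [h2]
      refine sub_mem h1 (sum_mem fun u hu => A.smul_mem _ ?_)
      exact ih (D.len u) (by rw [← hw]; exact (Finset.mem_filter.1 hu).2) u rfl
  intro x
  rw [← hA]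
  have h1 : x = ∑ w, x w • (Pi.single w 1 : D.W → R) := by
    funext v
    rw [Finset.sum_apply, Finset.sum_eq_single v]
    · rw [Pi.smul_apply, Pi.single_eq_same, smul_eq_mul, mul_one]
    · intro u _ huv
      rw [Pi.smul_apply, Pi.single_eq_of_ne huv.symm, smul_zero]
    · intro h3
      exact absurd (Finset.mem_univ v) h3
  rw [h1]
  exact sum_mem fun w _ => A.smul_mem _ (hsingle _ w rfl)

end Pool.Agent.FLG.RS
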