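import Pool.Agent.FLG.G.OO

/-!
# FLG-GNil: nilpotents lift along a derivation with `Ξ X = 1`; traces of powers

PLAN `nil_lift`. `x ∈ X^k A` iff all coordinates are divisible by `X^k`; `⋂ X^k A = 0`; `X • x = 0 → x = 0`; `Ξ (X^k • x) = k X^(k-1) • x + X^k • Ξ x`.
Define `n'` by its coordinates: `coeff m (repr n' w) = ∑ k ∈ range (m+1), ((-1)^k / k!) • coeff (m-k) (repr (Ξ^[k] n) w)`. For every `K`:
`n' - ∑ k ∈ range K, ((-1)^k / k!) • X^k • Ξ^[k] n ∈ X^K A`, so `Ξ n' ∈ X^(K-1) A` (telescoping), so `Ξ n' = 0`. `n'^N - n^N ∈ X A`, so `n'^N ∈ X A`; `Ξ (n'^N) = 0`.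
If `x ∈ X^j A`, `j ≥ 1`, `Ξ x = 0`, then `x ∈ X^(j+1) A`: `x = X^j y`, `0 = j X^(j-1) y + X^j Ξ y`, so `j y = -X Ξ y`. Hence `n'^N = 0`.
`nilpotent_of_traces`: over an algebraic closure of the fraction field, or via Newton's identities, or: if `P` is not nilpotent there is a polynomial `f` without constant term such that `f(P)` is an
idempotent `≠ 0`, whose trace is its rank. (Compare Pool/Agent/Helper1/DubProd/Srk.lean, `nilpotent_of_trm_mulVec`.)
-/

set_option autoImplicit false

open scoped BigOperators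

namespace Pool.Agent.FLG.G

section gen

variable {R A : Type*} [CommRing R] [Ring A] [Algebra R A]

private theorem gm1 (k : ℕ) (a X : R) (x y : A) :
    (-(a * ((k : R) + 1)) * X ^ k) • x + a • (((k : R) + 1) • X ^ k • x + X ^ (k + 1) • y) = (a * X ^ (k + 1)) • y := by
  module

private theorem gm2 (K : ℕ) (a X : R) (x y u : A) :
    ((K : R) + 1) • X ^ K • x + X ^ (K + 1) • y + (a * X ^ K) • u = X ^ K • (((K : R) + 1) • x + X • y + a • u) := by
  module

private theorem gm3 (j : ℕ) (X : R) (x y : A) :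
    X ^ j • (((j : R) + 1) • x + X • y) = ((j : R) + 1) • X ^ j • x + X ^ (j + 1) • y := by
  module

private theorem gm4 (a X : R) (y : A) : -((a * X) • y) = X • (-(a • y)) := by
  module

private theorem xi_X {X : R} {Ξ : A → A} (mul : ∀ x y, Ξ (x * y) = Ξ x * y + x * Ξ y)
    (hX : Ξ (algebraMap R A X) = 1) (x : A) : Ξ (X • x) = x + X • Ξ x := by
  rw [Algebra.smul_def, mul, hX, one_mul, Algebra.smul_def]

private theorem xi_pow {X : R} {Ξ : A → A} (mul : ∀ x y, Ξ (x * y) = Ξ x * y + x * Ξ y)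
    (hX : Ξ (algebraMap R A X) = 1) (k : ℕ) (x : A) :
    Ξ (X ^ (k + 1) • x) = ((k : R) + 1) • X ^ k • x + X ^ (k + 1) • Ξ x := by
  induction k with
  | zero =>
    rw [zero_add, pow_one, xi_X mul hX, Nat.cast_zero]
    module
  | succ k ih =>
    rw [pow_succ' _ (k + 1), mul_smul, xi_X mul hX, ih, Nat.cast_add, Nat.cast_one]
    module

end gen

section lift

variable {O : Type*} [CommRing O] {A : Type*} [Ring A] [Algebra (PowerSeries O) A] {ι : Type*} [Fintype ι]

private theorem ix_iff (b : Module.Basis ι (PowerSeries O) A) (k : ℕ) (x : A) :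
    (∃ y : A, x = (PowerSeries.X : PowerSeries O) ^ k • y) ↔
      ∀ w m, m < k → PowerSeries.coeff m (b.repr x w) = 0 := by
  constructor
  · rintro ⟨y, rfl⟩ w m hm
    rw [map_smul, Finsupp.smul_apply, smul_eq_mul]
    exact PowerSeries.X_pow_dvd_iff.1 (dvd_mul_right _ _) m hm
  · intro h
    have h1 : ∀ w, ∃ y, b.repr x w = (PowerSeries.X : PowerSeries O) ^ k * y :=
      fun w => PowerSeries.X_pow_dvd_iff.2 (h w)
    choose y hy using h1
    refine ⟨∑ w, y w • b w, ?_⟩
    calc x = ∑ w, b.repr x w • b w := (b.sum_repr x).symm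
      _ = ∑ w, (PowerSeries.X : PowerSeries O) ^ k • (y w • b w) :=
        Finset.sum_congr rfl fun w _ => by rw [hy w, smul_smul]
      _ = (PowerSeries.X : PowerSeries O) ^ k • ∑ w, y w • b w := Finset.smul_sum.symm

private theorem ix_zero (b : Module.Basis ι (PowerSeries O) A) {x : A}
    (h : ∀ k : ℕ, ∃ y : A, x = (PowerSeries.X : PowerSeries O) ^ k • y) : x = 0 := by
  have h1 : b.repr x = 0 := by
    refine Finsupp.ext fun w => ?_
    refine PowerSeries.ext fun m => ?_
    rw [(ix_iff b (m + 1) x).1 (h (m + 1)) w m (Nat.lt_succ_self m)]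
    rfl
  exact b.repr.map_eq_zero_iff.1 h1

private theorem ix_reg (b : Module.Basis ι (PowerSeries O) A) {x : A}
    (h : (PowerSeries.X : PowerSeries O) • x = 0) : x = 0 := by
  have h1 : b.repr x = 0 := by
    refine Finsupp.ext fun w => ?_
    refine PowerSeries.ext fun m => ?_
    have h2 : PowerSeries.coeff (m + 1) (b.repr ((PowerSeries.X : PowerSeries O) • x) w) = 0 := by
      rw [h, map_zero]
      rfl
    rw [map_smul, Finsupp.smul_apply, smul_eq_mul, PowerSeries.coeff_succ_X_mul] at h2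
    rw [h2]
    rfl
  exact b.repr.map_eq_zero_iff.1 h1

private theorem ix_reg' (b : Module.Basis ι (PowerSeries O) A) (k : ℕ) {x : A}
    (h : (PowerSeries.X : PowerSeries O) ^ k • x = 0) : x = 0 := by
  induction k with
  | zero => rwa [pow_zero, one_smul] at h
  | succ k ih =>
    rw [pow_succ', mul_smul] at h
    exact ih (ix_reg b h)

/-- The partial sums of the lift. -/
private noncomputable def pS (c : ℕ → PowerSeries O) (u : ℕ → A) : ℕ → A
  | 0 => 0
  | k + 1 => pS c u k + (c k * (PowerSeries.X : PowerSeries O) ^ k) • u k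

private theorem pS_coord (b : Module.Basis ι (PowerSeries O) A) (d : ℕ → O) (u : ℕ → A) (w : ι) (m K : ℕ) :
    PowerSeries.coeff m (b.repr (pS (fun k => PowerSeries.C (d k)) u K) w) =
      ∑ k ∈ Finset.range K, if k ≤ m then d k * PowerSeries.coeff (m - k) (b.repr (u k) w) else 0 := by
  induction K with
  | zero =>
    show PowerSeries.coeff m (b.repr 0 w) = _
    rw [map_zero, Finset.sum_range_zero]
    rfl
  | succ K ih =>
    show PowerSeries.coeff m (b.repr (pS (fun k => PowerSeries.C (d k)) u K +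
      (PowerSeries.C (d K) * (PowerSeries.X : PowerSeries O) ^ K) • u K) w) = _
    rw [map_add, Finsupp.add_apply, map_add, ih, Finset.sum_range_succ, map_smul, Finsupp.smul_apply,
      smul_eq_mul, mul_assoc, PowerSeries.coeff_C_mul, PowerSeries.coeff_X_pow_mul', mul_ite, mul_zero]

end lift

theorem nil_lift {O : Type*} [CommRing O] [Algebra ℂ O] {A : Type*} [Ring A]
    [Algebra (PowerSeries O) A] {ι : Type*} [Fintype ι] (b : Module.Basis ι (PowerSeries O) A)
    (Ξ : A → A) (add : ∀ x y, Ξ (x + y) = Ξ x + Ξ y) (mul : ∀ x y, Ξ (x * y) = Ξ x * y + x * Ξ y)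
    (hX : Ξ (algebraMap (PowerSeries O) A PowerSeries.X) = 1)
    (hC : ∀ c : ℂ, Ξ (algebraMap (PowerSeries O) A (algebraMap ℂ (PowerSeries O) c)) = 0)
    {n : A} {N : ℕ} (hn : ∃ y : A, n ^ N = (PowerSeries.X : PowerSeries O) • y) :
    ∃ n' : A, n' ^ N = 0 ∧ ∃ y : A, n' - n = (PowerSeries.X : PowerSeries O) • y := by
  have h0 : Ξ 0 = 0 := by
    have h := add 0 0
    rw [add_zero] at h
    exact left_eq_add.1 h
  have h1 : Ξ 1 = 0 := by
    have h := mul 1 1
    rw [one_mul, mul_one, one_mul] at h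
    exact left_eq_add.1 h
  have hCs : ∀ (c : ℂ) (x : A), Ξ ((algebraMap ℂ (PowerSeries O) c) • x) = (algebraMap ℂ (PowerSeries O) c) • Ξ x := by
    intro c x
    rw [Algebra.smul_def, mul, hC, zero_mul, zero_add, Algebra.smul_def]
  have hsub : ∀ x y, Ξ (x - y) = Ξ x - Ξ y := by
    intro x y
    have h := add (x - y) y
    rw [sub_add_cancel] at h
    rw [h, add_sub_cancel_right]
  obtain ⟨c, hc⟩ : ∃ c : ℕ → ℂ, c = fun k => (-1) ^ k / (k.factorial : ℂ) := ⟨_, rfl⟩
  have hc0 : c 0 = 1 := by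
    rw [hc]
    simp
  have hcs : ∀ k, c k + c (k + 1) * ((k : ℂ) + 1) = 0 := by
    intro k
    rw [hc]
    show (-1 : ℂ) ^ k / (k.factorial : ℂ) + (-1) ^ (k + 1) / ((k + 1).factorial : ℂ) * ((k : ℂ) + 1) = 0
    have h2 : (k.factorial : ℂ) ≠ 0 := Nat.cast_ne_zero.2 (Nat.factorial_ne_zero k)
    have h3 : (k : ℂ) + 1 ≠ 0 := by exact_mod_cast Nat.succ_ne_zero k
    rw [Nat.factorial_succ, Nat.cast_mul, Nat.cast_add, Nat.cast_one, pow_succ]
    field_simp
    ring
  obtain ⟨d, hd⟩ : ∃ d : ℕ → O, d = fun k => algebraMap ℂ O (c k) := ⟨_, rfl⟩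
  have hdC : ∀ k, PowerSeries.C (d k) = algebraMap ℂ (PowerSeries O) (c k) := by
    intro k
    rw [hd, PowerSeries.algebraMap_apply]
  obtain ⟨u, hu⟩ : ∃ u : ℕ → A, u = fun k => Ξ^[k] n := ⟨_, rfl⟩
  have hu0 : u 0 = n := by rw [hu]; rfl
  have hus : ∀ k, Ξ (u k) = u (k + 1) := by
    intro k
    rw [hu]
    exact (Function.iterate_succ_apply' Ξ k n).symm
  obtain ⟨P, hP⟩ : ∃ P : ℕ → A, P = pS (fun k => PowerSeries.C (d k)) u := ⟨_, rfl⟩
  have hP0 : P 0 = 0 := by rw [hP]; rfl
  have hPs : ∀ k, P (k + 1) = P k + (algebraMap ℂ (PowerSeries O) (c k) * (PowerSeries.X : PowerSeries O) ^ k) • u k := by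
    intro k
    rw [hP, ← hdC k]
    rfl
  have hP1 : P 1 = n := by
    have h := hPs 0
    rw [zero_add, hP0, zero_add, hc0, map_one, one_mul, pow_zero, one_smul, hu0] at h
    exact h
  have hXi : ∀ k, Ξ (P (k + 1)) = (algebraMap ℂ (PowerSeries O) (c k) * (PowerSeries.X : PowerSeries O) ^ k) • u (k + 1) := by
    intro k
    induction k with
    | zero => rw [zero_add, hP1, hc0, map_one, one_mul, pow_zero, one_smul, ← hu0, hus 0]
    | succ k ih =>
      rw [hPs (k + 1), add, ih, mul_smul (algebraMap ℂ (PowerSeries O) (c (k + 1))), hCs, xi_pow mul hX, hus]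
      have h2 : algebraMap ℂ (PowerSeries O) (c k) =
          -(algebraMap ℂ (PowerSeries O) (c (k + 1)) * ((k : PowerSeries O) + 1)) := by
        have h3 : c k = -(c (k + 1) * ((k : ℂ) + 1)) := by linear_combination hcs k
        rw [h3, map_neg, map_mul, map_add, map_one, map_natCast]
      rw [h2]
      exact gm1 _ _ _ _ _
  -- the lift
  obtain ⟨n', hn'⟩ : ∃ n' : A, n' = ∑ w, (PowerSeries.mk fun m => ∑ k ∈ Finset.range (m + 1),
      d k * PowerSeries.coeff (m - k) (b.repr (u k) w)) • b w := ⟨_, rfl⟩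
  have hrep : ∀ w m, PowerSeries.coeff m (b.repr n' w) = ∑ k ∈ Finset.range (m + 1),
      d k * PowerSeries.coeff (m - k) (b.repr (u k) w) := by
    intro w m
    rw [hn', b.repr_sum_self, PowerSeries.coeff_mk]
  have hdif : ∀ K, ∃ y : A, n' - P K = (PowerSeries.X : PowerSeries O) ^ K • y := by
    intro K
    rw [ix_iff b]
    intro w m hm
    rw [map_sub, Finsupp.sub_apply, map_sub, hrep, hP, pS_coord, sub_eq_zero]
    have h2 : Finset.range (m + 1) ⊆ Finset.range K := Finset.range_subset_range.2 (by omega)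
    rw [← Finset.sum_subset h2]
    · refine Finset.sum_congr rfl fun k hk => ?_
      rw [if_pos (Nat.lt_succ_iff.1 (Finset.mem_range.1 hk))]
    · intro k _ hk
      rw [if_neg fun h3 => hk (Finset.mem_range.2 (by omega))]
  have hXn : Ξ n' = 0 := by
    refine ix_zero b fun K => ?_
    obtain ⟨y, hy⟩ := hdif (K + 1)
    have h2 : Ξ n' = Ξ (n' - P (K + 1)) + Ξ (P (K + 1)) := by rw [hsub, sub_add_cancel]
    refine ⟨((K : PowerSeries O) + 1) • y + (PowerSeries.X : PowerSeries O) • Ξ y +
      algebraMap ℂ (PowerSeries O) (c K) • u (K + 1), ?_⟩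
    rw [h2, hy, xi_pow mul hX, hXi]
    exact gm2 _ _ _ _ _ _
  obtain ⟨y1, hy1⟩ := hdif 1
  rw [hP1, pow_one] at hy1
  -- powers
  have hpw : ∀ N : ℕ, ∃ y : A, n' ^ N - n ^ N = (PowerSeries.X : PowerSeries O) • y := by
    intro N
    induction N with
    | zero => exact ⟨0, by rw [pow_zero, pow_zero, sub_self, smul_zero]⟩
    | succ N ih =>
      obtain ⟨y, hy⟩ := ih
      refine ⟨n' ^ N * y1 + y * n, ?_⟩
      rw [smul_add, ← mul_smul_comm, ← hy1, ← smul_mul_assoc, ← hy, pow_succ, pow_succ, mul_sub, sub_mul]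
      abel
  have hXp : ∀ N : ℕ, Ξ (n' ^ N) = 0 := by
    intro N
    induction N with
    | zero => rw [pow_zero, h1]
    | succ N ih => rw [pow_succ, mul, ih, hXn, zero_mul, mul_zero, add_zero]
  refine ⟨n', ?_, y1, hy1⟩
  have hall : ∀ j : ℕ, ∃ y : A, n' ^ N = (PowerSeries.X : PowerSeries O) ^ (j + 1) • y := by
    intro j
    induction j with
    | zero =>
      obtain ⟨y, hy⟩ := hpw N
      obtain ⟨z, hz⟩ := hn
      refine ⟨y + z, ?_⟩
      rw [zero_add, pow_one, smul_add, ← hy, ← hz, sub_add_cancel]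
    | succ j ih =>
      obtain ⟨y, hy⟩ := ih
      have h2 := hXp N
      rw [hy, xi_pow mul hX] at h2
      have h3 : (PowerSeries.X : PowerSeries O) ^ j • (((j : PowerSeries O) + 1) • y +
          (PowerSeries.X : PowerSeries O) • Ξ y) = 0 := by
        rw [← h2]
        exact gm3 _ _ _ _
      have h4 := ix_reg' b j h3
      have h5 : (algebraMap ℂ (PowerSeries O) (((j : ℂ) + 1)⁻¹)) * ((j : PowerSeries O) + 1) = 1 := by
        have h6 : ((j : PowerSeries O) + 1) = algebraMap ℂ (PowerSeries O) ((j : ℂ) + 1) := by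
          rw [map_add, map_one, map_natCast]
        have h7 : (j : ℂ) + 1 ≠ 0 := by exact_mod_cast Nat.succ_ne_zero j
        rw [h6, ← map_mul, inv_mul_cancel₀ h7, map_one]
      have h8 : y = (PowerSeries.X : PowerSeries O) • (-(algebraMap ℂ (PowerSeries O) (((j : ℂ) + 1)⁻¹) • Ξ y)) := by
        have h9 : ((algebraMap ℂ (PowerSeries O) (((j : ℂ) + 1)⁻¹)) * ((j : PowerSeries O) + 1)) • y +
            (algebraMap ℂ (PowerSeries O) (((j : ℂ) + 1)⁻¹) * (PowerSeries.X : PowerSeries O)) • Ξ y = 0 := by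
          rw [mul_smul, mul_smul, ← smul_add, h4, smul_zero]
        rw [h5, one_smul] at h9
        exact (eq_neg_of_add_eq_zero_left h9).trans (gm4 _ _ _)
      refine ⟨-(algebraMap ℂ (PowerSeries O) (((j : ℂ) + 1)⁻¹) • Ξ y), ?_⟩
      rw [hy]
      conv_lhs => rw [h8]
      rw [smul_smul, ← pow_succ]
  exact ix_zero b fun k => by
    rcases k with _ | k
    · exact ⟨n' ^ N, by rw [pow_zero, one_smul]⟩
    · exact hall k

private theorem tr_poly {K : Type*} [Field K] {ι : Type*} [Fintype ι] [DecidableEq ι] (P : Matrix ι ι K)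
    (h : ∀ k : ℕ, 0 < k → (P ^ k).trace = 0) (u : Polynomial K) (a : ℕ) :
    (Polynomial.aeval P (u * Polynomial.X ^ (a + 1))).trace = 0 := by
  induction u using Polynomial.induction_on' with
  | add p q hp hq => rw [add_mul, map_add, Matrix.trace_add, hp, hq, add_zero]
  | monomial n c =>
    rw [Polynomial.monomial_mul_X_pow, Polynomial.aeval_monomial, ← Algebra.smul_def, Matrix.trace_smul,
      h _ (by omega), smul_zero]

private theorem nil_field {K : Type*} [Field K] [CharZero K] {ι : Type*} [Fintype ι] [DecidableEq ι] (P : Matrix ι ι K)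
    (h : ∀ k : ℕ, 0 < k → (P ^ k).trace = 0) : IsNilpotent P := by
  obtain ⟨q, hq, hq'⟩ := Polynomial.exists_eq_pow_rootMultiplicity_mul_and_not_dvd P.charpoly
    P.charpoly_monic.ne_zero 0
  obtain ⟨a, ha⟩ : ∃ a, a = P.charpoly.rootMultiplicity 0 := ⟨_, rfl⟩
  rw [← ha, Polynomial.C_0, sub_zero] at hq
  rw [Polynomial.C_0, sub_zero] at hq'
  have hco : IsCoprime (Polynomial.X : Polynomial K) q :=
    (Polynomial.irreducible_X.coprime_iff_not_dvd).2 hq'
  obtain ⟨u, v, huv⟩ := hco.pow_left (m := a + 1)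
  have hch : Polynomial.aeval P (Polynomial.X ^ a * q) = 0 := by
    rw [← hq]
    exact P.aeval_self_charpoly
  obtain ⟨e, he⟩ : ∃ e, e = Polynomial.aeval P (u * Polynomial.X ^ (a + 1)) := ⟨_, rfl⟩
  have hid : e * e = e := by
    have h1 : (u * Polynomial.X ^ (a + 1)) * (u * Polynomial.X ^ (a + 1)) =
        u * Polynomial.X ^ (a + 1) - (u * v * Polynomial.X) * (Polynomial.X ^ a * q) := by
      have h2 : u * Polynomial.X ^ (a + 1) = 1 - v * q := by rw [← huv]; ring
      calc (u * Polynomial.X ^ (a + 1)) * (u * Polynomial.X ^ (a + 1))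
          = (u * Polynomial.X ^ (a + 1)) * (1 - v * q) := by rw [h2]
        _ = _ := by ring
    rw [he, ← map_mul, h1, map_sub, map_mul _ (u * v * Polynomial.X), hch, mul_zero, sub_zero]
  have he0 : e = 0 := by
    have h1 : IsIdempotentElem (Matrix.toLin' e) := by
      show Matrix.toLin' e * Matrix.toLin' e = Matrix.toLin' e
      have h2 := Matrix.toLin'_mul e e
      rw [hid] at h2
      exact h2.symm
    have h2 : LinearMap.trace K (ι → K) (Matrix.toLin' e) = 0 := by
      rw [Matrix.trace_toLin'_eq, he]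
      exact tr_poly P h u a
    have h3 := LinearMap.IsIdempotentElem.eq_zero_of_trace_eq_zero h1 h2
    exact (LinearEquiv.map_eq_zero_iff Matrix.toLin').1 h3
  refine ⟨a, ?_⟩
  have h1 : Polynomial.aeval P (v * q) = 1 := by
    have h2 := congrArg (Polynomial.aeval (R := K) P) huv
    rw [map_add, ← he, he0, zero_add, map_one] at h2
    exact h2
  calc P ^ a = Polynomial.aeval P ((Polynomial.X : Polynomial K) ^ a) * Polynomial.aeval P (v * q) := by
        rw [h1, mul_one, map_pow, Polynomial.aeval_X]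
    _ = Polynomial.aeval P v * Polynomial.aeval P (Polynomial.X ^ a * q) := by
        rw [← map_mul, ← map_mul]
        congr 1
        ring
    _ = 0 := by rw [hch, mul_zero]

theorem nilpotent_of_traces {O : Type*} [CommRing O] [IsDomain O] [CharZero O] {ι : Type*}
    [Fintype ι] [DecidableEq ι] (P : Matrix ι ι O) (h : ∀ k : ℕ, 0 < k → (P ^ k).trace = 0) :
    P ^ Fintype.card ι = 0 := by
  have hinj : Function.Injective (algebraMap O (FractionRing O)) := IsFractionRing.injective O (FractionRing O)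
  have hcz : CharZero (FractionRing O) := charZero_of_injective_algebraMap hinj
  have hpow : ∀ k : ℕ, (P ^ k).map (algebraMap O (FractionRing O)) = (P.map (algebraMap O (FractionRing O))) ^ k := by
    intro k
    have h1 := map_pow (algebraMap O (FractionRing O)).mapMatrix P k
    rwa [RingHom.mapMatrix_apply, RingHom.mapMatrix_apply] at h1
  obtain ⟨a, ha⟩ := nil_field (P.map (algebraMap O (FractionRing O))) fun k hk => by
    rw [← hpow, ← AddMonoidHom.map_trace (algebraMap O (FractionRing O)), h k hk, map_zero]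
  rw [← hpow] at ha
  have hnil : IsNilpotent P := by
    refine ⟨a, ?_⟩
    ext i j
    have h1 := congrFun (congrFun ha i) j
    rw [Matrix.map_apply, Matrix.zero_apply] at h1
    rw [Matrix.zero_apply]
    exact (map_eq_zero_iff _ hinj).1 h1
  have h1 := (Matrix.isNilpotent_charpoly_sub_pow_of_isNilpotent hnil).eq_zero
  have h2 := P.aeval_self_charpoly
  rw [sub_eq_zero.1 h1, map_pow, Polynomial.aeval_X] at h2
  exact h2

end Pool.Agent.FLG.G
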