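import Pool.Agent.FLG.G.Core
import Pool.Agent.FLG.G.Nil

/-!
# FLG-GRed: the trace form at `X = 0` is nondegenerate

PLAN. Let `P ∈ AA E⁰`, `E⁰ h = (E h).map constantCoeff`, be orthogonal to `AA E⁰`. Then `tr (P^k) = 0` for `k ≥ 1`, so `P ^ N = 0` (`nilpotent_of_traces`, `N = card ι`). Lift `P` to `n ∈ AA E`
with `n.map constantCoeff = P` (induction on `AA E⁰`, scalars by `PowerSeries.C`). `n ^ N` has all entries divisible by `X`; by `IsCyc.exists_basis` (coordinates = entries of the column `e`) `n ^ N = X • y` with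
`y ∈ AA E`. `nil_lift` with `b` of `exists_basis` and `A = AA E` gives `n'` nilpotent with `n' - n ∈ X A`. For `Q ∈ AA E`, `n' * Q` is nilpotent (commutativity), so its trace is
nilpotent (`Matrix.isNilpotent_trace_of_isNilpotent`), hence `0` in the domain `O⟦X⟧`; so `n' = 0` by `nd`, so `P = n.map constantCoeff = 0`.
-/

set_option autoImplicit false

open scoped BigOperators

namespace Pool.Agent.FLG.G

variable {O : Type*} [CommRing O] [IsDomain O] [Algebra ℂ O] {ι κ : Type*} [Fintype ι]
  [DecidableEq ι] [Fintype κ] [DecidableEq κ]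

private theorem map_mem {E : κ → Matrix ι ι (PowerSeries O)} {P : Matrix ι ι (PowerSeries O)} (hP : P ∈ AA E) :
    P.map (PowerSeries.constantCoeff (R := O)) ∈ AA (fun k => (E k).map (PowerSeries.constantCoeff (R := O))) := by
  unfold AA at hP
  induction hP using Algebra.adjoin_induction with
  | mem x hx =>
    obtain ⟨k, rfl⟩ := hx
    exact Algebra.subset_adjoin ⟨k, rfl⟩
  | algebraMap r =>
    have h1 : (algebraMap (PowerSeries O) (Matrix ι ι (PowerSeries O)) r).map
        (PowerSeries.constantCoeff (R := O)) =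
        algebraMap O (Matrix ι ι O) (PowerSeries.constantCoeff r) := by
      rw [Matrix.algebraMap_eq_diagonal, Matrix.algebraMap_eq_diagonal, Matrix.diagonal_map (map_zero _)]
      rfl
    rw [h1]
    exact Subalgebra.algebraMap_mem _ _
  | add x y _ _ hx hy =>
    rw [Matrix.map_add _ (map_add _)]
    exact Subalgebra.add_mem _ hx hy
  | mul x y _ _ hx hy =>
    rw [Matrix.map_mul]
    exact Subalgebra.mul_mem _ hx hy

private theorem lift_mem {E : κ → Matrix ι ι (PowerSeries O)} {P : Matrix ι ι O}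
    (hP : P ∈ AA (fun k => (E k).map (PowerSeries.constantCoeff (R := O)))) :
    ∃ n ∈ AA E, n.map (PowerSeries.constantCoeff (R := O)) = P := by
  unfold AA at hP
  induction hP using Algebra.adjoin_induction with
  | mem x hx =>
    obtain ⟨k, rfl⟩ := hx
    exact ⟨E k, Algebra.subset_adjoin ⟨k, rfl⟩, rfl⟩
  | algebraMap r =>
    refine ⟨algebraMap (PowerSeries O) (Matrix ι ι (PowerSeries O)) (PowerSeries.C r),
      Subalgebra.algebraMap_mem _ _, ?_⟩
    rw [Matrix.algebraMap_eq_diagonal, Matrix.algebraMap_eq_diagonal, Matrix.diagonal_map (map_zero _)]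
    congr 1
  | add x y _ _ hx hy =>
    obtain ⟨a, ha, ha'⟩ := hx
    obtain ⟨b, hb, hb'⟩ := hy
    exact ⟨a + b, Subalgebra.add_mem _ ha hb, by rw [Matrix.map_add _ (map_add _), ha', hb']⟩
  | mul x y _ _ hx hy =>
    obtain ⟨a, ha, ha'⟩ := hx
    obtain ⟨b, hb, hb'⟩ := hy
    exact ⟨a * b, Subalgebra.mul_mem _ ha hb, by rw [Matrix.map_mul, ha', hb']⟩

theorem nd_zero {E : κ → Matrix ι ι (PowerSeries O)} (hE : ∀ h k, E h * E k = E k * E h) {e : ι}
    (cyc : IsCyc E e) (nd : ∀ P ∈ AA E, (∀ Q ∈ AA E, (P * Q).trace = 0) → P = 0)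
    (Ξ : AA E → AA E) (add : ∀ x y, Ξ (x + y) = Ξ x + Ξ y)
    (mul : ∀ x y, Ξ (x * y) = Ξ x * y + x * Ξ y)
    (hX : Ξ (algebraMap (PowerSeries O) (AA E) PowerSeries.X) = 1)
    (hC : ∀ c : ℂ, Ξ (algebraMap (PowerSeries O) (AA E) (algebraMap ℂ (PowerSeries O) c)) = 0) :
    ∀ P ∈ AA (fun k => (E k).map PowerSeries.constantCoeff),
      (∀ Q ∈ AA (fun k => (E k).map PowerSeries.constantCoeff), (P * Q).trace = 0) → P = 0 := by
  intro P hP horth
  haveI : CharZero O := charZero_of_injective_algebraMap (algebraMap ℂ O).injective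
  have hnil : P ^ Fintype.card ι = 0 := by
    refine nilpotent_of_traces P fun k hk => ?_
    obtain ⟨m, rfl⟩ : ∃ m, k = m + 1 := ⟨k - 1, by omega⟩
    rw [pow_succ']
    exact horth _ (Subalgebra.pow_mem _ hP m)
  obtain ⟨n, hn, hnP⟩ := lift_mem hP
  obtain ⟨b, hb⟩ := IsCyc.exists_basis hE cyc
  set N := Fintype.card ι with hN
  have hcc : (n ^ N).map (PowerSeries.constantCoeff (R := O)) = 0 := by
    have h1 : (PowerSeries.constantCoeff (R := O)).mapMatrix (n ^ N) =
        ((PowerSeries.constantCoeff (R := O)).mapMatrix n) ^ N := map_pow _ _ _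
    rw [RingHom.mapMatrix_apply, RingHom.mapMatrix_apply, hnP, hnil] at h1
    exact h1
  have hdiv : ∀ w, ∃ g : PowerSeries O, (n ^ N) w e = PowerSeries.X * g := by
    intro w
    have h1 : PowerSeries.constantCoeff ((n ^ N) w e) = 0 := by
      have := congrFun (congrFun hcc w) e
      simpa using this
    exact PowerSeries.X_dvd_iff.2 h1
  choose g hg using hdiv
  have hpow : ∃ y : AA E, (⟨n, hn⟩ : AA E) ^ N = (PowerSeries.X : PowerSeries O) • y := by
    refine ⟨b.equivFun.symm g, ?_⟩
    apply b.repr.injective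
    ext1 w
    rw [hb, map_smul, Finsupp.smul_apply]
    have h1 : (b.repr (b.equivFun.symm g)) w = g w := by
      have := congrFun (b.equivFun.apply_symm_apply g) w
      rwa [Module.Basis.equivFun_apply] at this
    rw [h1, smul_eq_mul, ← hg w]
    rfl
  obtain ⟨n', hn', y, hy⟩ := nil_lift b Ξ add mul hX hC hpow
  have hz : n'.1 = 0 := by
    refine nd n'.1 n'.2 fun Q hQ => ?_
    have hcomm : Commute n'.1 Q := AA_comm hE n'.2 hQ
    have h1 : IsNilpotent (n'.1 * Q) := by
      refine ⟨N, ?_⟩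
      rw [hcomm.mul_pow]
      have h2 : n'.1 ^ N = 0 := by
        have := congrArg Subtype.val hn'
        simpa using this
      rw [h2, zero_mul]
    exact (Matrix.isNilpotent_trace_of_isNilpotent h1).eq_zero
  have h3 : n = -((PowerSeries.X : PowerSeries O) • y.1) := by
    have h4 := congrArg Subtype.val hy
    have h5 : n'.1 - n = (PowerSeries.X : PowerSeries O) • y.1 := h4
    rw [hz, zero_sub] at h5
    rw [← h5, neg_neg]
  rw [← hnP, h3]
  ext i j
  simp

theorem IsCyc.zero {E : κ → Matrix ι ι (PowerSeries O)} {e : ι} (cyc : IsCyc E e) :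
    IsCyc (fun k => (E k).map (PowerSeries.constantCoeff (R := O))) e := by
  intro x
  obtain ⟨P, hP, hx⟩ := cyc fun w => PowerSeries.C (x w)
  refine ⟨P.map (PowerSeries.constantCoeff (R := O)), map_mem hP, fun w => ?_⟩
  rw [Matrix.map_apply, hx]
  simp

end Pool.Agent.FLG.G
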