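import Pool.Agent.FLG.G.Core

/-!
# FLG-GSep: the Euler class generates the algebra over the field of fractions

The minimal polynomial `m` of `C` over the field of fractions is squarefree, the entrywise derivations show that all `E h` are polynomials in `C`, and the cyclic vector gives `deg m = card ι`.
-/

set_option autoImplicit false

open scoped BigOperators

namespace Pool.Agent.FLG.G

variable {O : Type*} [CommRing O] [IsDomain O] [Algebra ℂ O] {ι κ : Type*} [Fintype ι]
  [DecidableEq ι] [Fintype κ] [DecidableEq κ]

/-- the matrix over the field of fractions -/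
private noncomputable def kk (M : Matrix ι ι O) : Matrix ι ι (FractionRing O) :=
  M.map (algebraMap O (FractionRing O))

omit [IsDomain O] [Algebra ℂ O] [Fintype ι] [DecidableEq ι] in
private theorem kk_inj {M N : Matrix ι ι O} (h : kk M = kk N) : M = N := by
  ext i j
  exact IsFractionRing.injective O (FractionRing O) (congrFun (congrFun h i) j)

omit [IsDomain O] [Algebra ℂ O] in
private theorem kk_aeval (C : Matrix ι ι O) (p : Polynomial O) :
    Polynomial.aeval (kk C) (p.map (algebraMap O (FractionRing O))) = kk (Polynomial.aeval C p) := by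
  rw [Polynomial.aeval_map_algebraMap]
  exact Polynomial.aeval_algHom_apply (Algebra.ofId O (FractionRing O)).mapMatrix C p

omit [IsDomain O] [Algebra ℂ O] [DecidableEq ι] in
private theorem kk_mul (M N : Matrix ι ι O) : kk (M * N) = kk M * kk N := Matrix.map_mul

omit [IsDomain O] [Algebra ℂ O] [Fintype ι] [DecidableEq ι] in
private theorem kk_add (M N : Matrix ι ι O) : kk (M + N) = kk M + kk N :=
  Matrix.map_add _ (map_add _) M N

omit [IsDomain O] [Algebra ℂ O] [Fintype ι] [DecidableEq ι] in
private theorem kk_zero : kk (0 : Matrix ι ι O) = 0 :=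
  Matrix.map_zero _ (map_zero _)

private theorem sp_mem {E : κ → Matrix ι ι O} {C : Matrix ι ι O} (hC : C ∈ AA E) (p : Polynomial O) :
    Polynomial.aeval C p ∈ AA E := by
  have h1 := Polynomial.aeval_algHom_apply (AA E).val (⟨C, hC⟩ : AA E) p
  have h2 : Polynomial.aeval C p = (AA E).val (Polynomial.aeval (⟨C, hC⟩ : AA E) p) := h1
  rw [h2]
  exact (Polynomial.aeval (⟨C, hC⟩ : AA E) p).2

private theorem sp_nil {E : κ → Matrix ι ι O} (hE : ∀ h k, E h * E k = E k * E h)
    (nd : ∀ P ∈ AA E, (∀ Q ∈ AA E, (P * Q).trace = 0) → P = 0) {P : Matrix ι ι O} (hP : P ∈ AA E)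
    (h : P * P = 0) : P = 0 := by
  refine nd P hP fun Q hQ => ?_
  have h1 : (P * Q) * (P * Q) = 0 := by
    have h2 := AA_comm hE hP hQ
    calc P * Q * (P * Q) = P * (Q * P) * Q := by simp only [Matrix.mul_assoc]
      _ = P * (P * Q) * Q := by rw [← h2]
      _ = (P * P) * (Q * Q) := by simp only [Matrix.mul_assoc]
      _ = 0 := by rw [h, Matrix.zero_mul]
  have h3 : IsNilpotent (P * Q) := ⟨2, by rw [pow_two]; exact h1⟩
  exact (Matrix.isNilpotent_trace_of_isNilpotent h3).eq_zero

omit [IsDomain O] [DecidableEq ι] in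
private theorem sp_mul (δ : Derivation ℂ O O) (M N : Matrix ι ι O) :
    (M * N).map δ = M.map δ * N + M * N.map δ := by
  ext i j
  rw [Matrix.map_apply, Matrix.mul_apply, map_sum, Matrix.add_apply, Matrix.mul_apply,
    Matrix.mul_apply, ← Finset.sum_add_distrib]
  refine Finset.sum_congr rfl fun k _ => ?_
  rw [Derivation.leibniz, Matrix.map_apply, Matrix.map_apply, smul_eq_mul, smul_eq_mul]
  ring

omit [IsDomain O] [Fintype ι] [DecidableEq ι] in
private theorem sp_smul (δ : Derivation ℂ O O) (a : O) (N : Matrix ι ι O) :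
    (a • N).map δ = δ a • N + a • N.map δ := by
  ext i j
  rw [Matrix.map_apply, Matrix.smul_apply, Matrix.add_apply, Matrix.smul_apply, Matrix.smul_apply,
    Matrix.map_apply, smul_eq_mul, Derivation.leibniz, smul_eq_mul, smul_eq_mul]
  ring

omit [IsDomain O] in
private theorem sp_pow (δ : Derivation ℂ O O) (C : Matrix ι ι O) (n : ℕ) :
    ∀ Q : Matrix ι ι O, C * Q = Q * C →
      (Q * (C ^ n).map δ).trace = (n : O) * (Q * C ^ (n - 1) * C.map δ).trace := by
  induction n with
  | zero =>
    intro Q _
    have h1 : ((C ^ 0).map δ : Matrix ι ι O) = 0 := by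
      ext i j
      rw [pow_zero, Matrix.map_apply, Matrix.one_apply]
      by_cases h : i = j
      · rw [if_pos h, Derivation.map_one_eq_zero]
        rfl
      · rw [if_neg h, map_zero]
        rfl
    rw [h1, Matrix.mul_zero, Matrix.trace_zero, Nat.cast_zero, zero_mul]
  | succ n ih =>
    intro Q hQ
    have hQ' : C * (C * Q) = C * Q * C := by rw [Matrix.mul_assoc, ← hQ]
    have h1 : (Q * ((C ^ n).map δ * C)).trace = (C * Q * (C ^ n).map δ).trace := by
      rw [← Matrix.mul_assoc, Matrix.trace_mul_comm, Matrix.mul_assoc]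
    have h2 : (n : O) * (C * Q * C ^ (n - 1) * C.map δ).trace = (n : O) * (Q * C ^ n * C.map δ).trace := by
      cases n with
      | zero => rw [Nat.cast_zero, zero_mul, zero_mul]
      | succ m => rw [Nat.add_sub_cancel, hQ, pow_succ', Matrix.mul_assoc Q C]
    rw [pow_succ, sp_mul, Matrix.mul_add, Matrix.trace_add, h1, ih _ hQ', h2, Nat.add_sub_cancel,
      ← Matrix.mul_assoc]
    push_cast
    ring

omit [IsDomain O] in
private theorem sp_poly {E : κ → Matrix ι ι O} (hE : ∀ h k, E h * E k = E k * E h)
    (δ : Derivation ℂ O O) {C : Matrix ι ι O} (hC : C ∈ AA E) (p : Polynomial O) :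
    ∃ q : Polynomial O, ∀ Q ∈ AA E, (Q * (Polynomial.aeval C p).map δ).trace =
      (Q * Polynomial.aeval C q).trace +
        (Q * Polynomial.aeval C (Polynomial.derivative p) * C.map δ).trace := by
  induction p using Polynomial.induction_on' with
  | add p1 p2 h1 h2 =>
    obtain ⟨q1, hq1⟩ := h1
    obtain ⟨q2, hq2⟩ := h2
    refine ⟨q1 + q2, fun Q hQ => ?_⟩
    have e1 := hq1 Q hQ
    have e2 := hq2 Q hQ
    rw [map_add, Matrix.map_add _ (map_add δ), Matrix.mul_add, Matrix.trace_add, e1, e2, map_add, map_add,
      map_add, Matrix.mul_add, Matrix.mul_add, Matrix.trace_add, Matrix.add_mul, Matrix.trace_add]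
    ring
  | monomial n a =>
    refine ⟨Polynomial.monomial n (δ a), fun Q hQ => ?_⟩
    rw [Polynomial.derivative_monomial, Polynomial.aeval_monomial, Polynomial.aeval_monomial,
      Polynomial.aeval_monomial, ← Algebra.smul_def, ← Algebra.smul_def, ← Algebra.smul_def, sp_smul,
      Matrix.mul_add, Matrix.trace_add, Matrix.mul_smul Q a, Matrix.trace_smul, sp_pow δ C n Q (AA_comm hE hC hQ),
      Matrix.mul_smul Q (a * n), Matrix.smul_mul, Matrix.trace_smul, smul_eq_mul, smul_eq_mul]
    ring

theorem separable_of_nd {E : κ → Matrix ι ι O} (hE : ∀ h k, E h * E k = E k * E h) {e : ι}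
    (cyc : IsCyc E e) (nd : ∀ P ∈ AA E, (∀ Q ∈ AA E, (P * Q).trace = 0) → P = 0)
    (D : κ → Derivation ℂ O O) {C : Matrix ι ι O} (hC : C ∈ AA E)
    (euler : ∀ h, ∀ Q ∈ AA E, (Q * C.map (D h)).trace = (Q * E h).trace) :
    (C.charpoly.map (algebraMap O (FractionRing O))).Separable := by
  classical
  have hO : CharZero O := charZero_of_injective_algebraMap (algebraMap ℂ O).injective
  have hF : CharZero (FractionRing O) :=
    charZero_of_injective_algebraMap (IsFractionRing.injective O (FractionRing O))
  have hne : Nonempty ι := ⟨e⟩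
  obtain ⟨m, hm⟩ : ∃ m : Polynomial (FractionRing O), m = minpoly (FractionRing O) (kk C) := ⟨_, rfl⟩
  have hint : IsIntegral (FractionRing O) (kk C) := Matrix.isIntegral _
  have hm0 : Polynomial.aeval (kk C) m = 0 := by
    rw [hm]
    exact minpoly.aeval _ _
  have hmon : m.Monic := by
    rw [hm]
    exact minpoly.monic hint
  have hdvd : ∀ y : Polynomial (FractionRing O), Polynomial.aeval (kk C) y = 0 → m ∣ y := by
    intro y hy
    rw [hm]
    exact minpoly.dvd _ _ hy
  -- no nilpotents
  have hred : ∀ y : Polynomial (FractionRing O), Polynomial.aeval (kk C) (y * y) = 0 →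
      Polynomial.aeval (kk C) y = 0 := by
    intro y hy
    obtain ⟨s, hs, h1⟩ := IsLocalization.integerNormalization_spec (nonZeroDivisors O) y
    obtain ⟨y0, hy0⟩ : ∃ y0, y0 = IsLocalization.integerNormalization (nonZeroDivisors O) y := ⟨_, rfl⟩
    rw [← hy0] at h1
    have h2 : kk (Polynomial.aeval C y0) = algebraMap O (FractionRing O) s • Polynomial.aeval (kk C) y := by
      rw [← kk_aeval, h1, ← map_smul]
      congr 1
      exact (algebraMap_smul (FractionRing O) s y).symm
    have h3 : Polynomial.aeval C y0 * Polynomial.aeval C y0 = 0 := by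
      apply kk_inj
      rw [kk_mul, h2, Matrix.smul_mul, Matrix.mul_smul, ← map_mul, hy, smul_zero, smul_zero, kk_zero]
    have h4 := sp_nil hE nd (sp_mem hC y0) h3
    rw [h4, kk_zero] at h2
    have h5 : algebraMap O (FractionRing O) s ≠ 0 :=
      IsFractionRing.to_map_ne_zero_of_mem_nonZeroDivisors hs
    exact (smul_eq_zero.1 h2.symm).resolve_left h5
  have hsq : Squarefree m := by
    intro x hx
    obtain ⟨r, hr⟩ := hx
    have h1 : Polynomial.aeval (kk C) ((x * r) * (x * r)) = 0 := by
      have h2 : (x * r) * (x * r) = m * r := by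
        rw [hr]
        ring
      rw [h2, map_mul, hm0, zero_mul]
    obtain ⟨z, hz⟩ := hdvd _ (hred _ h1)
    have h3 : x * r ≠ 0 := by
      intro h4
      apply hmon.ne_zero
      rw [hr, mul_assoc, h4, mul_zero]
    have h4 : (x * r) * 1 = (x * r) * (x * z) := by
      rw [mul_one]
      calc x * r = m * z := hz
        _ = x * x * r * z := by rw [← hr]
        _ = x * r * (x * z) := by ring
    exact IsUnit.of_mul_eq_one z (mul_left_cancel₀ h3 h4).symm
  have hsep : m.Separable := PerfectField.separable_iff_squarefree.2 hsq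
  obtain ⟨a, b, hab⟩ := hsep
  have hb1 : Polynomial.aeval (kk C) b * Polynomial.aeval (kk C) (Polynomial.derivative m) = 1 := by
    have h1 := congrArg (Polynomial.aeval (kk C)) hab
    rw [map_add, map_mul, map_mul, hm0, mul_zero, zero_add, map_one] at h1
    exact h1
  -- all matrices of the algebra are polynomials in `C`
  have hEpol : ∀ h, ∃ q : Polynomial (FractionRing O), kk (E h) = Polynomial.aeval (kk C) q := by
    intro h
    obtain ⟨s, hs, h1⟩ := IsLocalization.integerNormalization_spec (nonZeroDivisors O) m
    obtain ⟨p, hp⟩ : ∃ p, p = IsLocalization.integerNormalization (nonZeroDivisors O) m := ⟨_, rfl⟩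
    rw [← hp] at h1
    have h1' : p.map (algebraMap O (FractionRing O)) = algebraMap O (FractionRing O) s • m := by
      rw [h1]
      exact (algebraMap_smul (FractionRing O) s m).symm
    have hs0 : algebraMap O (FractionRing O) s ≠ 0 :=
      IsFractionRing.to_map_ne_zero_of_mem_nonZeroDivisors hs
    have hp0 : Polynomial.aeval C p = 0 := by
      apply kk_inj
      rw [← kk_aeval, h1', map_smul, hm0, smul_zero, kk_zero]
    obtain ⟨q, hq⟩ := sp_poly hE (D h) hC p
    have h2 : Polynomial.aeval C q + Polynomial.aeval C (Polynomial.derivative p) * E h = 0 := by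
      refine nd _ ?_ fun Q hQ => ?_
      · exact add_mem (sp_mem hC q) (mul_mem (sp_mem hC _) (Algebra.subset_adjoin ⟨h, rfl⟩))
      · have h3 := hq Q hQ
        have h4 := euler h _ (mul_mem hQ (sp_mem hC (Polynomial.derivative p)))
        have h5 : ((0 : Matrix ι ι O).map (D h) : Matrix ι ι O) = 0 := Matrix.map_zero _ (map_zero _)
        rw [hp0, h5, Matrix.mul_zero, Matrix.trace_zero, h4] at h3
        rw [Matrix.trace_mul_comm, Matrix.mul_add, Matrix.trace_add, h3, ← Matrix.mul_assoc]
    have h3 : Polynomial.aeval (kk C) (q.map (algebraMap O (FractionRing O))) +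
        algebraMap O (FractionRing O) s •
          (Polynomial.aeval (kk C) (Polynomial.derivative m) * kk (E h)) = 0 := by
      have h4 := congrArg kk h2
      rw [kk_add, kk_mul, ← kk_aeval, ← kk_aeval, kk_zero, ← Polynomial.derivative_map, h1',
        Polynomial.derivative_smul, map_smul, Matrix.smul_mul] at h4
      exact h4
    refine ⟨b * (-(algebraMap O (FractionRing O) s)⁻¹ • q.map (algebraMap O (FractionRing O))), ?_⟩
    have h4 : Polynomial.aeval (kk C) (Polynomial.derivative m) * kk (E h) =
        -(algebraMap O (FractionRing O) s)⁻¹ •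
          Polynomial.aeval (kk C) (q.map (algebraMap O (FractionRing O))) := by
      have h5 := congrArg (fun X => (algebraMap O (FractionRing O) s)⁻¹ • X) (eq_neg_of_add_eq_zero_right h3)
      simp only [smul_smul, inv_mul_cancel₀ hs0, one_smul] at h5
      rw [h5, smul_neg, neg_smul]
    rw [map_mul, map_smul, ← h4, ← mul_assoc, hb1, one_mul]
  have hpol : ∀ P ∈ AA E, ∃ q : Polynomial (FractionRing O), kk P = Polynomial.aeval (kk C) q := by
    intro P hP
    unfold AA at hP
    induction hP using Algebra.adjoin_induction with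
    | mem x hx =>
      obtain ⟨h, rfl⟩ := hx
      exact hEpol h
    | algebraMap x =>
      refine ⟨Polynomial.C (algebraMap O (FractionRing O) x), ?_⟩
      rw [Polynomial.aeval_C]
      have h1 := kk_aeval C (Polynomial.C x)
      rw [Polynomial.map_C, Polynomial.aeval_C, Polynomial.aeval_C] at h1
      exact h1.symm
    | add x y _ _ hx hy =>
      obtain ⟨q1, h1⟩ := hx
      obtain ⟨q2, h2⟩ := hy
      exact ⟨q1 + q2, by rw [kk_add, h1, h2, map_add]⟩
    | mul x y _ _ hx hy =>
      obtain ⟨q1, h1⟩ := hx
      obtain ⟨q2, h2⟩ := hy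
      exact ⟨q1 * q2, by rw [kk_mul, h1, h2, map_mul]⟩
  -- the degree
  have hcard : Fintype.card ι ≤ m.natDegree := by
    have hex : ∀ j : ι, ∃ q : Polynomial (FractionRing O), ∀ w,
        Polynomial.aeval (kk C) q w e = if w = j then 1 else 0 := by
      intro j
      obtain ⟨P, hP, h1⟩ := cyc (Pi.single j 1)
      obtain ⟨q, hq⟩ := hpol P hP
      refine ⟨q, fun w => ?_⟩
      rw [← hq]
      show algebraMap O (FractionRing O) (P w e) = _
      rw [h1, Pi.single_apply]
      by_cases h2 : w = j
      · rw [if_pos h2, if_pos h2, map_one]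
      · rw [if_neg h2, if_neg h2, map_zero]
    choose q hq using hex
    have hsurj : Function.Surjective (Fintype.linearCombination (FractionRing O)
        (fun (i : Fin m.natDegree) (w : ι) => (kk C ^ (i : ℕ)) w e)) := by
      intro x
      obtain ⟨Q, hQ⟩ : ∃ Q : Polynomial (FractionRing O), Q = ∑ j, x j • q j := ⟨_, rfl⟩
      have h1 : ∀ w, Polynomial.aeval (kk C) Q w e = x w := by
        intro w
        rw [hQ, map_sum, Matrix.sum_apply, Finset.sum_eq_single w]
        · rw [map_smul, Matrix.smul_apply, hq, if_pos rfl, smul_eq_mul, mul_one]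
        · intro j _ hj
          rw [map_smul, Matrix.smul_apply, hq, if_neg hj.symm, smul_zero]
        · intro h2
          exact absurd (Finset.mem_univ w) h2
      have hne1 : m ≠ 1 := by
        rw [hm]
        exact minpoly.ne_one _ _
      have h2 : (Q %ₘ m).natDegree < m.natDegree := Polynomial.natDegree_modByMonic_lt Q hmon hne1
      have h3 : Polynomial.aeval (kk C) (Q %ₘ m) = Polynomial.aeval (kk C) Q :=
        Polynomial.aeval_modByMonic_eq_self_of_root hm0
      refine ⟨fun i => (Q %ₘ m).coeff i, ?_⟩
      funext w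
      rw [← h1 w, ← h3, Polynomial.aeval_eq_sum_range' h2, Finset.sum_range,
        Fintype.linearCombination_apply, Finset.sum_apply, Matrix.sum_apply]
      rfl
    have h1 := LinearMap.finrank_le_finrank_of_surjective hsurj
    rw [Module.finrank_fintype_fun_eq_card, Module.finrank_fin_fun] at h1
    exact h1
  have hchar : C.charpoly.map (algebraMap O (FractionRing O)) = m := by
    rw [← Matrix.charpoly_map]
    refine Polynomial.eq_of_monic_of_dvd_of_natDegree_le hmon (Matrix.charpoly_monic _)
      (hdvd _ (Matrix.aeval_self_charpoly _)) ?_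
    rw [Matrix.charpoly_natDegree_eq_dim]
    exact hcard
  rw [hchar]
  exact ⟨a, b, hab⟩

theorem exists_dvd {f : Polynomial O}
    (h : (f.map (algebraMap O (FractionRing O))).Separable) :
    ∃ d : O, d ≠ 0 ∧ ∃ u v : Polynomial O,
      u * f + v * Polynomial.derivative f = Polynomial.C d := by
  obtain ⟨a, b, hab⟩ := h
  obtain ⟨s, hs, h1⟩ := IsLocalization.integerNormalization_spec (nonZeroDivisors O) a
  obtain ⟨t, ht, h2⟩ := IsLocalization.integerNormalization_spec (nonZeroDivisors O) b
  have h1' : (IsLocalization.integerNormalization (nonZeroDivisors O) a).map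
      (algebraMap O (FractionRing O)) = Polynomial.C (algebraMap O (FractionRing O) s) * a := by
    rw [h1, ← Polynomial.smul_eq_C_mul]
    exact (algebraMap_smul (FractionRing O) s a).symm
  have h2' : (IsLocalization.integerNormalization (nonZeroDivisors O) b).map
      (algebraMap O (FractionRing O)) = Polynomial.C (algebraMap O (FractionRing O) t) * b := by
    rw [h2, ← Polynomial.smul_eq_C_mul]
    exact (algebraMap_smul (FractionRing O) t b).symm
  refine ⟨s * t, mul_ne_zero (nonZeroDivisors.ne_zero hs) (nonZeroDivisors.ne_zero ht),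
    Polynomial.C t * IsLocalization.integerNormalization (nonZeroDivisors O) a,
    Polynomial.C s * IsLocalization.integerNormalization (nonZeroDivisors O) b, ?_⟩
  apply Polynomial.map_injective _ (IsFractionRing.injective O (FractionRing O))
  rw [Polynomial.map_add, Polynomial.map_mul, Polynomial.map_mul, Polynomial.map_mul, Polynomial.map_mul,
    h1', h2', Polynomial.map_C, Polynomial.map_C, Polynomial.map_C, ← Polynomial.derivative_map, map_mul,
    Polynomial.C_mul]
  linear_combination (Polynomial.C (algebraMap O (FractionRing O) s) *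
    Polynomial.C (algebraMap O (FractionRing O) t)) * hab

end Pool.Agent.FLG.G
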