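import Pool.Agent.FLG.G.TElem
import Pool.Agent.FLG.GenP

/-!
# FLG-GTGen: the intertwiner of a translation, at `z = 0`

PLAN. `tgood_mul`: `M'' y z t = M y z t * N (yt w⁻¹ (y + z ν)) z t`, `M''' = N' (…) * M'`; differentiability in `t` of the entries from `Rep` (with `y₁ = 0`, `b = 0`) and `ev_diff`; the argument
of `N` is affine along lines. `tgood_all`: `generation`. `exists_S`: `S` from `Rep` with `y₀ = 0`, `y₁ = ν`, `a = b = 0` (and `S'` likewise; `S * S' = 1` by `ext_ev`). For fixed `s`: `P` from `Rep` with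
`y₀ = s ν`, `y₁ = 0`, `a = 0`, `b = 1`, so `M (sν) z t = ∑ n, P_n(t) z^n`, `S(s, t) = P_0(t)`; the equation `z ∂_h M = Cq h t (sν) M - M Cq h t (sν + z ν)`,
`Cq h t (sν + zν) = Cq h t (sν) - z diag (hv h u ν)`, is an identity of polynomials in `z` (for fixed `t`); compare the coefficients of `z^0` and `z^1`, `S1 = P_1(t)`.
-/

set_option autoImplicit false

open scoped BigOperators
open Pool.Agent.DST.TE

namespace Pool.Agent.FLG.RS

open Pool.Agent.FLG.G

variable {r : ℕ} {D : RS r}

private theorem yt_line (w : D.W) (y₀ y₁ : Fin r → ℂ) (x : ℂ) :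
    D.yt w (fun i => y₀ i + x * y₁ i) = fun i => D.yt w y₀ i + x * D.yt w y₁ i := by
  have h1 : (fun i => y₀ i + x * y₁ i) = y₀ + x • y₁ := by
    funext i
    simp
  rw [h1, D.yt_add, D.yt_smul]
  funext i
  simp

private theorem rep_diff {M : (Fin r → ℂ) → ℂ → (Fin r → ℂ) → Matrix D.W D.W ℂ} (hM : D.Rep M)
    (y : Fin r → ℂ) (z : ℂ) (u v : D.W) : Differentiable ℂ fun t => M y z t u v := by
  obtain ⟨P, hP⟩ := hM y 0 z 0
  have h1 : (fun t => M y z t u v) = fun t => ev 0 t (P u v) := by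
    funext t
    have h2 := hP 0 t
    have h3 : (fun i => y i + 0 * (0 : Fin r → ℂ) i) = y := by
      funext i
      simp
    rw [h3, mul_zero, add_zero] at h2
    rw [h2]
    rfl
  rw [h1]
  exact ev_diff 0 _

private theorem rep_mul {w : D.W} {ν : Fin r → ℤ}
    {M N : (Fin r → ℂ) → ℂ → (Fin r → ℂ) → Matrix D.W D.W ℂ} (hM : D.Rep M) (hN : D.Rep N) :
    D.Rep (fun y z t => M y z t * N (D.yt w fun i => y i + z * (ν i : ℂ)) z t) ∧
    D.Rep (fun y z t => N (D.yt w fun i => y i + z * (ν i : ℂ)) z t * M y z t) := by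
  have key : ∀ (y₀ y₁ : Fin r → ℂ) (a b : ℂ), ∃ P Q : Matrix D.W D.W (Polynomial (OO r)),
      ∀ (x : ℂ) (t : Fin r → ℂ), M (fun i => y₀ i + x * y₁ i) (a + x * b) t = P.map (ev x t) ∧
        N (D.yt w fun i => (y₀ i + x * y₁ i) + (a + x * b) * (ν i : ℂ)) (a + x * b) t =
          Q.map (ev x t) := by
    intro y₀ y₁ a b
    obtain ⟨P, hP⟩ := hM y₀ y₁ a b
    obtain ⟨Q, hQ⟩ := hN (D.yt w fun i => y₀ i + a * (ν i : ℂ))
      (D.yt w fun i => y₁ i + b * (ν i : ℂ)) a b
    refine ⟨P, Q, fun x t => ⟨hP x t, ?_⟩⟩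
    rw [← hQ x t, ← yt_line]
    congr 2
    funext i
    ring
  constructor
  · intro y₀ y₁ a b
    obtain ⟨P, Q, h⟩ := key y₀ y₁ a b
    refine ⟨P * Q, fun x t => ?_⟩
    rw [Matrix.map_mul, ← (h x t).1, ← (h x t).2]
  · intro y₀ y₁ a b
    obtain ⟨P, Q, h⟩ := key y₀ y₁ a b
    refine ⟨Q * P, fun x t => ?_⟩
    rw [Matrix.map_mul, ← (h x t).1, ← (h x t).2]

theorem tgood_mul (w : D.W) (ν : Fin r → ℤ) (u : D.W) (μ : Fin r → ℤ) (h : D.TGood w ν)
    (h' : D.TGood u μ) : D.TGood (w * u) (ν + D.yt w μ) := by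
  obtain ⟨M, M', hM, hM', hi, hT⟩ := h
  obtain ⟨N, N', hN, hN', hi', hT'⟩ := h'
  refine ⟨_, _, (rep_mul (w := w⁻¹) (ν := ν) hM hN).1, (rep_mul (w := w⁻¹) (ν := ν) hM' hN').2,
    fun y z t => ?_, ?_⟩
  · rw [Matrix.mul_assoc, ← Matrix.mul_assoc (N _ z t), hi', Matrix.one_mul, hi]
  · intro y z t h a b
    set y' : Fin r → ℂ := D.yt w⁻¹ fun i => y i + z * (ν i : ℂ) with hy'
    have h1 : D.yt (w * u)⁻¹ (fun i => y i + z * ((ν + D.yt w μ) i : ℂ)) =
        D.yt u⁻¹ fun i => y' i + z * (μ i : ℂ) := by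
      rw [mul_inv_rev, D.yt_mul]
      congr 1
      have h2 : (fun i => y i + z * (((ν + D.yt w μ) i : ℤ) : ℂ)) =
          fun i => (fun i => y i + z * (ν i : ℂ)) i + z * D.yt w (cc μ) i := by
        funext i
        rw [D.yt_cc]
        simp only [Pi.add_apply, cc]
        push_cast
        ring
      rw [h2, yt_line, D.yt_inv_yt]
      rfl
    rw [h1]
    have hd1 : ∀ k, DifferentiableAt ℂ (fun t => M y z t a k) t := fun k =>
      (rep_diff hM y z a k) t
    have hd2 : ∀ k, DifferentiableAt ℂ (fun t => N y' z t k b) t := fun k =>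
      (rep_diff hN y' z k b) t
    have h3 : (fun t => (M y z t * N y' z t) a b) = fun t => ∑ k, M y z t a k * N y' z t k b := by
      funext t
      rw [Matrix.mul_apply]
    have h4 : fderiv ℂ (fun t => (M y z t * N y' z t) a b) t h =
        ∑ k, (M y z t a k * fderiv ℂ (fun t => N y' z t k b) t h +
          N y' z t k b * fderiv ℂ (fun t => M y z t a k) t h) := by
      rw [h3, fderiv_fun_sum fun k _ => (hd1 k).fun_mul (hd2 k)]
      rw [ContinuousLinearMap.sum_apply]
      refine Finset.sum_congr rfl fun k _ => ?_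
      rw [fderiv_fun_mul (hd1 k) (hd2 k)]
      simp
    show z * fderiv ℂ (fun t => (M y z t * N y' z t) a b) t h = _
    rw [h4, Finset.mul_sum]
    have h5 : ∀ k, z * (M y z t a k * fderiv ℂ (fun t => N y' z t k b) t h +
        N y' z t k b * fderiv ℂ (fun t => M y z t a k) t h) =
        M y z t a k * ((D.Cq h t y' * N y' z t - N y' z t * D.Cq h t
          (D.yt u⁻¹ fun i => y' i + z * (μ i : ℂ))) k b) +
        ((D.Cq h t y * M y z t - M y z t * D.Cq h t y') a k) * N y' z t k b := by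
      intro k
      rw [← hT' y' z t h k b, hy', ← hT y z t h a k]
      ring
    rw [Finset.sum_congr rfl fun k _ => h5 k, Finset.sum_add_distrib, ← Matrix.mul_apply,
      ← Matrix.mul_apply, ← Matrix.add_apply]
    have h6 : M y z t * (D.Cq h t y' * N y' z t - N y' z t * D.Cq h t
          (D.yt u⁻¹ fun i => y' i + z * (μ i : ℂ))) +
        (D.Cq h t y * M y z t - M y z t * D.Cq h t y') * N y' z t =
        D.Cq h t y * (M y z t * N y' z t) - M y z t * N y' z t * D.Cq h t
          (D.yt u⁻¹ fun i => y' i + z * (μ i : ℂ)) := by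
      rw [Matrix.mul_sub, Matrix.sub_mul]
      simp only [Matrix.mul_assoc]
      abel
    rw [h6]

theorem tgood_all (D : RS r) (ν : Fin r → ℤ) : D.TGood 1 ν :=
  generation (fun w ν => D.TGood w ν) tgood_one tgood_mul tgood_s (fun _ => tgood_th)
    (fun _ _ => tgood_tau) ν

private theorem ev_eq (s : ℂ) (t : Fin r → ℂ) (p : Polynomial (OO r)) :
    ev s t p = (p.map (evO t)).eval s := by
  rw [Polynomial.eval_map]
  rfl

private theorem hv_shift (h : Fin r → ℂ) (u : D.W) (y : Fin r → ℂ) (x : ℂ) (ν : Fin r → ℤ) :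
    D.hv h u (fun i => y i + x * (ν i : ℂ)) = D.hv h u y + x * D.hv h u (cc ν) := by
  unfold hv
  have h1 : D.yt u⁻¹ (fun i => y i + x * (ν i : ℂ)) =
      fun i => D.yt u⁻¹ y i + x * D.yt u⁻¹ (cc ν) i := yt_line u⁻¹ y (cc ν) x
  rw [h1, Finset.mul_sum, ← Finset.sum_add_distrib]
  exact Finset.sum_congr rfl fun j _ => by ring

private theorem Cq_shift (h t : Fin r → ℂ) (y : Fin r → ℂ) (x : ℂ) (ν : Fin r → ℤ) :
    D.Cq h t (fun i => y i + x * (ν i : ℂ)) =
      D.Cq h t y - x • Matrix.diagonal fun u => D.hv h u (cc ν) := by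
  unfold Cq
  have h1 : (Matrix.diagonal fun u => D.hv h u (fun i => y i + x * (ν i : ℂ))) =
      (Matrix.diagonal fun u => D.hv h u y) + x • Matrix.diagonal fun u => D.hv h u (cc ν) := by
    ext u v
    rw [Matrix.add_apply, Matrix.smul_apply, Matrix.diagonal_apply, Matrix.diagonal_apply,
      Matrix.diagonal_apply]
    by_cases huv : u = v
    · rw [if_pos huv, if_pos huv, if_pos huv, hv_shift, smul_eq_mul]
    · rw [if_neg huv, if_neg huv, if_neg huv, smul_zero, add_zero]
  rw [h1]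
  abel

theorem exists_S (D : RS r) (ν : Fin r → ℤ) : ∃ S S' : Matrix D.W D.W (Polynomial (OO r)),
    S * S' = 1 ∧ ∀ (s : ℂ) (t : Fin r → ℂ), ∃ S1 : Matrix D.W D.W ℂ, ∀ h : Fin r → ℂ,
      D.Cq h t (fun i => s * (ν i : ℂ)) * S.map (ev s t) =
        S.map (ev s t) * D.Cq h t (fun i => s * (ν i : ℂ)) ∧
      (S.map (PD (dO h))).map (ev s t) =
        D.Cq h t (fun i => s * (ν i : ℂ)) * S1 - S1 * D.Cq h t (fun i => s * (ν i : ℂ)) +
          S.map (ev s t) * Matrix.diagonal fun u => D.hv h u (cc ν) := by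
  obtain ⟨M, M', hM, hM', hi, hT⟩ := tgood_all D ν
  obtain ⟨S, hS⟩ := hM 0 (cc ν) 0 0
  obtain ⟨S', hS'⟩ := hM' 0 (cc ν) 0 0
  have hpt : ∀ s : ℂ, (fun i => (0 : Fin r → ℂ) i + s * cc ν i) = fun i => s * (ν i : ℂ) := by
    intro s
    funext i
    simp [cc]
  have hS2 : ∀ (s : ℂ) (t : Fin r → ℂ), S.map (ev s t) = M (fun i => s * (ν i : ℂ)) 0 t := by
    intro s t
    rw [← hS s t, hpt, mul_zero, add_zero]
  refine ⟨S, S', ?_, ?_⟩
  · refine Matrix.ext fun u v => ext_ev fun s t => ?_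
    have h1 : (S * S').map (ev s t) = 1 := by
      rw [Matrix.map_mul, ← hS s t, ← hS' s t, hi]
    have h2 := congrFun (congrFun h1 u) v
    rw [Matrix.map_apply] at h2
    rw [h2, Matrix.one_apply, Matrix.one_apply]
    split_ifs
    · rw [map_one]
    · rw [map_zero]
  · intro s t
    set y : Fin r → ℂ := fun i => s * (ν i : ℂ) with hy
    obtain ⟨Q, hQ⟩ := hM y 0 0 1
    have hQ2 : ∀ (x : ℂ) (t : Fin r → ℂ), Q.map (ev x t) = M y x t := by
      intro x t
      rw [← hQ x t]
      have h1 : (fun i => y i + x * (0 : Fin r → ℂ) i) = y := by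
        funext i
        simp
      rw [h1, zero_add, mul_one]
    refine ⟨Matrix.of fun u v => ((Q u v).map (evO t)).coeff 1, fun h => ?_⟩
    -- the equation as an identity of polynomials
    have hpoly : ∀ u v, Polynomial.X * (PD (dO h) (Q u v)).map (evO t) =
        ∑ k, Polynomial.C (D.Cq h t y u k) * (Q k v).map (evO t) -
          ∑ k, (Q u k).map (evO t) * Polynomial.C (D.Cq h t y k v) +
          Polynomial.X * (Polynomial.C (D.hv h v (cc ν)) * (Q u v).map (evO t)) := by
      intro u v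
      refine Polynomial.funext fun x => ?_
      have h1 := hT y x t h u v
      have h2 : (fun t => M y x t u v) = fun t => ev x t (Q u v) := by
        funext t
        rw [← hQ2 x t]
        rfl
      have h3 : D.yt 1⁻¹ (fun i => y i + x * (ν i : ℂ)) = fun i => y i + x * (ν i : ℂ) := by
        rw [inv_one, D.yt_one]
      rw [h2, ← ev_PD, h3, Cq_shift, Matrix.mul_sub, Matrix.sub_apply, Matrix.sub_apply,
        Matrix.mul_apply, Matrix.mul_apply, Matrix.mul_smul, Matrix.smul_apply,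
        Matrix.mul_diagonal] at h1
      rw [Polynomial.eval_mul, Polynomial.eval_X, ← ev_eq, h1, Polynomial.eval_add,
        Polynomial.eval_sub, Polynomial.eval_finsetSum, Polynomial.eval_finsetSum,
        Polynomial.eval_mul, Polynomial.eval_X, Polynomial.eval_mul, Polynomial.eval_C, ← ev_eq]
      have h4 : ∀ u v, M y x t u v = ev x t (Q u v) := by
        intro u v
        rw [← hQ2 x t]
        rfl
      simp only [h4, Polynomial.eval_mul, Polynomial.eval_C, ← ev_eq, smul_eq_mul]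
      ring
    have h0 : ∀ u v, ((Q u v).map (evO t)).coeff 0 = M y 0 t u v := by
      intro u v
      rw [Polynomial.coeff_zero_eq_eval_zero, ← ev_eq, ← hQ2 0 t]
      rfl
    constructor
    · rw [hS2]
      ext u v
      have h1 := congrArg (fun p => Polynomial.coeff p 0) (hpoly u v)
      simp only [Polynomial.coeff_add, Polynomial.coeff_sub, Polynomial.finsetSum_coeff,
        Polynomial.coeff_X_mul_zero, Polynomial.coeff_C_mul, Polynomial.coeff_mul_C, h0,
        add_zero] at h1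
      rw [Matrix.mul_apply, Matrix.mul_apply]
      exact (sub_eq_zero.1 h1.symm)
    · ext u v
      have h1 := congrArg (fun p => Polynomial.coeff p 1) (hpoly u v)
      have hX : ∀ p : Polynomial ℂ, (Polynomial.X * p).coeff 1 = p.coeff 0 := fun p =>
        Polynomial.coeff_X_mul p 0
      simp only [Polynomial.coeff_add, Polynomial.coeff_sub, Polynomial.finsetSum_coeff,
        hX, Polynomial.coeff_C_mul, Polynomial.coeff_mul_C] at h1
      have h2 : ((S.map (PD (dO h))).map (ev s t)) u v = ev s t (PD (dO h) (S u v)) := rfl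
      have h3 : (fun t => ev s t (S u v)) = fun t => ev 0 t (Q u v) := by
        funext t'
        have h4 := congrFun (congrFun (hS2 s t') u) v
        have h5 := congrFun (congrFun (hQ2 0 t') u) v
        rw [Matrix.map_apply] at h4 h5
        rw [h4, h5]
      rw [h2, ev_PD, h3, ← ev_PD, ev_eq, ← Polynomial.coeff_zero_eq_eval_zero]
      rw [Matrix.add_apply, Matrix.sub_apply, Matrix.mul_apply, Matrix.mul_apply,
        Matrix.mul_diagonal, hS2, ← h0, h1]
      simp only [Matrix.of_apply]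
      ring

end Pool.Agent.FLG.RS
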