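import Pool.Agent.FLG.G.Mat
import Pool.Agent.FLG.G.TGen
import Pool.Agent.FLG.G.Red
import Pool.Agent.FLG.G.Sep

/-!
# FLG-GMain: generically the eigenvalues of `c_1` are pairwise distinct

PLAN. `ν` from `exists_reg`, `S, S'` from `exists_S`, mapped to power series; both are in `AA (ES ν)` (`IsCyc.mem`). `rel`: `tr(Q S.map(D_h)) = tr(Q S diag(hv h u ν))`: the difference is `tr(Q [Cq, S1])`, zero at every
`(s, t)` — for `Q` in the algebra generated by `ES ν` over power series one needs the statement coefficientwise: it is enough to have it for `Q` in the algebra over polynomials, and both sides are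
linear over power series in `Q` (`AA (ES ν)` is spanned by the products of the `ES ν j` over power series). `ES.map L = -diag` by `EP_deriv`. `exists_der`, `nd_zero`, `ES_zero`, then `separable_of_nd`, `exists_dvd`; evaluation at `t` with `d t ≠ 0` gives
coprimality of the characteristic polynomial of `E (ch ctr) t` and its derivative. `dense`: a nonzero entire function does not vanish on a nonempty open set
(`AnalyticOnNhd.eqOn_zero_of_preconnected_of_eventuallyEq_zero`).
-/

set_option autoImplicit false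

open scoped BigOperators
open Pool.Agent.DST.TE

namespace Pool.Agent.FLG.RS

open Pool.Agent.FLG.G

variable {r : ℕ}

private theorem gm_tr {R R' ι : Type*} [CommRing R] [CommRing R'] [Fintype ι] (φ : R →+* R')
    (M : Matrix ι ι R) : φ M.trace = (M.map φ).trace := by
  unfold Matrix.trace
  rw [map_sum]
  rfl

private theorem gm_trE {D : RS r} (s : ℂ) (t : Fin r → ℂ) (M : Matrix D.W D.W (Polynomial (OO r))) :
    ev s t M.trace = (M.map (ev s t)).trace := gm_tr (ev s t) M

private theorem gm_trC {D : RS r} (M : Matrix D.W D.W (Polynomial (OO r))) :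
    Polynomial.coeToPowerSeries.ringHom M.trace =
      (M.map Polynomial.coeToPowerSeries.ringHom).trace :=
  gm_tr Polynomial.coeToPowerSeries.ringHom M

private theorem gm_coe (D : RS r) (M : Matrix D.W D.W (Polynomial (OO r))) (h : Fin r → ℂ) :
    (M.map Polynomial.coeToPowerSeries.ringHom).map (SD (dO h)) =
      (M.map (PD (dO h))).map Polynomial.coeToPowerSeries.ringHom := by
  ext1 u w
  exact (coe_PD (dO h) (M u w)).symm

private theorem gm_LX (D : RS r) (ν : Fin r → ℤ) (j : Fin r) :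
    (D.ES ν j).map (LX (OO r)) =
      ((D.EP ν (Pi.single j 1)).map Polynomial.derivative).map
        Polynomial.coeToPowerSeries.ringHom := by
  ext1 u w
  exact PowerSeries.derivative_coe (D.EP ν (Pi.single j 1) u w)

private theorem gm_deriv {D : RS r} (ν : Fin r → ℤ) (h : Fin r → ℂ) (s : ℂ) (t : Fin r → ℂ) :
    ((D.EP ν h).map Polynomial.derivative).map (ev s t) =
      -Matrix.diagonal fun u => D.hv h u (cc ν) := by
  rw [EP_deriv]
  ext u w
  rw [Matrix.map_apply, Matrix.neg_apply, Matrix.neg_apply]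
  have e0 : ∀ x : Polynomial (OO r), ev s t (-x) = -ev s t x := fun x => map_neg _ x
  rw [e0]
  congr 1
  by_cases huw : u = w
  · subst huw
    rw [Matrix.diagonal_apply_eq, Matrix.diagonal_apply_eq]
    unfold ev
    rw [Polynomial.coe_eval₂RingHom, Polynomial.eval₂_C]
    rfl
  · rw [Matrix.diagonal_apply_ne _ huw, Matrix.diagonal_apply_ne _ huw, map_zero]

private theorem gm_rel {D : RS r} {ν : Fin r → ℤ} {S : Matrix D.W D.W (Polynomial (OO r))}
    (h : ∀ (s : ℂ) (t : Fin r → ℂ), ∃ S1 : Matrix D.W D.W ℂ, ∀ h : Fin r → ℂ,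
      D.Cq h t (fun i => s * (ν i : ℂ)) * S.map (ev s t) =
        S.map (ev s t) * D.Cq h t (fun i => s * (ν i : ℂ)) ∧
      (S.map (PD (dO h))).map (ev s t) =
        D.Cq h t (fun i => s * (ν i : ℂ)) * S1 - S1 * D.Cq h t (fun i => s * (ν i : ℂ)) +
          S.map (ev s t) * Matrix.diagonal fun u => D.hv h u (cc ν)) (j : Fin r)
    {Q : Matrix D.W D.W (Polynomial (OO r))}
    (hQ : ∀ k, Q * D.EP ν (Pi.single k 1) = D.EP ν (Pi.single k 1) * Q) :
    (Q * S.map (PD (dO (Pi.single j 1)))).trace =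
      -(Q * S * (D.EP ν (Pi.single j 1)).map Polynomial.derivative).trace := by
  apply ext_ev
  intro s t
  obtain ⟨S1, hS1⟩ := h s t
  obtain ⟨-, h2⟩ := hS1 (Pi.single j 1)
  have q := congrArg (fun M => M.map (ev s t)) (hQ j)
  beta_reduce at q
  rw [Matrix.map_mul, Matrix.map_mul, ev_EP] at q
  have e0 : ∀ x : Polynomial (OO r), ev s t (-x) = -ev s t x := fun x => map_neg _ x
  rw [e0, gm_trE, gm_trE, Matrix.map_mul, Matrix.map_mul, Matrix.map_mul, gm_deriv, h2]
  generalize Q.map (ev s t) = Q' at q ⊢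
  generalize S.map (ev s t) = S' at h2 ⊢
  generalize D.Cq (Pi.single j 1) t (fun i => s * (ν i : ℂ)) = C at q h2 ⊢
  have e1 : (Q' * (C * S1)).trace = (Q' * (S1 * C)).trace := by
    rw [← mul_assoc, q, ← mul_assoc, Matrix.trace_mul_comm (Q' * S1) C, mul_assoc]
  rw [mul_add, mul_sub, Matrix.trace_add, Matrix.trace_sub, e1, sub_self, zero_add,
    mul_neg, Matrix.trace_neg, neg_neg, mul_assoc]

private theorem gm_lift {D : RS r} {ν : Fin r → ℤ} {Q : Matrix D.W D.W (PowerSeries (OO r))}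
    (hQ : Q ∈ Submonoid.closure (Set.range (D.ES ν))) :
    ∃ Q' : Matrix D.W D.W (Polynomial (OO r)),
      (∀ k, Q' * D.EP ν (Pi.single k 1) = D.EP ν (Pi.single k 1) * Q') ∧
        Q = Q'.map Polynomial.coeToPowerSeries.ringHom := by
  induction hQ using Submonoid.closure_induction with
  | mem Q hQ =>
    obtain ⟨j, rfl⟩ := hQ
    exact ⟨D.EP ν (Pi.single j 1), fun k => EP_comm ν _ _, rfl⟩
  | one =>
    refine ⟨1, fun k => by rw [one_mul, mul_one], ?_⟩
    rw [Matrix.map_one _ (map_zero _) (map_one _)]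
  | mul x y _ _ hx hy =>
    obtain ⟨x', hx1, hx2⟩ := hx
    obtain ⟨y', hy1, hy2⟩ := hy
    refine ⟨x' * y', fun k => ?_, ?_⟩
    · rw [mul_assoc, hy1, ← mul_assoc, hx1, mul_assoc]
    · rw [hx2, hy2, Matrix.map_mul]

private theorem gm_dense {d : OO r} (hd : d ≠ 0) : Dense {t : Fin r → ℂ | d.1 t ≠ 0} := by
  rw [dense_iff_inter_open]
  intro U hU hne
  by_contra h
  obtain ⟨z, hz⟩ := hne
  apply hd
  apply OO.ext_fun
  have h1 : d.1 =ᶠ[nhds z] 0 := by
    filter_upwards [hU.mem_nhds hz] with t ht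
    by_contra h2
    exact h ⟨t, ht, h2⟩
  have h0 : AnalyticOnNhd ℂ d.1 Set.univ := d.2
  have h2 := h0.eqOn_zero_of_preconnected_of_eventuallyEq_zero isPreconnected_univ
    (Set.mem_univ z) h1
  intro t
  exact h2 (Set.mem_univ t)

theorem rel_S {D : RS r} {ν : Fin r → ℤ} {S : Matrix D.W D.W (Polynomial (OO r))}
    (h : ∀ (s : ℂ) (t : Fin r → ℂ), ∃ S1 : Matrix D.W D.W ℂ, ∀ h : Fin r → ℂ,
      D.Cq h t (fun i => s * (ν i : ℂ)) * S.map (ev s t) =
        S.map (ev s t) * D.Cq h t (fun i => s * (ν i : ℂ)) ∧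
      (S.map (PD (dO h))).map (ev s t) =
        D.Cq h t (fun i => s * (ν i : ℂ)) * S1 - S1 * D.Cq h t (fun i => s * (ν i : ℂ)) +
          S.map (ev s t) * Matrix.diagonal fun u => D.hv h u (cc ν)) (j : Fin r)
    (Q : Matrix D.W D.W (PowerSeries (OO r))) (hQ : Q ∈ AA (D.ES ν)) :
    (Q * (S.map Polynomial.coeToPowerSeries.ringHom).map (SD (dO (Pi.single j 1)))).trace =
      -(Q * S.map Polynomial.coeToPowerSeries.ringHom * (D.ES ν j).map (LX (OO r))).trace := by
  unfold AA at hQ
  rw [← Subalgebra.mem_toSubmodule, Algebra.adjoin_eq_span] at hQ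
  induction hQ using Submodule.span_induction with
  | mem Q hQ =>
    obtain ⟨Q', h1, h2⟩ := gm_lift hQ
    have h3 := congrArg (Polynomial.coeToPowerSeries.ringHom (R := OO r)) (gm_rel h j h1)
    have e0 : ∀ x : Polynomial (OO r), Polynomial.coeToPowerSeries.ringHom (-x) =
        -Polynomial.coeToPowerSeries.ringHom x := fun x => map_neg _ x
    rw [e0, gm_trC, gm_trC, Matrix.map_mul, Matrix.map_mul, Matrix.map_mul] at h3
    rw [gm_coe, gm_LX, h2]
    exact h3
  | zero =>
    rw [zero_mul, zero_mul, zero_mul, Matrix.trace_zero, neg_zero]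
  | add x y _ _ hx hy =>
    rw [add_mul, add_mul, add_mul, Matrix.trace_add, Matrix.trace_add, hx, hy, neg_add]
  | smul a x _ hx =>
    rw [smul_mul_assoc, smul_mul_assoc, smul_mul_assoc, Matrix.trace_smul, Matrix.trace_smul, hx,
      smul_neg]

theorem exists_sep (D : RS r) : ∃ d : OO r, d ≠ 0 ∧
    ∀ t, d.1 t ≠ 0 → (D.E (D.ch D.ctr) t).charpoly.Separable := by
  obtain ⟨ν, hν⟩ := exists_reg D
  obtain ⟨S, S', hSS, hS⟩ := exists_S D ν
  obtain ⟨T, hT⟩ : ∃ T : Matrix D.W D.W (PowerSeries (OO r)),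
    T = S.map Polynomial.coeToPowerSeries.ringHom := ⟨_, rfl⟩
  obtain ⟨T', hT'⟩ : ∃ T' : Matrix D.W D.W (PowerSeries (OO r)),
    T' = S'.map Polynomial.coeToPowerSeries.ringHom := ⟨_, rfl⟩
  have hTT : T * T' = 1 := by
    rw [hT, hT', ← Matrix.map_mul, hSS, Matrix.map_one _ (map_zero _) (map_one _)]
  have hTT' : T' * T = 1 := mul_eq_one_comm.1 hTT
  have hSc : ∀ j, D.EP ν (Pi.single j 1) * S = S * D.EP ν (Pi.single j 1) := by
    intro j
    ext1 u w
    apply ext_ev
    intro s t
    obtain ⟨S1, hS1⟩ := hS s t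
    have h1 := (hS1 (Pi.single j 1)).1
    rw [← ev_EP, ← Matrix.map_mul, ← Matrix.map_mul] at h1
    exact congrFun (congrFun h1 u) w
  have hTc : ∀ j, D.ES ν j * T = T * D.ES ν j := by
    intro j
    have h1 := congrArg (fun M : Matrix D.W D.W (Polynomial (OO r)) =>
      M.map Polynomial.coeToPowerSeries.ringHom) (hSc j)
    beta_reduce at h1
    rw [Matrix.map_mul, Matrix.map_mul] at h1
    rw [hT]
    exact h1
  have hTc' : ∀ j, D.ES ν j * T' = T' * D.ES ν j := by
    intro j
    calc D.ES ν j * T' = T' * T * (D.ES ν j * T') := by rw [hTT', one_mul]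
      _ = T' * (D.ES ν j * T) * T' := by rw [hTc, mul_assoc, mul_assoc, mul_assoc]
      _ = T' * D.ES ν j := by rw [mul_assoc, mul_assoc, hTT, mul_one]
  have hTm : T ∈ AA (D.ES ν) := IsCyc.mem (ES_comm ν) (ES_cyc ν) hTc
  have hTm' : T' ∈ AA (D.ES ν) := IsCyc.mem (ES_comm ν) (ES_cyc ν) hTc'
  obtain ⟨Ξ, add, mul, hsc⟩ := exists_der (ES_comm ν) (fun k => SD (dO (Pi.single k 1)))
    (LX (OO r)) (fun h k => ES_sym ν h k) (ES_nd hν) hTm hTm' hTT'
    (fun h Q hQ => by
      rw [hT]
      exact rel_S hS h Q hQ)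
  have hX : Ξ (algebraMap (PowerSeries (OO r)) (AA (D.ES ν)) PowerSeries.X) = 1 := by
    rw [hsc]
    · have h1 : LX (OO r) PowerSeries.X = 1 := PowerSeries.derivative_X
      rw [h1, map_one]
    · intro k
      refine PowerSeries.ext fun n => ?_
      rw [coeff_SD, PowerSeries.coeff_X, map_zero]
      split_ifs
      · exact Derivation.map_one_eq_zero _
      · exact map_zero _
  have hC : ∀ c : ℂ, Ξ (algebraMap (PowerSeries (OO r)) (AA (D.ES ν))
      (algebraMap ℂ (PowerSeries (OO r)) c)) = 0 := by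
    intro c
    rw [hsc]
    · rw [Derivation.map_algebraMap, map_zero]
    · intro k
      exact Derivation.map_algebraMap _ _
  have hnd := nd_zero (ES_comm ν) (ES_cyc ν) (ES_nd hν) Ξ add mul hX hC
  have hfun : (fun k => (D.ES ν k).map (PowerSeries.constantCoeff (R := OO r))) =
      fun k => D.EO (Pi.single k 1) := funext fun k => ES_zero ν k
  rw [hfun] at hnd
  have hsep := separable_of_nd (E := fun k => D.EO (Pi.single k 1)) (fun h k => EO_comm _ _)
    EO_cyc hnd (fun k => dO (Pi.single k 1)) EO_ctr_mem (fun h Q hQ => EO_euler h Q hQ)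
  obtain ⟨d, hd, u, v, huv⟩ := exists_dvd hsep
  refine ⟨d, hd, fun t ht => ?_⟩
  have h1 := congrArg (Polynomial.map (evO t)) huv
  have h2 : (D.EO D.ctr).charpoly.map (evO t) = (D.E (D.ch D.ctr) t).charpoly := by
    rw [← Matrix.charpoly_map]
    rfl
  rw [Polynomial.map_add, Polynomial.map_mul, Polynomial.map_mul, ← Polynomial.derivative_map, h2,
    Polynomial.map_C] at h1
  have h3 : evO t d ≠ 0 := ht
  refine ⟨Polynomial.C (evO t d)⁻¹ * u.map (evO t), Polynomial.C (evO t d)⁻¹ * v.map (evO t), ?_⟩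
  rw [mul_assoc, mul_assoc, ← mul_add, h1, ← Polynomial.C_mul, inv_mul_cancel₀ h3, Polynomial.C_1]

theorem dense_sep (D : RS r) : Dense {t : Fin r → ℂ | (D.E D.cL t).charpoly.Separable} := by
  obtain ⟨d, hd, h⟩ := exists_sep D
  refine (gm_dense hd).mono fun t ht => ?_
  have h1 : D.ch D.ctr = D.cL := by
    funext a
    rw [ch_ctr]
    rfl
  have h2 := h t ht
  rw [h1] at h2
  exact h2

end Pool.Agent.FLG.RS
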