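import Pool.Agent.FLG.G.Core

/-!
# FLG-GNd: nondegeneracy of the trace form from one matrix with distinct eigenvalues

PLAN. `nd_of_hankel`: over the fraction field `K` the matrices `C^j`, `j < card ι`, are linearly independent (Gram determinant), they lie in the span of `AA E`, which has dimension
`card ι` (`IsCyc.exists_basis`), so `a • P = ∑ c_j C^j` with `a ≠ 0`; the vector `c` is killed by the Hankel matrix, so `c = 0`, `P = 0`. One can avoid `K`: the `card ι + 1` vectors
`(C^j) · e`, `P e` of `R^ι` are linearly dependent over the domain `R`.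
`exists_hankel`: for `s ≠ 0`, `E - s N = -s (N - s⁻¹ E)`, `Hankel(-s Y) = diag((-s)^i) Hankel(Y) diag((-s)^j)`; `x ↦ det Hankel(N - x E)` is continuous and at `x = 0` it is
`(det Vandermonde n)^2 ≠ 0` (`Matrix.det_vandermonde_ne_zero_iff`).
-/

set_option autoImplicit false

open scoped BigOperators

namespace Pool.Agent.FLG.G

variable {R : Type*} [CommRing R] {ι κ : Type*} [Fintype ι] [DecidableEq ι]

/-- the matrix of the traces of the powers -/
def hankel (C : Matrix ι ι R) : Matrix (Fin (Fintype.card ι)) (Fin (Fintype.card ι)) R :=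
  Matrix.of fun i j => (C ^ ((i : ℕ) + (j : ℕ))).trace

theorem hankel_map {R' : Type*} [CommRing R'] (φ : R →+* R') (C : Matrix ι ι R) :
    hankel (C.map φ) = (hankel C).map φ := by
  ext i j
  show ((C.map φ) ^ ((i : ℕ) + (j : ℕ))).trace = φ ((C ^ ((i : ℕ) + (j : ℕ))).trace)
  have h1 := map_pow φ.mapMatrix C ((i : ℕ) + (j : ℕ))
  rw [RingHom.mapMatrix_apply, RingHom.mapMatrix_apply] at h1
  rw [← h1]
  exact (AddMonoidHom.map_trace φ _).symm

private theorem hankel_smul (c : R) (Y : Matrix ι ι R) :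
    (hankel (c • Y)).det = (∏ i : Fin (Fintype.card ι), c ^ (i : ℕ)) * (hankel Y).det *
      ∏ i : Fin (Fintype.card ι), c ^ (i : ℕ) := by
  have h1 : hankel (c • Y) = Matrix.diagonal (fun i : Fin (Fintype.card ι) => c ^ (i : ℕ)) * hankel Y *
      Matrix.diagonal (fun i : Fin (Fintype.card ι) => c ^ (i : ℕ)) := by
    ext i j
    rw [Matrix.mul_diagonal, Matrix.diagonal_mul]
    show ((c • Y) ^ ((i : ℕ) + (j : ℕ))).trace = c ^ (i : ℕ) * (Y ^ ((i : ℕ) + (j : ℕ))).trace * c ^ (j : ℕ)
    rw [smul_pow, Matrix.trace_smul, smul_eq_mul, pow_add]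
    ring
  rw [h1, Matrix.det_mul, Matrix.det_mul, Matrix.det_diagonal]

private theorem hankel_diag {n : ι → ℂ} (hn : Function.Injective n) : (hankel (Matrix.diagonal n)).det ≠ 0 := by
  obtain ⟨q, hq⟩ : ∃ q : Fin (Fintype.card ι) → ℂ, q = fun i => n ((Fintype.equivFin ι).symm i) := ⟨_, rfl⟩
  have h1 : hankel (Matrix.diagonal n) = (Matrix.vandermonde q).transpose * Matrix.vandermonde q := by
    ext i j
    rw [Matrix.mul_apply]
    show ((Matrix.diagonal n) ^ ((i : ℕ) + (j : ℕ))).trace = _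
    rw [Matrix.diagonal_pow, Matrix.trace_diagonal, ← (Fintype.equivFin ι).symm.sum_comp]
    refine Finset.sum_congr rfl fun w _ => ?_
    rw [Matrix.transpose_apply, Matrix.vandermonde_apply, Matrix.vandermonde_apply, ← pow_add, hq]
    rfl
  rw [h1, Matrix.det_mul, Matrix.det_transpose]
  have h2 : (Matrix.vandermonde q).det ≠ 0 := by
    rw [Matrix.det_vandermonde_ne_zero_iff, hq]
    exact hn.comp (Fintype.equivFin ι).symm.injective
  exact mul_ne_zero h2 h2

theorem exists_hankel (E : Matrix ι ι ℂ) {n : ι → ℂ} (hn : Function.Injective n) :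
    ∃ s : ℂ, (hankel (E - s • Matrix.diagonal n)).det ≠ 0 := by
  obtain ⟨g, hg⟩ : ∃ g : ℂ → ℂ, g = fun x => (hankel (Matrix.diagonal n - x • E)).det := ⟨_, rfl⟩
  have hc : Continuous g := by
    rw [hg]
    refine Continuous.matrix_det ?_
    refine continuous_matrix fun i j => ?_
    show Continuous fun x : ℂ => ((Matrix.diagonal n - x • E) ^ ((i : ℕ) + (j : ℕ))).trace
    refine Continuous.matrix_trace (Continuous.pow ?_ _)
    exact continuous_const.sub (continuous_id.smul continuous_const)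
  have h0 : g 0 ≠ 0 := by
    rw [hg]
    show (hankel (Matrix.diagonal n - (0 : ℂ) • E)).det ≠ 0
    rw [zero_smul, sub_zero]
    exact hankel_diag hn
  have h1 : ∀ᶠ x in nhds (0 : ℂ), g x ≠ 0 := hc.continuousAt.eventually_ne h0
  have h2 : ∀ᶠ x in nhdsWithin (0 : ℂ) {0}ᶜ, g x ≠ 0 := h1.filter_mono nhdsWithin_le_nhds
  obtain ⟨x, hx, hx0⟩ := (h2.and (eventually_mem_nhdsWithin)).exists
  have hx1 : x ≠ 0 := hx0
  refine ⟨x⁻¹, ?_⟩
  have h3 : E - x⁻¹ • Matrix.diagonal n = (-x⁻¹) • (Matrix.diagonal n - x • E) := by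
    rw [smul_sub, smul_smul, neg_mul, inv_mul_cancel₀ hx1, neg_smul, neg_smul, one_smul]
    abel
  rw [h3, hankel_smul]
  have h4 : ∏ i : Fin (Fintype.card ι), (-x⁻¹) ^ (i : ℕ) ≠ 0 :=
    Finset.prod_ne_zero_iff.2 fun i _ => pow_ne_zero _ (neg_ne_zero.2 (inv_ne_zero hx1))
  rw [hg] at hx
  exact mul_ne_zero (mul_ne_zero h4 hx) h4

theorem nd_of_hankel [Algebra ℂ R] [IsDomain R] [Fintype κ] [DecidableEq κ]
    {E : κ → Matrix ι ι R}
    (hE : ∀ h k, E h * E k = E k * E h) {e : ι} (cyc : IsCyc E e) {C : Matrix ι ι R}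
    (hC : C ∈ AA E) (h : (hankel C).det ≠ 0) :
    ∀ P ∈ AA E, (∀ Q ∈ AA E, (P * Q).trace = 0) → P = 0 := by
  intro P hP hPQ
  obtain ⟨v, hv⟩ : ∃ v : Option (Fin (Fintype.card ι)) → ι → R,
      v = fun o => o.elim (fun w => P w e) (fun j w => (C ^ (j : ℕ)) w e) := ⟨_, rfl⟩
  have hdep : ¬ LinearIndependent R v := by
    intro hli
    have h1 := hli.fintype_card_le_finrank
    rw [Fintype.card_option, Fintype.card_fin, Module.finrank_fintype_fun_eq_card] at h1
    omega
  obtain ⟨g, hg, o, ho⟩ := Fintype.not_linearIndependent_iff.1 hdep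
  rw [Fintype.sum_option] at hg
  have hmem : g none • P + ∑ j : Fin (Fintype.card ι), g (some j) • C ^ (j : ℕ) ∈ AA E :=
    (AA E).add_mem ((AA E).smul_mem hP _) ((AA E).sum_mem fun j _ => (AA E).smul_mem ((AA E).pow_mem hC _) _)
  have hrel : g none • P + ∑ j : Fin (Fintype.card ι), g (some j) • C ^ (j : ℕ) = 0 := by
    refine IsCyc.ext hE cyc (fun k => AA_comm hE (Algebra.subset_adjoin ⟨k, rfl⟩) hmem)
      (fun k => by rw [mul_zero, zero_mul]) fun w => ?_
    have h1 := congrFun hg w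
    rw [Pi.add_apply, Pi.smul_apply, Finset.sum_apply, hv] at h1
    rw [Matrix.add_apply, Matrix.smul_apply, Matrix.sum_apply, Matrix.zero_apply]
    exact h1
  have hker : (hankel C).mulVec (fun j => g (some j)) = 0 := by
    funext i
    have h1 : ((g none • P + ∑ j : Fin (Fintype.card ι), g (some j) • C ^ (j : ℕ)) * C ^ (i : ℕ)).trace = 0 := by
      rw [hrel, zero_mul, Matrix.trace_zero]
    rw [add_mul, Matrix.trace_add, smul_mul_assoc, Matrix.trace_smul, hPQ _ ((AA E).pow_mem hC _), smul_zero,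
      zero_add, Finset.sum_mul, Matrix.trace_sum] at h1
    rw [Matrix.mulVec, dotProduct, Pi.zero_apply, ← h1]
    refine Finset.sum_congr rfl fun j _ => ?_
    rw [smul_mul_assoc, Matrix.trace_smul, ← pow_add, smul_eq_mul]
    show (C ^ ((i : ℕ) + (j : ℕ))).trace * g (some j) = _
    rw [mul_comm, add_comm (i : ℕ)]
  have hz := Matrix.eq_zero_of_mulVec_eq_zero h hker
  have hz' : ∀ j : Fin (Fintype.card ι), g (some j) = 0 := fun j => congrFun hz j
  have hn : g none ≠ 0 := by
    cases o with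
    | none => exact ho
    | some j => exact absurd (hz' j) ho
  have h1 : g none • P = 0 := by
    rw [Finset.sum_eq_zero fun j _ => by rw [hz' j, zero_smul], add_zero] at hrel
    exact hrel
  ext i j
  have h2 := congrFun (congrFun h1 i) j
  rw [Matrix.smul_apply, Matrix.zero_apply, smul_eq_mul] at h2
  rw [Matrix.zero_apply]
  exact (mul_eq_zero.1 h2).resolve_left hn

end Pool.Agent.FLG.G
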