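import Pool.Agent.FLG.BDefs

/-!
# FLG-GOO: the ring of entire functions of `t ∈ H^2`, polynomials and power series over it
-/

set_option autoImplicit false

open scoped BigOperators
open Pool.Agent.DST.TE

namespace Pool.Agent.FLG.G

/-- the ring of entire functions of `t ∈ ℂ^r` -/
def OO (r : ℕ) : Subalgebra ℂ ((Fin r → ℂ) → ℂ) where
  carrier := {f | AnalyticOnNhd ℂ f Set.univ}
  mul_mem' hf hg := hf.mul hg
  add_mem' hf hg := hf.add hg
  algebraMap_mem' c := by
    show AnalyticOnNhd ℂ (fun _ => c) Set.univ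
    exact analyticOnNhd_const

variable {r : ℕ}

theorem OO.ext_fun {f g : OO r} (h : ∀ t, f.1 t = g.1 t) : f = g := Subtype.ext (funext h)

instance isDomain_OO (r : ℕ) : IsDomain (OO r) := by
  have _ : Nontrivial (OO r) := by
    refine ⟨⟨0, 1, fun h => ?_⟩⟩
    have h1 := congrFun (congrArg Subtype.val h) 0
    exact zero_ne_one h1
  have _ : NoZeroDivisors (OO r) := by
    refine ⟨fun {f g} h => ?_⟩
    by_cases hf : f = 0
    · exact Or.inl hf
    right
    obtain ⟨t₀, ht₀⟩ : ∃ t, f.1 t ≠ 0 := by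
      by_contra hc
      push Not at hc
      exact hf (OO.ext_fun hc)
    refine OO.ext_fun fun t => ?_
    have hL : AnalyticOnNhd ℂ (fun s : ℂ => t₀ + s • (t - t₀)) Set.univ := by
      refine (analyticOnNhd_const).add (AnalyticOnNhd.smul analyticOnNhd_id analyticOnNhd_const)
    have hF : AnalyticOnNhd ℂ (fun s : ℂ => f.1 (t₀ + s • (t - t₀))) Set.univ :=
      AnalyticOnNhd.comp f.2 hL (fun _ _ => Set.mem_univ _)
    have hG : AnalyticOnNhd ℂ (fun s : ℂ => g.1 (t₀ + s • (t - t₀))) Set.univ :=
      AnalyticOnNhd.comp g.2 hL (fun _ _ => Set.mem_univ _)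
    have h1 := AnalyticOnNhd.eq_zero_or_eq_zero_of_mul_eq_zero hF hG (fun s _ => by
      have h2 := congrFun (congrArg Subtype.val h) (t₀ + s • (t - t₀))
      exact h2) isPreconnected_univ
    rcases h1 with h1 | h1
    · exfalso
      have h2 := h1 0 (Set.mem_univ _)
      rw [zero_smul, add_zero] at h2
      exact ht₀ h2
    · have h2 := h1 1 (Set.mem_univ _)
      rw [one_smul, add_sub_cancel] at h2
      exact h2
  exact NoZeroDivisors.to_isDomain _

/-- the value at `t` -/
def evO (t : Fin r → ℂ) : OO r →+* ℂ where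
  toFun f := f.1 t
  map_one' := rfl
  map_mul' _ _ := rfl
  map_zero' := rfl
  map_add' _ _ := rfl

private theorem dmem (h : Fin r → ℂ) (f : OO r) :
    AnalyticOnNhd ℂ (fun t => fderiv ℂ f.1 t h) Set.univ :=
  (ContinuousLinearMap.apply ℂ ℂ h).comp_analyticOnNhd (AnalyticOnNhd.fderiv f.2)

private theorem diffO (f : OO r) (t : Fin r → ℂ) : DifferentiableAt ℂ f.1 t :=
  (f.2 t (Set.mem_univ _)).differentiableAt

/-- the derivation in the direction `h` -/
noncomputable def dO (h : Fin r → ℂ) : Derivation ℂ (OO r) (OO r) :=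
  Derivation.mk'
    { toFun := fun f => (⟨fun t => fderiv ℂ f.1 t h, dmem h f⟩ : OO r)
      map_add' := fun f g => OO.ext_fun fun t => by
        show fderiv ℂ (f.1 + g.1) t h = fderiv ℂ f.1 t h + fderiv ℂ g.1 t h
        rw [fderiv_add (diffO f t) (diffO g t)]
        rfl
      map_smul' := fun c f => OO.ext_fun fun t => by
        show fderiv ℂ (c • f.1) t h = c • fderiv ℂ f.1 t h
        rw [fderiv_const_smul (diffO f t)]
        rfl }
    (fun f g => OO.ext_fun fun t => by
      show fderiv ℂ (f.1 * g.1) t h = f.1 t * fderiv ℂ g.1 t h + g.1 t * fderiv ℂ f.1 t h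
      rw [fderiv_mul (diffO f t) (diffO g t)]
      rfl)

theorem dO_apply (h : Fin r → ℂ) (f : OO r) (t : Fin r → ℂ) : (dO h f).1 t = fderiv ℂ f.1 t h :=
  rfl

private noncomputable def qL (μ : Fin r → ℤ) : (Fin r → ℂ) →L[ℂ] ℂ :=
  ∑ i, (μ i : ℂ) • ContinuousLinearMap.proj i

private theorem qL_apply (μ : Fin r → ℤ) (t : Fin r → ℂ) : qL μ t = ∑ i, t i * (μ i : ℂ) := by
  unfold qL
  rw [sum_apply]
  refine Finset.sum_congr rfl fun i _ => ?_
  rw [smul_apply, ContinuousLinearMap.proj_apply, smul_eq_mul, mul_comm]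

private theorem qq_an (μ : Fin r → ℤ) : AnalyticOnNhd ℂ (fun t : Fin r → ℂ => RS.qq t μ) Set.univ := by
  unfold RS.qq
  refine AnalyticOnNhd.cexp ?_
  have h : (fun t : Fin r → ℂ => ∑ i, t i * (μ i : ℂ)) = qL μ := by
    funext t
    exact (qL_apply μ t).symm
  rw [h]
  exact (qL μ).analyticOnNhd _

/-- the exponentials `q^μ` -/
noncomputable def qO (μ : Fin r → ℤ) : OO r := ⟨fun t => RS.qq t μ, by exact qq_an μ⟩

theorem dO_qO (h : Fin r → ℂ) (μ : Fin r → ℤ) : dO h (qO μ) = (∑ i, h i * (μ i : ℂ)) • qO μ := by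
  refine OO.ext_fun fun t => ?_
  rw [dO_apply]
  show fderiv ℂ (fun t => RS.qq t μ) t h = (∑ i, h i * (μ i : ℂ)) * RS.qq t μ
  have h1 : (fun t : Fin r → ℂ => RS.qq t μ) = fun t => Complex.exp (qL μ t) := by
    funext t
    rw [qL_apply]
    rfl
  have h2 : HasFDerivAt (fun t : Fin r → ℂ => Complex.exp (qL μ t)) (Complex.exp (qL μ t) • qL μ) t :=
    (qL μ).hasFDerivAt.cexp
  rw [h1, h2.fderiv]
  show Complex.exp (qL μ t) * qL μ h = (∑ i, h i * (μ i : ℂ)) * Complex.exp (∑ i, t i * (μ i : ℂ))
  rw [qL_apply, qL_apply, mul_comm]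

section ser

variable {O : Type*} [CommRing O] [Algebra ℂ O]

/-- a derivation applied to the coefficients of a power series -/
noncomputable def SD (δ : Derivation ℂ O O) : Derivation ℂ (PowerSeries O) (PowerSeries O) :=
  Derivation.mk'
    { toFun := fun f => PowerSeries.mk fun n => δ (PowerSeries.coeff n f)
      map_add' := fun f g => by
        ext n
        rw [PowerSeries.coeff_mk, map_add, map_add, map_add, PowerSeries.coeff_mk, PowerSeries.coeff_mk]
      map_smul' := fun c f => by
        ext n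
        rw [PowerSeries.coeff_mk]
        show δ (c • PowerSeries.coeff n f) = c • PowerSeries.coeff n (PowerSeries.mk fun n => δ (PowerSeries.coeff n f))
        rw [PowerSeries.coeff_mk, δ.map_smul] }
    (fun f g => by
      ext n
      show PowerSeries.coeff n (PowerSeries.mk fun n => δ (PowerSeries.coeff n (f * g))) =
        PowerSeries.coeff n (f * (PowerSeries.mk fun n => δ (PowerSeries.coeff n g)) +
          g * (PowerSeries.mk fun n => δ (PowerSeries.coeff n f)))
      rw [mul_comm g, map_add, PowerSeries.coeff_mk, PowerSeries.coeff_mul, PowerSeries.coeff_mul,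
        PowerSeries.coeff_mul, map_sum, ← Finset.sum_add_distrib]
      refine Finset.sum_congr rfl fun x _ => ?_
      rw [PowerSeries.coeff_mk, PowerSeries.coeff_mk, δ.leibniz, smul_eq_mul, smul_eq_mul,
        mul_comm (PowerSeries.coeff x.2 g)])

theorem coeff_SD (δ : Derivation ℂ O O) (f : PowerSeries O) (n : ℕ) :
    PowerSeries.coeff n (SD δ f) = δ (PowerSeries.coeff n f) := by
  show PowerSeries.coeff n (PowerSeries.mk fun n => δ (PowerSeries.coeff n f)) = _
  rw [PowerSeries.coeff_mk]

/-- the derivation `d/dX` over `ℂ` -/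
noncomputable def LX (O : Type*) [CommRing O] [Algebra ℂ O] :
    Derivation ℂ (PowerSeries O) (PowerSeries O) := (PowerSeries.derivative O).restrictScalars ℂ

/-- a derivation applied to the coefficients of a polynomial -/
noncomputable def PD (δ : Derivation ℂ O O) (p : Polynomial O) : Polynomial O :=
  ∑ n ∈ Finset.range (p.natDegree + 1), Polynomial.monomial n (δ (p.coeff n))

theorem coeff_PD (δ : Derivation ℂ O O) (p : Polynomial O) (n : ℕ) :
    (PD δ p).coeff n = δ (p.coeff n) := by
  unfold PD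
  rw [Polynomial.finsetSum_coeff]
  simp only [Polynomial.coeff_monomial]
  rw [Finset.sum_ite_eq']
  split_ifs with h
  · rfl
  · rw [Finset.mem_range, not_lt] at h
    rw [Polynomial.coeff_eq_zero_of_natDegree_lt (by omega), map_zero]

theorem coe_PD (δ : Derivation ℂ O O) (p : Polynomial O) :
    ((PD δ p : Polynomial O) : PowerSeries O) = SD δ (p : PowerSeries O) := by
  ext n
  rw [Polynomial.coeff_coe, coeff_PD, coeff_SD, Polynomial.coeff_coe]

end ser

/-- the value at `(s, t)` of a polynomial in `s` with coefficients in `OO r` -/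
noncomputable def ev (s : ℂ) (t : Fin r → ℂ) : Polynomial (OO r) →+* ℂ :=
  Polynomial.eval₂RingHom (evO t) s

private theorem ev_const (s : ℂ) (t : Fin r → ℂ) (p : Polynomial (OO r)) :
    ev s t p = evO t (p.eval (algebraMap ℂ (OO r) s)) :=
  Polynomial.eval₂_at_apply (evO t) (algebraMap ℂ (OO r) s)

theorem ext_ev {p q : Polynomial (OO r)} (h : ∀ s t, ev s t p = ev s t q) : p = q := by
  rw [← sub_eq_zero]
  refine Polynomial.eq_zero_of_infinite_isRoot _ ?_
  have hinj : Function.Injective (algebraMap ℂ (OO r)) := by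
    intro a b hab
    exact congrFun (congrArg Subtype.val hab) 0
  refine (Set.infinite_range_of_injective hinj).mono ?_
  rintro x ⟨s, rfl⟩
  show (p - q).eval (algebraMap ℂ (OO r) s) = 0
  refine OO.ext_fun fun t => ?_
  have h1 : ev s t (p - q) = 0 := by
    have h2 := map_sub (ev s t) p q
    rw [h2, h s t, sub_self]
  rw [ev_const] at h1
  exact h1

private theorem ev_sum (s : ℂ) (t : Fin r → ℂ) (p : Polynomial (OO r)) :
    ev s t p = ∑ n ∈ Finset.range (p.natDegree + 1), (p.coeff n).1 t * s ^ n :=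
  Polynomial.eval₂_eq_sum_range (evO t) s

private theorem ev_has (s : ℂ) (t : Fin r → ℂ) (p : Polynomial (OO r)) :
    HasFDerivAt (fun t => ev s t p)
      (∑ n ∈ Finset.range (p.natDegree + 1), s ^ n • fderiv ℂ (p.coeff n).1 t) t := by
  have h1 : (fun t => ev s t p) =
      fun t => ∑ n ∈ Finset.range (p.natDegree + 1), (p.coeff n).1 t * s ^ n := by
    funext t
    exact ev_sum s t p
  rw [h1]
  refine HasFDerivAt.fun_sum fun n _ => ?_
  exact (diffO (p.coeff n) t).hasFDerivAt.mul_const (s ^ n)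

theorem ev_PD (h : Fin r → ℂ) (s : ℂ) (t : Fin r → ℂ) (p : Polynomial (OO r)) :
    ev s t (PD (dO h) p) = fderiv ℂ (fun t => ev s t p) t h := by
  rw [(ev_has s t p).fderiv, sum_apply]
  unfold PD
  rw [map_sum]
  refine Finset.sum_congr rfl fun n _ => ?_
  rw [smul_apply, smul_eq_mul, mul_comm]
  show Polynomial.eval₂ (evO t) s (Polynomial.monomial n (dO h (p.coeff n))) = _
  rw [Polynomial.eval₂_monomial]
  rfl

theorem ev_diff (s : ℂ) (p : Polynomial (OO r)) : Differentiable ℂ fun t => ev s t p :=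
  fun t => (ev_has s t p).differentiableAt

end Pool.Agent.FLG.G
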