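import Pool.Agent.FLG.G.CommE
import Pool.Agent.FLG.G.OO
import Pool.Agent.FLG.G.CycR
import Pool.Agent.FLG.G.Nd
import Pool.Agent.FLG.Num

/-!
# FLG-GMat: the quantum products over `OO r`, `OO r [s]`, `OO r [[s]]`
-/

set_option autoImplicit false

open scoped BigOperators
open Pool.Agent.DST.TE

namespace Pool.Agent.FLG.RS

open Pool.Agent.FLG.G

variable {r : ℕ} (D : RS r)

/-- the quantum product with `h` at `λ = 0` over the entire functions -/
noncomputable def EO (h : Fin r → ℂ) : Matrix D.W D.W (OO r) :=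
  Matrix.of fun u w => ⟨fun t => D.E (D.ch h) t u w, by
    have h1 : (fun t => D.E (D.ch h) t u w) = (∑ a ∈ D.Pos, if u = w * D.refl a then D.ch h a •
        ((if D.len u = D.len w + 1 then (1 : OO r) else 0) +
          (if (D.len u : ℤ) + D.L a = D.len w + 1 then qO (D.co a) else 0)) else 0 : OO r).1 := by
      funext t
      have h2 : ∀ f : OO r, f.1 t = evO t f := fun _ => rfl
      rw [h2, map_sum]
      refine Finset.sum_congr rfl fun a _ => ?_
      split_ifs
      · rfl
      · rfl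
      · rfl
      · rfl
      · rfl
    rw [h1]
    exact (∑ a ∈ D.Pos, if u = w * D.refl a then D.ch h a •
        ((if D.len u = D.len w + 1 then (1 : OO r) else 0) +
          (if (D.len u : ℤ) + D.L a = D.len w + 1 then qO (D.co a) else 0)) else 0 : OO r).2⟩

/-- the quantum product with `h` at `λ = s ν` -/
noncomputable def EP (ν : Fin r → ℤ) (h : Fin r → ℂ) : Matrix D.W D.W (Polynomial (OO r)) :=
  Matrix.of fun u w => Polynomial.C (D.EO h u w) -
    if u = w then Polynomial.C (algebraMap ℂ (OO r) (D.hv h u (cc ν))) * Polynomial.X else 0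

/-- the same over power series, for the basis of divisors -/
noncomputable def ES (ν : Fin r → ℤ) (j : Fin r) : Matrix D.W D.W (PowerSeries (OO r)) :=
  (D.EP ν (Pi.single j 1)).map Polynomial.coeToPowerSeries.ringHom

variable {D}

private theorem gm_EO (h : Fin r → ℂ) (u w : D.W) : D.EO h u w =
    ∑ a ∈ D.Pos, if u = w * D.refl a then D.ch h a •
      ((if D.len u = D.len w + 1 then (1 : OO r) else 0) +
        (if (D.len u : ℤ) + D.L a = D.len w + 1 then qO (D.co a) else 0)) else 0 := by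
  refine OO.ext_fun fun t => ?_
  have h2 : ∀ f : OO r, f.1 t = evO t f := fun _ => rfl
  rw [h2 (∑ a ∈ D.Pos, _), map_sum]
  show D.E (D.ch h) t u w = _
  refine Finset.sum_congr rfl fun a _ => ?_
  split_ifs
  · rfl
  · rfl
  · rfl
  · rfl
  · rfl

private theorem gm_EP (ν : Fin r → ℤ) (h : Fin r → ℂ) (u w : D.W) : D.EP ν h u w =
    Polynomial.C (D.EO h u w) -
      if u = w then Polynomial.C (algebraMap ℂ (OO r) (D.hv h u (cc ν))) * Polynomial.X else 0 := rfl

private theorem gm_evsub (s : ℂ) (t : Fin r → ℂ) (p q : Polynomial (OO r)) :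
    ev s t (p - q) = ev s t p - ev s t q := map_sub (ev s t) p q

private theorem gm_dersub (p q : Polynomial (OO r)) :
    Polynomial.derivative (p - q) = Polynomial.derivative p - Polynomial.derivative q :=
  Polynomial.derivative_sub

private theorem gm_det1 {ι : Type} [Fintype ι] [DecidableEq ι] (M : Matrix ι ι (Polynomial (OO r))) :
    Polynomial.coeToPowerSeries.ringHom M.det = (M.map Polynomial.coeToPowerSeries.ringHom).det :=
  RingHom.map_det (Polynomial.coeToPowerSeries.ringHom (R := OO r)) M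

private theorem gm_det2 {ι : Type} [Fintype ι] [DecidableEq ι] (s : ℂ) (t : Fin r → ℂ)
    (M : Matrix ι ι (Polynomial (OO r))) : ev s t M.det = (M.map (ev s t)).det :=
  RingHom.map_det (ev s t) M

private theorem gm_zsub (p : Polynomial (OO r)) : 0 - p = -p := zero_sub p

private theorem gm_subz (p : Polynomial (OO r)) : p - 0 = p := sub_zero p

private theorem gm_hv (h : Fin r → ℂ) (u : D.W) (y : Fin r → ℂ) :
    D.hv h u y = ∑ j, h j * D.hv (Pi.single j 1) u y := by
  have h1 : ∀ j, D.hv (Pi.single j 1) u y = D.yt u⁻¹ y j := by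
    intro j
    unfold hv
    rw [Finset.sum_eq_single j]
    · rw [Pi.single_eq_same, one_mul]
    · intro i _ hi
      rw [Pi.single_eq_of_ne hi, zero_mul]
    · intro hj
      exact absurd (Finset.mem_univ j) hj
  unfold hv at h1 ⊢
  exact Finset.sum_congr rfl fun j _ => by rw [h1]

private theorem gm_E (h t : Fin r → ℂ) (u w : D.W) :
    D.E (D.ch h) t u w = ∑ j, h j * D.E (D.ch (Pi.single j 1)) t u w := by
  unfold E
  simp only [Matrix.of_apply, Finset.mul_sum]
  rw [Finset.sum_comm]
  refine Finset.sum_congr rfl fun a _ => ?_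
  by_cases hu : u = w * D.refl a
  · simp only [if_pos hu]
    rw [ch_smul_add h a, Finset.sum_mul]
    exact Finset.sum_congr rfl fun j _ => by ring
  · simp only [if_neg hu, mul_zero, Finset.sum_const_zero]

theorem ev_EP (ν : Fin r → ℤ) (h : Fin r → ℂ) (s : ℂ) (t : Fin r → ℂ) :
    (D.EP ν h).map (ev s t) = D.Cq h t (fun i => s * (ν i : ℂ)) := by
  ext u w
  have h0 : D.hv h u (fun i => s * (ν i : ℂ)) = D.hv h u (cc ν) * s := by
    have h1 : (fun i => s * (ν i : ℂ)) = s • cc ν := rfl
    unfold hv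
    rw [h1, yt_smul, Finset.sum_mul]
    refine Finset.sum_congr rfl fun j _ => ?_
    rw [Pi.smul_apply, smul_eq_mul]
    ring
  have hC : ∀ f : OO r, ev s t (Polynomial.C f) = f.1 t := by
    intro f
    show Polynomial.eval₂ (evO t) s (Polynomial.C f) = _
    rw [Polynomial.eval₂_C]
    rfl
  have hX : ev s t (Polynomial.X : Polynomial (OO r)) = s := by
    show Polynomial.eval₂ (evO t) s Polynomial.X = _
    rw [Polynomial.eval₂_X]
  rw [Matrix.map_apply, gm_EP]
  unfold Cq
  rw [gm_evsub, hC, Matrix.sub_apply, Matrix.diagonal_apply]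
  show D.E (D.ch h) t u w - _ = _
  congr 1
  by_cases huw : u = w
  · rw [if_pos huw, if_pos huw, map_mul, hC, hX, h0]
    rfl
  · rw [if_neg huw, if_neg huw, map_zero]

private theorem gm_ev_ext {M N : Matrix D.W D.W (Polynomial (OO r))}
    (h : ∀ s t, M.map (ev s t) = N.map (ev s t)) : M = N := by
  ext1 u w
  refine ext_ev fun s t => ?_
  exact congrFun (congrFun (h s t) u) w

private theorem gm_Cq (h t y : Fin r → ℂ) :
    D.Cq h t y = ∑ j, h j • D.Cq (Pi.single j 1) t y := by
  ext u w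
  rw [Matrix.sum_apply]
  unfold Cq
  simp only [Matrix.smul_apply, Matrix.sub_apply, smul_eq_mul, mul_sub, Finset.sum_sub_distrib]
  rw [gm_E]
  congr 1
  simp only [Matrix.diagonal_apply]
  by_cases huw : u = w
  · simp only [if_pos huw]
    exact gm_hv h u y
  · simp only [if_neg huw, mul_zero, Finset.sum_const_zero]

private theorem gm_evC (s : ℂ) (t : Fin r → ℂ) (c : ℂ) :
    ev s t (Polynomial.C (algebraMap ℂ (OO r) c)) = c := by
  show Polynomial.eval₂ (evO t) s (Polynomial.C _) = _
  rw [Polynomial.eval₂_C]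
  rfl

theorem EP_eq_sum (ν : Fin r → ℤ) (h : Fin r → ℂ) :
    D.EP ν h = ∑ j, (Polynomial.C (algebraMap ℂ (OO r) (h j))) • D.EP ν (Pi.single j 1) := by
  refine gm_ev_ext fun s t => ?_
  rw [ev_EP, gm_Cq]
  ext u w
  rw [Matrix.sum_apply, Matrix.map_apply, Matrix.sum_apply, map_sum]
  refine Finset.sum_congr rfl fun j _ => ?_
  rw [Matrix.smul_apply, Matrix.smul_apply, smul_eq_mul, smul_eq_mul, map_mul, gm_evC, ← ev_EP,
    Matrix.map_apply]

theorem EP_comm (ν : Fin r → ℤ) (h h' : Fin r → ℂ) :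
    D.EP ν h * D.EP ν h' = D.EP ν h' * D.EP ν h := by
  refine gm_ev_ext fun s t => ?_
  rw [Matrix.map_mul, Matrix.map_mul, ev_EP, ev_EP, Cq_comm]

private theorem gm_dEO (h h' : Fin r → ℂ) (u w : D.W) : dO h' (D.EO h u w) =
    ∑ a ∈ D.Pos, if u = w * D.refl a then (D.ch h a * D.ch h' a) •
      (if (D.len u : ℤ) + D.L a = D.len w + 1 then qO (D.co a) else 0) else 0 := by
  rw [gm_EO, map_sum]
  refine Finset.sum_congr rfl fun a _ => ?_
  by_cases hu : u = w * D.refl a
  · rw [if_pos hu, if_pos hu, Derivation.map_smul, map_add]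
    have h1 : dO h' (if D.len u = D.len w + 1 then (1 : OO r) else 0) = 0 := by
      split_ifs
      · exact Derivation.map_one_eq_zero _
      · exact map_zero _
    rw [h1, zero_add]
    split_ifs
    · rw [dO_qO, smul_smul]
      rfl
    · rw [map_zero, smul_zero, smul_zero]
  · rw [if_neg hu, if_neg hu, map_zero]

private theorem gm_sym (h h' : Fin r → ℂ) (u w : D.W) :
    dO h' (D.EO h u w) = dO h (D.EO h' u w) := by
  rw [gm_dEO, gm_dEO]
  refine Finset.sum_congr rfl fun a _ => ?_
  rw [mul_comm (D.ch h a)]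

private theorem gm_coeff (ν : Fin r → ℤ) (h : Fin r → ℂ) (u w : D.W) (n : ℕ) :
    (D.EP ν h u w).coeff n = (if n = 0 then D.EO h u w else 0) -
      (if n = 1 then (if u = w then algebraMap ℂ (OO r) (D.hv h u (cc ν)) else 0) else 0) := by
  rw [gm_EP, Polynomial.coeff_sub, Polynomial.coeff_C]
  congr 1
  by_cases huw : u = w
  · rw [if_pos huw, Polynomial.coeff_C_mul, Polynomial.coeff_X]
    by_cases hn : n = 1
    · rw [if_pos hn, if_pos huw, if_pos hn.symm, mul_one]
    · rw [if_neg hn, if_neg (fun h => hn h.symm), mul_zero]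
  · rw [if_neg huw, Polynomial.coeff_zero, if_neg huw, ite_self]

theorem EP_sym (ν : Fin r → ℤ) (h h' : Fin r → ℂ) :
    (D.EP ν h).map (PD (dO h')) = (D.EP ν h').map (PD (dO h)) := by
  ext1 u w
  rw [Matrix.map_apply, Matrix.map_apply]
  refine Polynomial.ext fun n => ?_
  rw [coeff_PD, coeff_PD, gm_coeff, gm_coeff, map_sub, map_sub]
  congr 1
  · split_ifs
    · exact gm_sym h h' u w
    · rw [map_zero, map_zero]
  · split_ifs
    · rw [Derivation.map_algebraMap, Derivation.map_algebraMap]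
    · rw [map_zero, map_zero]
    · rw [map_zero, map_zero]

theorem EP_deriv (ν : Fin r → ℤ) (h : Fin r → ℂ) :
    (D.EP ν h).map Polynomial.derivative =
      -Matrix.diagonal fun u => Polynomial.C (algebraMap ℂ (OO r) (D.hv h u (cc ν))) := by
  ext1 u w
  rw [Matrix.map_apply, Matrix.neg_apply, Matrix.diagonal_apply, gm_EP]
  rw [gm_dersub, Polynomial.derivative_C, gm_zsub]
  by_cases huw : u = w
  · rw [if_pos huw, if_pos huw, Polynomial.derivative_C_mul, Polynomial.derivative_X, mul_one]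
  · rw [if_neg huw, if_neg huw, map_zero]

theorem ES_comm (ν : Fin r → ℤ) (j k : Fin r) : D.ES ν j * D.ES ν k = D.ES ν k * D.ES ν j := by
  unfold ES
  rw [← Matrix.map_mul, ← Matrix.map_mul, EP_comm]

theorem ES_sym (ν : Fin r → ℤ) (j k : Fin r) :
    (D.ES ν k).map (SD (dO (Pi.single j 1))) = (D.ES ν j).map (SD (dO (Pi.single k 1))) := by
  have h := EP_sym (D := D) ν (Pi.single k 1) (Pi.single j 1)
  ext1 u w
  have h1 := congrFun (congrFun h u) w
  rw [Matrix.map_apply, Matrix.map_apply] at h1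
  show SD (dO (Pi.single j 1)) ((D.EP ν (Pi.single k 1) u w : Polynomial (OO r)) : PowerSeries (OO r)) =
    SD (dO (Pi.single k 1)) ((D.EP ν (Pi.single j 1) u w : Polynomial (OO r)) : PowerSeries (OO r))
  rw [← coe_PD, ← coe_PD, h1]

theorem ES_zero (ν : Fin r → ℤ) (j : Fin r) :
    (D.ES ν j).map PowerSeries.constantCoeff = D.EO (Pi.single j 1) := by
  ext1 u w
  rw [Matrix.map_apply]
  show PowerSeries.constantCoeff ((D.EP ν (Pi.single j 1) u w : Polynomial (OO r)) : PowerSeries (OO r)) = _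
  rw [← PowerSeries.coeff_zero_eq_constantCoeff_apply, Polynomial.coeff_coe, gm_coeff]
  simp

private theorem gm_cl {j : Fin r} {u w : D.W} (h : D.len w < D.len u) :
    D.EO (Pi.single j 1) u w = algebraMap ℂ (OO r) (D.E0 (D.ch (Pi.single j 1)) u w) := by
  rw [gm_EO]
  unfold E0
  rw [Matrix.of_apply, map_sum]
  refine Finset.sum_congr rfl fun a ha => ?_
  have h2 : ¬ ((D.len u : ℤ) + D.L a = D.len w + 1) := by
    have h3 := two_le_L ha
    omega
  rw [if_neg h2, add_zero]
  by_cases hu : u = w * D.refl a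
  · by_cases hl : D.len u = D.len w + 1
    · rw [if_pos hu, if_pos hl, if_pos ⟨hu, hl⟩, Algebra.algebraMap_eq_smul_one]
    · rw [if_pos hu, if_neg hl, if_neg (fun h' => hl h'.2), smul_zero, map_zero]
  · rw [if_neg hu, if_neg (fun h' => hu h'.1), map_zero]

theorem ES_cyc (ν : Fin r → ℤ) : IsCyc (D.ES ν) (1 : D.W) := by
  refine cyc_of_tri fun j u w h => ?_
  have huw : u ≠ w := fun h' => by
    rw [h'] at h
    exact lt_irrefl _ h
  show ((D.EP ν (Pi.single j 1) u w : Polynomial (OO r)) : PowerSeries (OO r)) = _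
  have h5 : D.EP ν (Pi.single j 1) u w = Polynomial.C (D.EO (Pi.single j 1) u w) := by
    rw [gm_EP, if_neg huw, gm_subz]
  rw [h5, gm_cl h, Polynomial.coe_C, PowerSeries.algebraMap_apply]

private theorem gm_ctr_mem (ν : Fin r → ℤ) :
    (D.EP ν D.ctr).map Polynomial.coeToPowerSeries.ringHom ∈ AA (D.ES ν) := by
  have h1 : (D.EP ν D.ctr).map Polynomial.coeToPowerSeries.ringHom =
      ∑ j, (Polynomial.coeToPowerSeries.ringHom (Polynomial.C (algebraMap ℂ (OO r) (D.ctr j)))) •
        D.ES ν j := by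
    ext1 u w
    rw [Matrix.map_apply, EP_eq_sum, Matrix.sum_apply, Matrix.sum_apply, map_sum]
    refine Finset.sum_congr rfl fun j _ => ?_
    rw [Matrix.smul_apply, Matrix.smul_apply, smul_eq_mul, smul_eq_mul, map_mul]
    rfl
  rw [h1]
  refine Subalgebra.sum_mem _ fun j _ => ?_
  refine Subalgebra.smul_mem _ ?_ _
  exact Algebra.subset_adjoin ⟨j, rfl⟩

theorem ES_nd {ν : Fin r → ℤ} (hν : Function.Injective fun w : D.W => D.hv D.ctr w (cc ν)) :
    ∀ P ∈ AA (D.ES ν), (∀ Q ∈ AA (D.ES ν), (P * Q).trace = 0) → P = 0 := by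
  refine nd_of_hankel (fun h k => ES_comm ν h k) (ES_cyc ν) (gm_ctr_mem ν) ?_
  have hk := hankel_map (Polynomial.coeToPowerSeries.ringHom (R := OO r)) (D.EP ν D.ctr)
  rw [hk]
  intro h0'
  have h0 : Polynomial.coeToPowerSeries.ringHom (hankel (D.EP ν D.ctr)).det = 0 :=
    (gm_det1 (hankel (D.EP ν D.ctr))).trans h0'

  have h1 : (hankel (D.EP ν D.ctr)).det = 0 := by
    have h2 : ((hankel (D.EP ν D.ctr)).det : PowerSeries (OO r)) =
        ((0 : Polynomial (OO r)) : PowerSeries (OO r)) := by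
      rw [Polynomial.coe_zero]
      exact h0
    exact Polynomial.coe_injective _ h2
  obtain ⟨s, hs⟩ := exists_hankel (D.E (D.ch D.ctr) 0) hν
  apply hs
  have h3 : ev s 0 (hankel (D.EP ν D.ctr)).det = 0 := by rw [h1, map_zero]
  rw [gm_det2, ← hankel_map (ev s 0) (D.EP ν D.ctr), ev_EP] at h3
  have h4 : D.Cq D.ctr 0 (fun i => s * (ν i : ℂ)) =
      D.E (D.ch D.ctr) 0 - s • Matrix.diagonal fun w : D.W => D.hv D.ctr w (cc ν) := by
    unfold Cq
    congr 1
    ext u w
    rw [Matrix.smul_apply, Matrix.diagonal_apply, Matrix.diagonal_apply]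
    by_cases huw : u = w
    · rw [if_pos huw, if_pos huw]
      have h5 : (fun i => s * (ν i : ℂ)) = s • cc ν := rfl
      unfold hv
      rw [h5, yt_smul, smul_eq_mul, Finset.mul_sum]
      refine Finset.sum_congr rfl fun j _ => ?_
      rw [Pi.smul_apply, smul_eq_mul]
      ring
    · rw [if_neg huw, if_neg huw, smul_zero]
  rw [← h4]
  exact h3

private theorem gm_EO_ext {M N : Matrix D.W D.W (OO r)}
    (h : ∀ t, M.map (evO t) = N.map (evO t)) : M = N := by
  ext1 u w
  refine OO.ext_fun fun t => ?_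
  exact congrFun (congrFun (h t) u) w

private theorem gm_evO (h t : Fin r → ℂ) : (D.EO h).map (evO t) = D.E (D.ch h) t := rfl

theorem EO_comm (h h' : Fin r → ℂ) : D.EO h * D.EO h' = D.EO h' * D.EO h := by
  refine gm_EO_ext fun t => ?_
  rw [Matrix.map_mul, Matrix.map_mul, gm_evO, gm_evO, E_comm]

theorem EO_cyc : IsCyc (fun j => D.EO (Pi.single j 1)) (1 : D.W) := by
  exact cyc_of_tri fun j u w h => gm_cl h

theorem EO_ctr_mem : D.EO D.ctr ∈ AA fun j => D.EO (Pi.single j 1) := by
  have h1 : D.EO D.ctr = ∑ j, (algebraMap ℂ (OO r) (D.ctr j)) • D.EO (Pi.single j 1) := by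
    refine gm_EO_ext fun t => ?_
    rw [gm_evO]
    ext u w
    rw [gm_E, Matrix.map_apply, Matrix.sum_apply, map_sum]
    rfl
  rw [h1]
  refine Subalgebra.sum_mem _ fun j _ => ?_
  refine Subalgebra.smul_mem _ ?_ _
  exact Algebra.subset_adjoin ⟨j, rfl⟩

theorem EO_euler (j : Fin r) (Q : Matrix D.W D.W (OO r))
    (hQ : Q ∈ AA fun j => D.EO (Pi.single j 1)) :
    (Q * (D.EO D.ctr).map (dO (Pi.single j 1))).trace = (Q * D.EO (Pi.single j 1)).trace := by
  set N : Matrix D.W D.W (OO r) := Matrix.diagonal fun w => ((D.len w : ℕ) : OO r) with hN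
  have h1 : (D.EO D.ctr).map (dO (Pi.single j 1)) = D.EO (Pi.single j 1) +
      D.EO (Pi.single j 1) * N - N * D.EO (Pi.single j 1) := by
    ext1 u w
    rw [Matrix.map_apply, gm_dEO, Matrix.sub_apply, Matrix.add_apply, hN, Matrix.mul_diagonal,
      Matrix.diagonal_mul, gm_EO, Finset.sum_mul, Finset.mul_sum, ← Finset.sum_add_distrib,
      ← Finset.sum_sub_distrib]
    refine Finset.sum_congr rfl fun a ha => ?_
    by_cases hu : u = w * D.refl a
    · simp only [if_pos hu]
      rw [ch_ctr, mul_comm, mul_smul]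
      by_cases hl : D.len u = D.len w + 1
      · have h2 : ¬ ((D.len u : ℤ) + D.L a = D.len w + 1) := by
          have h3 := two_le_L ha
          omega
        rw [if_pos hl, if_neg h2, hl]
        simp only [smul_zero, add_zero]
        push_cast
        rw [smul_mul_assoc, mul_smul_comm, one_mul, mul_one, smul_add]
        abel
      · rw [if_neg hl, zero_add]
        by_cases h2 : (D.len u : ℤ) + D.L a = D.len w + 1
        · rw [if_pos h2]
          have h3 : ((D.L a : ℤ) : ℂ) = (D.len w : ℂ) + 1 - D.len u := by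
            have h4 : D.L a = (D.len w : ℤ) + 1 - D.len u := by omega
            rw [h4]
            push_cast
            ring
          have h5 : ∀ (m : ℕ) (x : OO r), ((m : ℕ) : OO r) * x = ((m : ℕ) : ℂ) • x := by
            intro m x
            rw [Algebra.smul_def, map_natCast]
          rw [h3, mul_comm _ ((D.len w : ℕ) : OO r), h5, h5, sub_smul, add_smul, one_smul, smul_sub,
            smul_add, smul_comm (D.ch (Pi.single j 1) a) ((D.len w : ℕ) : ℂ),
            smul_comm (D.ch (Pi.single j 1) a) ((D.len u : ℕ) : ℂ)]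
          abel
        · rw [if_neg h2]
          simp
    · simp [hu]
  have hc : Q * D.EO (Pi.single j 1) = D.EO (Pi.single j 1) * Q :=
    AA_comm (fun h k => EO_comm _ _) hQ (Algebra.subset_adjoin ⟨j, rfl⟩)
  rw [h1, mul_sub, mul_add, Matrix.trace_sub, Matrix.trace_add, ← mul_assoc, ← mul_assoc,
    Matrix.trace_mul_comm (Q * N), ← mul_assoc, hc]
  ring

theorem exists_reg (D : RS r) :
    ∃ ν : Fin r → ℤ, Function.Injective fun w : D.W => D.hv D.ctr w (cc ν) := by
  obtain ⟨ξ, _, h⟩ := exists_xi D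
  refine ⟨ξ, fun u w huw => h ?_⟩
  have h1 : ∀ w : D.W, D.hv D.ctr w (cc ξ) = ((dotProduct ξ (D.rt w D.tr) : ℤ) : ℂ) := by
    intro w
    rw [hv_ctr]
    unfold pr cc dotProduct
    push_cast
    exact Finset.sum_congr rfl fun i _ => mul_comm _ _
  have h2 : D.hv D.ctr u (cc ξ) = D.hv D.ctr w (cc ξ) := huw
  rw [h1, h1] at h2
  exact_mod_cast h2

end Pool.Agent.FLG.RS
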